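import Mathlib

set_option autoImplicit false

/-! Central extensions: lifting braid and commutation relations. -/

namespace Pool.Agent.Run7.h132.PJ

section basic
variable {E Γ : Type*} [Group E] [Group Γ] {π : E →* Γ}

/-- the kernel of `π` is central -/
def CK (π : E →* Γ) : Prop := ∀ z x : E, π z = 1 → z * x = x * z

theorem CK.ex (_h : CK π) {x y : E} (e : π x = π y) : ∃ z, π z = 1 ∧ x = z * y :=
  ⟨x * y⁻¹, by rw [map_mul, map_inv, e, mul_inv_cancel], by group⟩

/-- two lifts braiding with the same element are equal -/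
theorem CK.uniq (h : CK π) {x x' y : E} (e : π x = π x') (b : x * y * x = y * x * y)
    (b' : x' * y * x' = y * x' * y) : x = x' := by
  obtain ⟨z, hz, rfl⟩ := h.ex e
  have c := fun x => h z x hz
  have h1 : z * (z * (x' * y * x')) = z * (y * x' * y) := by
    calc z * (z * (x' * y * x')) = z * ((z * x') * (y * x')) := by simp only [mul_assoc]
      _ = z * ((x' * z) * (y * x')) := by rw [c x']
      _ = z * (x' * (z * y) * x') := by simp only [mul_assoc]
      _ = z * (x' * (y * z) * x') := by rw [c y]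
      _ = z * x' * y * (z * x') := by simp only [mul_assoc]
      _ = y * (z * x') * y := b
      _ = (y * z) * (x' * y) := by simp only [mul_assoc]
      _ = (z * y) * (x' * y) := by rw [c y]
      _ = _ := by simp only [mul_assoc]
  rw [b'] at h1
  have h2 := mul_left_cancel h1
  have h3 : z = 1 := by
    have := mul_right_cancel (h2.trans (one_mul _).symm)
    exact this
  rw [h3, one_mul]

/-- the corrected lift -/
def br (a b : E) : E := a * b * a * (a * b)⁻¹

theorem CK.br_spec (h : CK π) {a b : E} (e : π a * π b * π a = π b * π a * π b) :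
    π (br a b) = π b ∧ br a b * a * br a b = a * br a b * a := by
  have h1 : π (br a b) = π b := by
    unfold br
    rw [map_mul, map_inv, map_mul, map_mul, e]
    group
  refine ⟨h1, ?_⟩
  obtain ⟨z, hz, hb⟩ := h.ex h1
  have c := fun x => h z x hz
  have h2 : z * b * (a * b) = a * b * a := by
    rw [← hb]
    unfold br
    group
  rw [hb]
  calc z * b * a * (z * b) = z * b * (a * z) * b := by simp only [mul_assoc]
    _ = z * b * (z * a) * b := by rw [c a]
    _ = z * (b * z) * a * b := by simp only [mul_assoc]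
    _ = z * (z * b) * a * b := by rw [c b]
    _ = z * (z * b * (a * b)) := by simp only [mul_assoc]
    _ = z * (a * b * a) := by rw [h2]
    _ = (z * a) * b * a := by simp only [mul_assoc]
    _ = (a * z) * b * a := by rw [c a]
    _ = _ := by simp only [mul_assoc]

theorem CK.conj_lift (h : CK π) {c c' : E} (e : π c = π c') (x : E) :
    c * x * c⁻¹ = c' * x * c'⁻¹ := by
  obtain ⟨z, hz, rfl⟩ := h.ex e
  have cz := fun x => h z x hz
  calc z * c' * x * (z * c')⁻¹ = z * (c' * x * c'⁻¹) * z⁻¹ := by group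
    _ = (c' * x * c'⁻¹) * z * z⁻¹ := by rw [cz]
    _ = _ := by group

theorem CK.conj_lift' (h : CK π) {c c' : E} (e : π c = π c') (x : E) :
    c⁻¹ * x * c = c'⁻¹ * x * c' := by
  have h1 := h.conj_lift (c := c⁻¹) (c' := c'⁻¹) (by rw [map_inv, map_inv, e]) x
  simpa only [inv_inv] using h1

theorem CK.comm_lift (h : CK π) {x x' y y' : E} (e : π x = π x') (e' : π y = π y')
    (c : Commute x y) : Commute x' y' := by
  obtain ⟨z, hz, rfl⟩ := h.ex e.symm
  obtain ⟨w, hw, rfl⟩ := h.ex e'.symm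
  have c1 : ∀ x, Commute z x := fun x => h z x hz
  have c2 : ∀ x, Commute w x := fun x => h w x hw
  exact ((c2 z).symm.mul_left (c2 x).symm).mul_right ((c1 y).mul_left c)

/-- `u` and `y` commute up to the central element `k` -/
def Kr (π : E →* Γ) (y k u : E) : Prop := π k = 1 ∧ u * y = k * (y * u)

theorem CK.kr_exists (_h : CK π) {u y : E} (e : Commute (π u) (π y)) : ∃ k, Kr π y k u := by
  refine ⟨u * y * (y * u)⁻¹, ?_, by group⟩
  rw [map_mul, map_inv, map_mul, map_mul, e.eq, mul_inv_cancel]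

theorem CK.kr_mul (h : CK π) {y k l u v : E} (h1 : Kr π y k u) (h2 : Kr π y l v) :
    Kr π y (k * l) (u * v) := by
  refine ⟨by rw [map_mul, h1.1, h2.1, one_mul], ?_⟩
  calc u * v * y = u * (v * y) := mul_assoc _ _ _
    _ = u * (l * (y * v)) := by rw [h2.2]
    _ = (u * l) * (y * v) := by simp only [mul_assoc]
    _ = (l * u) * (y * v) := by rw [h l u h2.1]
    _ = l * (u * y) * v := by simp only [mul_assoc]
    _ = l * (k * (y * u)) * v := by rw [h1.2]
    _ = (l * k) * (y * (u * v)) := by simp only [mul_assoc]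
    _ = _ := by rw [h l k h2.1]

theorem CK.kr_inv (h : CK π) {y k u : E} (h1 : Kr π y k u) : Kr π y k⁻¹ u⁻¹ := by
  refine ⟨by rw [map_inv, h1.1, inv_one], ?_⟩
  have h2 := h1.2
  have c := h k (u⁻¹ * y * u) h1.1
  have h3 : y = u⁻¹ * (k * (y * u)) := by rw [← h2]; group
  have h4 : y = k * (u⁻¹ * y * u) := by
    calc y = u⁻¹ * (k * (y * u)) := h3
      _ = (u⁻¹ * k) * (y * u) := by simp only [mul_assoc]
      _ = (k * u⁻¹) * (y * u) := by rw [h k u⁻¹ h1.1]
      _ = _ := by simp only [mul_assoc]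
  have h5 : k⁻¹ * y = u⁻¹ * y * u := by
    calc k⁻¹ * y = k⁻¹ * (k * (u⁻¹ * y * u)) := by rw [← h4]
      _ = _ := by group
  calc u⁻¹ * y = u⁻¹ * y * u * u⁻¹ := by group
    _ = k⁻¹ * y * u⁻¹ := by rw [← h5]
    _ = _ := mul_assoc _ _ _

theorem kr_uniq {y k l u : E} (h1 : Kr π y k u) (h2 : Kr π y l u) : k = l :=
  mul_right_cancel (h1.2.symm.trans h2.2)

theorem kr_one {y u : E} : Kr π y 1 u ↔ Commute u y := by
  unfold Kr
  rw [map_one, one_mul]
  exact ⟨fun h => h.2, fun h => ⟨rfl, h⟩⟩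

theorem CK.kr_lift (h : CK π) {y k u u' : E} (e : π u = π u') (h1 : Kr π y k u) :
    Kr π y k u' := by
  obtain ⟨z, hz, rfl⟩ := h.ex e.symm
  have h2 : Kr π y 1 z := kr_one.2 (h z y hz)
  simpa only [one_mul] using h.kr_mul h2 h1

theorem CK.kr_braid (h : CK π) {y k l u v : E} (h1 : Kr π y k u) (h2 : Kr π y l v)
    (b : π u * π v * π u = π v * π u * π v) : k = l := by
  have h3 := h.kr_mul (h.kr_mul h1 h2) h1
  have h4 := h.kr_mul (h.kr_mul h2 h1) h2
  have h5 := h.kr_lift (u' := v * u * v) (by simpa only [map_mul] using b) h3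
  have h6 := kr_uniq h5 h4
  rw [h k l h1.1] at h6
  have h7 := mul_left_cancel h6
  exact h7

theorem CK.kr_conj (h : CK π) {y k u w l : E} (h1 : Kr π y k u) (h2 : Kr π y l w) :
    Kr π y k (w * u * w⁻¹) := by
  have h3 := h.kr_mul (h.kr_mul h2 h1) (h.kr_inv h2)
  have h4 : l * k * l⁻¹ = k := by rw [h l k h2.1]; group
  rwa [h4] at h3

theorem CK.kr_conj' (h : CK π) {y k u w l : E} (h1 : Kr π y k u) (h2 : Kr π y l w) :
    Kr π y k (w⁻¹ * u * w) := by
  have h3 := h.kr_conj h1 (h.kr_inv h2)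
  rwa [inv_inv] at h3

/-- commutators commute exactly -/
theorem CK.comm_c1 (h : CK π) {u x y : E} (h1 : Commute (π x) (π u)) (h2 : Commute (π y) (π u)) :
    Commute (x⁻¹ * y * x * y⁻¹) u := by
  obtain ⟨k, hk⟩ := h.kr_exists h1
  obtain ⟨l, hl⟩ := h.kr_exists h2
  have h3 := h.kr_mul (h.kr_conj' hl hk) (h.kr_inv hl)
  rw [mul_inv_cancel] at h3
  exact kr_one.1 h3

theorem CK.comm_c2 (h : CK π) {u x y : E} (h1 : Commute (π x) (π u)) (h2 : Commute (π y) (π u)) :
    Commute (x * y⁻¹ * x⁻¹ * y) u := by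
  obtain ⟨k, hk⟩ := h.kr_exists h1
  obtain ⟨l, hl⟩ := h.kr_exists h2
  have h3 := h.kr_mul (h.kr_conj (h.kr_inv hl) hk) hl
  rw [inv_mul_cancel] at h3
  exact kr_one.1 h3

end basic

section garside
variable {G : Type*} [Group G]

theorem braid_conj {x y : G} (b : x * y * x = y * x * y) (w : G) :
    (w * x * w⁻¹) * (w * y * w⁻¹) * (w * x * w⁻¹) =
      (w * y * w⁻¹) * (w * x * w⁻¹) * (w * y * w⁻¹) := by
  calc _ = w * (x * y * x) * w⁻¹ := by group
    _ = w * (y * x * y) * w⁻¹ := by rw [b]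
    _ = _ := by group

end garside

end Pool.Agent.Run7.h132.PJ
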