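import Mathlib
import Pool.Agent.TH35.MG.HDefs

set_option autoImplicit false

/-! The Garside element of a chain of length five. -/

namespace Pool.Agent.Run7.h132.PJ

open Pool.Agent.TH35.MG

variable {G : Type*} [Group G]

theorem garside5 {a b t c d : G} (ab : a * b * a = b * a * b) (bt : b * t * b = t * b * t)
    (tc : t * c * t = c * t * c) (cd : c * d * c = d * c * d) (cat : Commute a t)
    (cac : Commute a c) (cad : Commute a d) (cbc : Commute b c) (cbd : Commute b d)
    (ctd : Commute t d) :
    SemiconjBy (Sw a b t c d) a d ∧ SemiconjBy (Sw a b t c d) b c ∧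
      SemiconjBy (Sw a b t c d) t t ∧ SemiconjBy (Sw a b t c d) c b ∧
      SemiconjBy (Sw a b t c d) d a := by
  have sab : SemiconjBy (a * b) a b := by
    show a * b * a = b * (a * b)
    rw [ab, mul_assoc]
  have sbt : SemiconjBy (b * t) b t := by
    show b * t * b = t * (b * t)
    rw [bt, mul_assoc]
  have stc : SemiconjBy (t * c) t c := by
    show t * c * t = c * (t * c)
    rw [tc, mul_assoc]
  have scd : SemiconjBy (c * d) c d := by
    show c * d * c = d * (c * d)
    rw [cd, mul_assoc]
  -- X3
  have x3a : SemiconjBy (a * b * t) a b := sab.mul_left cat.symm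
  have x3b : SemiconjBy (a * b * t) b t := by
    rw [mul_assoc]; exact SemiconjBy.mul_left cat sbt
  -- X4
  have x4a : SemiconjBy (a * b * t * c) a b := x3a.mul_left cac.symm
  have x4b : SemiconjBy (a * b * t * c) b t := x3b.mul_left cbc.symm
  have x4t : SemiconjBy (a * b * t * c) t c := by
    rw [mul_assoc]; exact SemiconjBy.mul_left (cac.mul_left cbc) stc
  -- X5
  have x5a : SemiconjBy (a * b * t * c * d) a b := x4a.mul_left cad.symm
  have x5b : SemiconjBy (a * b * t * c * d) b t := x4b.mul_left cbd.symm
  have x5t : SemiconjBy (a * b * t * c * d) t c := x4t.mul_left ctd.symm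
  have x5c : SemiconjBy (a * b * t * c * d) c d := by
    rw [mul_assoc]; exact SemiconjBy.mul_left ((cad.mul_left cbd).mul_left ctd) scd
  -- squares
  have y2 : SemiconjBy ((a * b) * a) b a := by
    calc (a * b) * a * b = a * (b * (a * b)) := by simp only [mul_assoc]
      _ = a * ((a * b) * a) := by rw [sab.eq]
  have y3 : SemiconjBy ((a * b * t) * (a * b)) t a := by
    have h := x3a.mul_right x3b
    calc (a * b * t) * (a * b) * t = a * (b * t * (a * b * t)) := by simp only [mul_assoc]
      _ = a * ((a * b * t) * (a * b)) := by rw [h.eq]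
  have y4 : SemiconjBy ((a * b * t * c) * (a * b * t)) c a := by
    have h := (x4a.mul_right x4b).mul_right x4t
    calc (a * b * t * c) * (a * b * t) * c = a * (b * t * c * (a * b * t * c)) := by
          simp only [mul_assoc]
      _ = a * ((a * b * t * c) * (a * b * t)) := by rw [h.eq]
  have y5 : SemiconjBy ((a * b * t * c * d) * (a * b * t * c)) d a := by
    have h := ((x5a.mul_right x5b).mul_right x5t).mul_right x5c
    calc (a * b * t * c * d) * (a * b * t * c) * d =
          a * (b * t * c * d * (a * b * t * c * d)) := by simp only [mul_assoc]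
      _ = a * ((a * b * t * c * d) * (a * b * t * c)) := by rw [h.eq]
  have e : Sw a b t c d = (a * b * t * c * d) * (a * b * t * c) * (a * b * t) * (a * b) * a := rfl
  refine ⟨?_, ?_, ?_, ?_, ?_⟩
  · rw [e]
    exact (((x5c.mul_left x4t).mul_left x3b).mul_left sab).mul_left (Commute.refl a)
  · have e2 : Sw a b t c d =
        (a * b * t * c * d) * (a * b * t * c) * (a * b * t) * ((a * b) * a) := by
      rw [e]; simp only [mul_assoc]
    rw [e2]
    exact ((x5t.mul_left x4b).mul_left x3a).mul_left y2
  · have e2 : Sw a b t c d =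
        (a * b * t * c * d) * (a * b * t * c) * ((a * b * t) * (a * b)) * a := by
      rw [e]; simp only [mul_assoc]
    rw [e2]
    exact ((x5b.mul_left x4a).mul_left y3).mul_left cat
  · have e2 : Sw a b t c d =
        (a * b * t * c * d) * ((a * b * t * c) * (a * b * t)) * (a * b) * a := by
      rw [e]; simp only [mul_assoc]
    rw [e2]
    exact ((x5a.mul_left y4).mul_left (cac.mul_left cbc)).mul_left cac
  · rw [e]
    exact (((y5.mul_left ((cad.mul_left cbd).mul_left ctd))).mul_left
      (cad.mul_left cbd)).mul_left cad

end Pool.Agent.Run7.h132.PJ
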