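import Mathlib
import Pool.Agent.Run7.h132.PJ.A
import Pool.Agent.Run7.h132.PJ.G
import Pool.Agent.TH35.MG.HM
import Pool.Agent.TH35.MG.MH

set_option autoImplicit false

/-! Lifts of the Dehn twists to a central extension. -/

namespace Pool.Agent.Run7.h132.PJ

open Pool.Agent.H798R3.MG Pool.Agent.TH35.MG

variable {E Γ : Type*} [Group E] [Group Γ] {π : E →* Γ} {N n : ℕ}
  {A B al be T : ℕ → Γ} {tau : Γ} {a b t : ℕ → E}

/-- lifts of the twists satisfying the braid relations -/
structure Lf (π : E →* Γ) (N : ℕ) (A B T : ℕ → Γ) (a b t : ℕ → E) : Prop where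
  ck : CK π
  pa : ∀ i < N, π (a i) = A i
  pb : ∀ i < N, π (b i) = B i
  pt : ∀ i, i + 1 < N → π (t i) = T i
  ab : ∀ i < N, a i * b i * a i = b i * a i * b i
  tb : ∀ i, i + 1 < N → t i * b i * t i = b i * t i * b i
  tb' : ∀ i, i + 1 < N → t i * b (i + 1) * t i = b (i + 1) * t i * b (i + 1)

theorem exists_lf (hπ : Function.Surjective π) (ck : CK π) (r : HRel N A B al be T tau) :
    ∃ a b t, Lf π N A B T a b t := by
  obtain ⟨s, hs⟩ := hπ.hasRightInverse
  let b : ℕ → E := fun i => Nat.rec (s (B 0)) (fun k x => br (br x (s (T k))) (s (B (k + 1)))) i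
  let t : ℕ → E := fun i => br (b i) (s (T i))
  let a : ℕ → E := fun i => br (b i) (s (A i))
  have b0 : b 0 = s (B 0) := rfl
  have b1 : ∀ i, b (i + 1) = br (t i) (s (B (i + 1))) := fun i => rfl
  have ht : ∀ i, i + 1 < N → π (b i) = B i → π (t i) = T i ∧ t i * b i * t i = b i * t i * b i := by
    intro i hi hb
    have h := ck.br_spec (a := b i) (b := s (T i)) (by
      rw [hb, hs]; exact (r.braidTBi i hi).symm)
    rw [hs] at h
    exact h
  have hb1 : ∀ i, i + 1 < N → π (b i) = B i → π (b (i + 1)) = B (i + 1) ∧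
      b (i + 1) * t i * b (i + 1) = t i * b (i + 1) * t i := by
    intro i hi hb
    have h := ck.br_spec (a := t i) (b := s (B (i + 1))) (by
      rw [(ht i hi hb).1, hs]; exact r.braidTBj i hi)
    rw [hs] at h
    rw [b1]
    exact h
  have hb : ∀ i, i < N → π (b i) = B i := by
    intro i
    induction i with
    | zero => intro _; rw [b0, hs]
    | succ i ih => intro hi; exact (hb1 i hi (ih (by omega))).1
  have ha : ∀ i, i < N → π (a i) = A i ∧ a i * b i * a i = b i * a i * b i := by
    intro i hi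
    have h := ck.br_spec (a := b i) (b := s (A i)) (by
      rw [hb i hi, hs]; exact (r.braidAB i hi).symm)
    rw [hs] at h
    exact h
  exact ⟨a, b, t, ck, fun i hi => (ha i hi).1, hb, fun i hi => (ht i hi (hb i (by omega))).1,
    fun i hi => (ha i hi).2, fun i hi => (ht i hi (hb i (by omega))).2,
    fun i hi => (hb1 i hi (hb i (by omega))).2.symm⟩

section
variable (L : Lf π N A B T a b t) (r : HRel N A B al be T tau)
include L

theorem Lf.pS {i : ℕ} (hi : i + 1 < N) : π (Ss a b t i) = Ss A B T i := by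
  rw [map_Ss]
  simp only [Ss, L.pa i (by omega), L.pa (i + 1) hi, L.pb i (by omega), L.pb (i + 1) hi, L.pt i hi]

theorem Lf.pQ {i : ℕ} (hi : i < N) : π (Qw (a i) (b i)) = Qw (A i) (B i) := by
  rw [map_Qw, L.pa i hi, L.pb i hi]

theorem Lf.pD {i : ℕ} (hi : i + 2 < N) : π (Dd a b t i) = Dd A B T i := by
  unfold Dd
  simp only [map_mul, map_inv, L.pS (i := i + 1) (by omega), L.pQ (i := i + 1) (by omega),
    L.pt i (by omega)]

theorem Lf.pL {i : ℕ} (hi : i + 2 < N) : π (Ll a b t i) = Ll A B T i := by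
  unfold Ll
  simp only [map_mul, map_inv, L.pD hi, L.pt i (by omega), L.pt (i + 1) (by omega),
    L.pa i (by omega), L.pa (i + 1) (by omega), L.pa (i + 2) hi]

include r

/-- everything commuting with three consecutive handles has exact commutation -/
theorem Lf.up {y : E} {m : ℕ} (hm : m + 3 ≤ N)
    (cA : ∀ j, m ≤ j → j < N → Commute (A j) (π y))
    (cB : ∀ j, m ≤ j → j < N → Commute (B j) (π y))
    (cT : ∀ j, m ≤ j → j + 1 < N → Commute (T j) (π y)) :
    ∀ j, m ≤ j → j < N → Commute (a j) y ∧ Commute (b j) y ∧ (j + 1 < N → Commute (t j) y) := by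
  have ck := L.ck
  obtain ⟨k, hk⟩ := ck.kr_exists (u := b m) (y := y) (by
    rw [L.pb m (by omega)]; exact cB m le_rfl (by omega))
  have hb : ∀ j, m ≤ j → j < N → Kr π y k (b j) := by
    intro j hj
    induction j, hj using Nat.le_induction with
    | base => intro _; exact hk
    | succ j hj ih =>
      intro hj'
      have h1 := ih (by omega)
      obtain ⟨l, hl⟩ := ck.kr_exists (u := t j) (y := y) (by
        rw [L.pt j hj']; exact cT j hj hj')
      obtain ⟨l', hl'⟩ := ck.kr_exists (u := b (j + 1)) (y := y) (by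
        rw [L.pb _ hj']; exact cB _ (by omega) hj')
      have e1 : l = k := ck.kr_braid hl h1 (by
        simpa only [map_mul] using congrArg π (L.tb j hj'))
      have e2 : l = l' := ck.kr_braid hl hl' (by
        simpa only [map_mul] using congrArg π (L.tb' j hj'))
      rw [← e1, e2]
      exact hl'
  have ht : ∀ j, m ≤ j → j + 1 < N → Kr π y k (t j) := by
    intro j hj hj'
    obtain ⟨l, hl⟩ := ck.kr_exists (u := t j) (y := y) (by
      rw [L.pt j hj']; exact cT j hj hj')
    have e1 : l = k := ck.kr_braid hl (hb j hj (by omega)) (by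
      simpa only [map_mul] using congrArg π (L.tb j hj'))
    rwa [e1] at hl
  have ha : ∀ j, m ≤ j → j < N → Kr π y k (a j) := by
    intro j hj hj'
    obtain ⟨l, hl⟩ := ck.kr_exists (u := a j) (y := y) (by
      rw [L.pa j hj']; exact cA j hj hj')
    have e1 : l = k := ck.kr_braid hl (hb j hj hj') (by
      simpa only [map_mul] using congrArg π (L.ab j hj'))
    rwa [e1] at hl
  obtain ⟨s, hs⟩ := ck.kr_exists (u := Ss a b t (m + 1)) (y := y) (by
    rw [L.pS (by omega)]
    exact Ss_comm (cA _ (by omega) (by omega)) (cB _ (by omega) (by omega))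
      (cT _ (by omega) (by omega)) (cB _ (by omega) (by omega)) (cA _ (by omega) (by omega)))
  obtain ⟨q, hq⟩ := ck.kr_exists (u := Qw (a (m + 1)) (b (m + 1))) (y := y) (by
    rw [L.pQ (by omega)]
    exact Qw_comm (cA _ (by omega) (by omega)) (cB _ (by omega) (by omega)))
  have hD : Kr π y k (Dd a b t m) :=
    ck.kr_conj' (ck.kr_conj (ht m le_rfl (by omega)) hq) hs
  have hL : Kr π y 1 (Ll a b t m) := by
    have h1 := ck.kr_mul (ck.kr_mul (ck.kr_mul (ht m le_rfl (by omega))
      (ht (m + 1) (by omega) (by omega))) hD)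
      (ck.kr_inv (ck.kr_mul (ck.kr_mul (ha m le_rfl (by omega)) (ha (m + 1) (by omega) (by omega)))
        (ha (m + 2) (by omega) (by omega))))
    rw [mul_inv_cancel] at h1
    exact h1
  have hk1 : 1 = k := ck.kr_braid hL (hb m le_rfl (by omega)) (by
    rw [L.pL (by omega), L.pb m (by omega)]
    exact r.lantern m (by omega))
  subst hk1
  exact fun j hj hj' => ⟨kr_one.1 (ha j hj hj'), kr_one.1 (hb j hj hj'),
    fun hj2 => kr_one.1 (ht j hj hj2)⟩

theorem Lf.upA {i : ℕ} (hi : i + 4 ≤ N) (j : ℕ) (hj : i < j) (hj' : j < N) :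
    Commute (a j) (a i) ∧ Commute (b j) (a i) ∧ (j + 1 < N → Commute (t j) (a i)) := by
  refine L.up r (m := i + 1) (by omega) ?_ ?_ ?_ j hj hj' <;> intro k hk hk' <;>
    rw [L.pa i (by omega)]
  · exact r.commAA k hk' i (by omega)
  · exact (r.commAB i (by omega) k hk' (by omega)).symm
  · exact r.commTA k hk' i (by omega)

theorem Lf.upB {i : ℕ} (hi : i + 4 ≤ N) (j : ℕ) (hj : i < j) (hj' : j < N) :
    Commute (a j) (b i) ∧ Commute (b j) (b i) ∧ (j + 1 < N → Commute (t j) (b i)) := by
  refine L.up r (m := i + 1) (by omega) ?_ ?_ ?_ j hj hj' <;> intro k hk hk' <;>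
    rw [L.pb i (by omega)]
  · exact r.commAB k hk' i (by omega) (by omega)
  · exact r.commBB k hk' i (by omega)
  · exact r.commTB k hk' i (by omega) (by omega) (by omega)

theorem Lf.upT {i : ℕ} (hi : i + 5 ≤ N) (j : ℕ) (hj : i + 1 < j) (hj' : j < N) :
    Commute (a j) (t i) ∧ Commute (b j) (t i) ∧ (j + 1 < N → Commute (t j) (t i)) := by
  refine L.up r (m := i + 2) (by omega) ?_ ?_ ?_ j hj hj' <;> intro k hk hk' <;>
    rw [L.pt i (by omega)]
  · exact (r.commTA i (by omega) k hk').symm
  · exact (r.commTB i (by omega) k hk' (by omega) (by omega)).symm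
  · exact (r.commTT i k (by omega) hk').symm

theorem Lf.tai {i : ℕ} (hi : i + 4 ≤ N) : Commute (t i) (a i) := by
  have ck := L.ck
  obtain ⟨l, hl⟩ := ck.kr_exists (u := t i) (y := a i) (by
    rw [L.pt i (by omega), L.pa i (by omega)]; exact r.commTA i (by omega) i (by omega))
  have h1 : Kr π (a i) 1 (b (i + 1)) := kr_one.2 (L.upA r hi (i + 1) (by omega) (by omega)).2.1
  have e1 : l = 1 := ck.kr_braid hl h1 (by
    simpa only [map_mul] using congrArg π (L.tb' i (by omega)))
  rw [e1] at hl
  exact kr_one.1 hl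

theorem Lf.taj {i : ℕ} (hi : i + 5 ≤ N) : Commute (t i) (a (i + 1)) := by
  have ck := L.ck
  have hS := L.pS (i := i) (by omega)
  have g5 := garside5 (r.braidAB i (by omega)) (r.braidTBi i (by omega)).symm
    (r.braidTBj i (by omega)) (r.braidAB (i + 1) (by omega)).symm
    (r.commTA i (by omega) i (by omega)).symm (r.commAB i (by omega) (i + 1) (by omega) (by omega))
    (r.commAA i (by omega) (i + 1) (by omega)) (r.commBB i (by omega) (i + 1) (by omega))
    (r.commAB (i + 1) (by omega) i (by omega) (by omega)).symm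
    (r.commTA i (by omega) (i + 1) (by omega))
  have g : SemiconjBy (Ss A B T i) (T i) (T i) := g5.2.2.1
  have h1 : π (t i) = π (Ss a b t i * t i * (Ss a b t i)⁻¹) := by
    rw [map_mul, map_mul, map_inv, hS, L.pt i (by omega), g.eq]
    group
  have h2 : π (a i) = π (Ss a b t i * a (i + 1) * (Ss a b t i)⁻¹) := by
    rw [map_mul, map_mul, map_inv, hS, L.pa i (by omega), L.pa (i + 1) (by omega),
      r.sA' i (by omega)]
    group
  have h3 := ck.comm_lift h1 h2 (L.tai r (by omega))
  exact (Commute.conj_iff _).1 h3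

/-- the exchange relations -/
theorem Lf.g5 {i : ℕ} (hi : i + 5 ≤ N) :
    SemiconjBy (Ss a b t i) (a i) (a (i + 1)) ∧ SemiconjBy (Ss a b t i) (b i) (b (i + 1)) ∧
      SemiconjBy (Ss a b t i) (t i) (t i) ∧ SemiconjBy (Ss a b t i) (b (i + 1)) (b i) ∧
      SemiconjBy (Ss a b t i) (a (i + 1)) (a i) :=
  garside5 (L.ab i (by omega)) (L.tb i (by omega)).symm
    (L.tb' i (by omega)) (L.ab (i + 1) (by omega)).symm
    (L.tai r (by omega)).symm (L.upA r (by omega) (i + 1) (by omega) (by omega)).2.1.symm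
    (L.upA r (by omega) (i + 1) (by omega) (by omega)).1.symm
    (L.upB r (by omega) (i + 1) (by omega) (by omega)).2.1.symm
    (L.upB r (by omega) (i + 1) (by omega) (by omega)).1.symm
    (L.taj r hi)

end

end Pool.Agent.Run7.h132.PJ
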