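import Mathlib
import Pool.Agent.Run7.h132.PJ.B

set_option autoImplicit false

/-! Lifts of the Dehn twists to a central extension: the exchange and lantern relations. -/

namespace Pool.Agent.Run7.h132.PJ

open Pool.Agent.H798R3.MG Pool.Agent.TH35.MG

section
variable {G : Type*} [Group G]

theorem qwc {a b : G} (h : a * b * a = b * a * b) :
    Commute (Qw a b) a ∧ Commute (Qw a b) b := by
  have h1 : SemiconjBy (Rw a b) a b := by
    show a * b * a * a = b * (a * b * a)
    calc a * b * a * a = b * a * b * a := by rw [h]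
      _ = _ := by simp only [mul_assoc]
  have h2 : SemiconjBy (Rw a b) b a := by
    show a * b * a * b = a * (a * b * a)
    calc a * b * a * b = a * (b * a * b) := by simp only [mul_assoc]
      _ = _ := by rw [h]
  have h3 : SemiconjBy (Rw a b * Rw a b) a a := h2.mul_left h1
  have h4 : SemiconjBy (Rw a b * Rw a b) b b := h1.mul_left h2
  exact ⟨SemiconjBy.mul_left h3 h3, SemiconjBy.mul_left h4 h4⟩

/-- the moves between neighbouring handles -/
def Pw (a b t : ℕ → G) (k : ℕ) : G := (Ss a b t k)⁻¹ * Qw (a k) (b k)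

theorem pw_comm {a b t : ℕ → G} {x : G} {k : ℕ} (h1 : Commute (a k) x) (h2 : Commute (b k) x)
    (h3 : Commute (t k) x) (h4 : Commute (b (k + 1)) x) (h5 : Commute (a (k + 1)) x) :
    Commute (Pw a b t k) x :=
  (Commute.inv_left (Ss_comm h1 h2 h3 h4 h5)).mul_left (Qw_comm h1 h2)

theorem pw_t {a b t : ℕ → G} {k : ℕ} : SemiconjBy (Pw a b t (k + 1)) (t k) (Dd a b t k) := by
  show Pw a b t (k + 1) * t k = Dd a b t k * Pw a b t (k + 1)
  unfold Pw Dd
  group

theorem semi_conj {w x y : G} (h : SemiconjBy w x y) : w * x * w⁻¹ = y := by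
  rw [h.eq]; group

end

variable {E Γ : Type*} [Group E] [Group Γ] {π : E →* Γ} {N n : ℕ}
  {A B al be T : ℕ → Γ} {tau : Γ} {a b t : ℕ → E}

section
variable (L : Lf π N A B T a b t) (r : HRel N A B al be T tau)
include L r

theorem Lf.caa {i j : ℕ} (hi : i + 4 ≤ N) (hj : j + 4 ≤ N) : Commute (a i) (a j) := by
  rcases lt_trichotomy i j with h | h | h
  · exact (L.upA r hi j h (by omega)).1.symm
  · rw [h]
  · exact (L.upA r hj i h (by omega)).1

theorem Lf.cab {i j : ℕ} (hi : i + 4 ≤ N) (hj : j + 4 ≤ N) (hij : i ≠ j) :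
    Commute (a i) (b j) := by
  rcases lt_trichotomy i j with h | h | h
  · exact (L.upA r hi j h (by omega)).2.1.symm
  · exact absurd h hij
  · exact (L.upB r hj i h (by omega)).1

theorem Lf.cbb {i j : ℕ} (hi : i + 4 ≤ N) (hj : j + 4 ≤ N) : Commute (b i) (b j) := by
  rcases lt_trichotomy i j with h | h | h
  · exact (L.upB r hi j h (by omega)).2.1.symm
  · rw [h]
  · exact (L.upB r hj i h (by omega)).2.1

theorem Lf.cta {i j : ℕ} (hi : i + 5 ≤ N) (hj : j + 4 ≤ N) : Commute (t i) (a j) := by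
  rcases lt_trichotomy i j with h | h | h
  · rcases Nat.lt_or_ge (i + 1) j with h1 | h1
    · exact (L.upT r hi j h1 (by omega)).1.symm
    · have e : j = i + 1 := by omega
      rw [e]
      exact L.taj r hi
  · rw [← h]
    exact L.tai r (by omega)
  · exact (L.upA r hj i h (by omega)).2.2 (by omega)

theorem Lf.ctb {i j : ℕ} (hi : i + 5 ≤ N) (hj : j + 4 ≤ N) (h1 : j ≠ i) (h2 : j ≠ i + 1) :
    Commute (t i) (b j) := by
  rcases lt_trichotomy i j with h | h | h
  · exact (L.upT r hi j (by omega) (by omega)).2.1.symm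
  · exact absurd h.symm h1
  · exact (L.upB r hj i h (by omega)).2.2 (by omega)

theorem Lf.ctt {i j : ℕ} (hj : j + 5 ≤ N) (hij : i + 1 < j) : Commute (t i) (t j) :=
  ((L.upT r (by omega) j hij (by omega)).2.2 (by omega)).symm

/-- `D_i` braids with `B_i` -/
theorem Lf.Db {i : ℕ} (hi : i + 6 ≤ N) :
    Dd a b t i * b i * Dd a b t i = b i * Dd a b t i * b i := by
  have hc : Commute (Pw a b t (i + 1)) (b i) :=
    pw_comm (L.cab r (by omega) (by omega) (by omega)) (L.cbb r (by omega) (by omega))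
      (L.ctb r (by omega) (by omega) (by omega) (by omega)) (L.cbb r (by omega) (by omega))
      (L.cab r (by omega) (by omega) (by omega))
  have h := braid_conj (L.tb i (by omega)) (Pw a b t (i + 1))
  rw [semi_conj hc, semi_conj (pw_t (a := a) (b := b) (t := t) (k := i))] at h
  exact h

/-- the relation between the twists `T_{i+1}` and `D_i` -/
theorem Lf.dd {i : ℕ} (hi : i + 6 ≤ N) :
    Qw (a i) (b i) * Dd a b t i =
      Ss a b t i * t (i + 1) * (Ss a b t i)⁻¹ * Qw (a i) (b i) := by
  have hq := (qwc (L.ab i (by omega))).2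
  have h1 := braid_conj (L.Db r hi) (Qw (a i) (b i))
  rw [semi_conj hq] at h1
  have h2 := braid_conj (L.tb (i + 1) (by omega)) (Ss a b t i)
  rw [semi_conj (L.g5 r (i := i) (by omega)).2.2.2.1] at h2
  have e : π (Qw (a i) (b i) * Dd a b t i * (Qw (a i) (b i))⁻¹) =
      π (Ss a b t i * t (i + 1) * (Ss a b t i)⁻¹) := by
    simp only [map_mul, map_inv, L.pQ (i := i) (by omega), L.pD (i := i) (by omega),
      L.pS (i := i) (by omega), L.pt (i + 1) (by omega)]
    rw [r.dd2 i (by omega)]
    group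
  have h3 := L.ck.uniq e h1 h2
  rw [← h3]
  group

theorem Lf.pwa {k : ℕ} (hk : k + 5 ≤ N) : SemiconjBy (Pw a b t k) (a k) (a (k + 1)) :=
  (L.g5 r hk).2.2.2.2.inv_symm_left.mul_left (qwc (L.ab k (by omega))).1

theorem Lf.pwb {k : ℕ} (hk : k + 5 ≤ N) : SemiconjBy (Pw a b t k) (b k) (b (k + 1)) :=
  (L.g5 r hk).2.2.2.1.inv_symm_left.mul_left (qwc (L.ab k (by omega))).2

theorem Lf.pwa' {k : ℕ} (hk : k + 5 ≤ N) : SemiconjBy (Pw a b t k) (a (k + 1)) (a k) :=
  (L.g5 r hk).1.inv_symm_left.mul_left (Qw_comm (L.caa r (by omega) (by omega))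
    (L.cab r (by omega) (by omega) (by omega)).symm)

theorem Lf.pwb' {k : ℕ} (hk : k + 5 ≤ N) : SemiconjBy (Pw a b t k) (b (k + 1)) (b k) :=
  (L.g5 r hk).2.1.inv_symm_left.mul_left (Qw_comm (L.cab r (by omega) (by omega) (by omega))
    (L.cbb r (by omega) (by omega)))

theorem Lf.pwca {k j : ℕ} (hk : k + 5 ≤ N) (hj : j + 4 ≤ N) (h1 : j ≠ k) (h2 : j ≠ k + 1) :
    Commute (Pw a b t k) (a j) :=
  pw_comm (L.caa r (by omega) hj) (L.cab r hj (by omega) h1).symm (L.cta r hk hj)
    (L.cab r hj (by omega) h2).symm (L.caa r (by omega) hj)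

theorem Lf.pwcb {k j : ℕ} (hk : k + 5 ≤ N) (hj : j + 4 ≤ N) (h1 : j ≠ k) (h2 : j ≠ k + 1) :
    Commute (Pw a b t k) (b j) :=
  pw_comm (L.cab r (by omega) hj h1.symm) (L.cbb r (by omega) hj) (L.ctb r hk hj h1 h2)
    (L.cbb r (by omega) hj) (L.cab r (by omega) hj h2.symm)

theorem Lf.pwct {k j : ℕ} (hk : k + 5 ≤ N) (hj : j + 5 ≤ N) (h : j + 1 < k ∨ k + 1 < j) :
    Commute (Pw a b t k) (t j) := by
  refine pw_comm (L.cta r hj (by omega)).symm (L.ctb r hj (by omega) (by omega) (by omega)).symm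
    ?_ (L.ctb r hj (by omega) (by omega) (by omega)).symm (L.cta r hj (by omega)).symm
  rcases h with h | h
  · exact (L.ctt r hk h).symm
  · exact L.ctt r hj h

theorem Lf.pwt {i : ℕ} (hi : i + 6 ≤ N) :
    SemiconjBy (Pw a b t i * Pw a b t (i + 1)) (t i) (t (i + 1)) := by
  refine SemiconjBy.mul_left ?_ pw_t
  show Pw a b t i * Dd a b t i = t (i + 1) * Pw a b t i
  unfold Pw
  rw [mul_assoc, L.dd r hi]
  group

/-- the shift of the lantern element -/
theorem Lf.shift {i : ℕ} (hi : i + 7 ≤ N) : ∃ h : E,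
    h * Ll a b t i * h⁻¹ = Ll a b t (i + 1) ∧ h * b i * h⁻¹ = b (i + 1) := by
  set h := Pw a b t i * Pw a b t (i + 1) * Pw a b t (i + 2) with hh
  have a0 : SemiconjBy h (a i) (a (i + 1)) := ((L.pwa r (by omega)).mul_left
    (L.pwca r (by omega) (by omega) (by omega) (by omega))).mul_left
    (L.pwca r (by omega) (by omega) (by omega) (by omega))
  have b0 : SemiconjBy h (b i) (b (i + 1)) := ((L.pwb r (by omega)).mul_left
    (L.pwcb r (by omega) (by omega) (by omega) (by omega))).mul_left
    (L.pwcb r (by omega) (by omega) (by omega) (by omega))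
  have a1 : SemiconjBy h (a (i + 1)) (a (i + 2)) := (SemiconjBy.mul_left
    (L.pwca r (by omega) (by omega) (by omega) (by omega)) (L.pwa r (by omega))).mul_left
    (L.pwca r (by omega) (by omega) (by omega) (by omega))
  have b1 : SemiconjBy h (b (i + 1)) (b (i + 2)) := (SemiconjBy.mul_left
    (L.pwcb r (by omega) (by omega) (by omega) (by omega)) (L.pwb r (by omega))).mul_left
    (L.pwcb r (by omega) (by omega) (by omega) (by omega))
  have a2 : SemiconjBy h (a (i + 2)) (a (i + 3)) := SemiconjBy.mul_left (Commute.mul_left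
    (L.pwca r (by omega) (by omega) (by omega) (by omega))
    (L.pwca r (by omega) (by omega) (by omega) (by omega))) (L.pwa r (by omega))
  have b2 : SemiconjBy h (b (i + 2)) (b (i + 3)) := SemiconjBy.mul_left (Commute.mul_left
    (L.pwcb r (by omega) (by omega) (by omega) (by omega))
    (L.pwcb r (by omega) (by omega) (by omega) (by omega))) (L.pwb r (by omega))
  have t0 : SemiconjBy h (t i) (t (i + 1)) := (L.pwt r (by omega)).mul_left
    (L.pwct r (by omega) (by omega) (Or.inl (by omega)))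
  have t1 : SemiconjBy h (t (i + 1)) (t (i + 2)) := by
    rw [hh, mul_assoc]
    exact SemiconjBy.mul_left (L.pwct r (by omega) (by omega) (Or.inr (by omega)))
      (L.pwt r (i := i + 1) (by omega))
  refine ⟨h, ?_, semi_conj b0⟩
  have e := map_Ll (MulAut.conj h).toMonoidHom a b t i
  have f : ∀ x, (MulAut.conj h).toMonoidHom x = h * x * h⁻¹ := fun x => rfl
  rw [f] at e
  rw [e]
  simp only [f, Ll, Dd, Ss, semi_conj a0, semi_conj a1, semi_conj a2, semi_conj b1,
    semi_conj b2, semi_conj t0, semi_conj t1, show i + 1 + 1 = i + 2 from rfl,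
    show i + 1 + 2 = i + 3 from rfl]

/-- the lantern relation holds up to one central element -/
theorem Lf.lan (hN : 6 ≤ N) : ∃ z : E, π z = 1 ∧ ∀ i, i + 6 ≤ N →
    Ll a b t i * b i * Ll a b t i = z * (b i * Ll a b t i * b i) := by
  obtain ⟨z, hz, h0⟩ := L.ck.ex (x := Ll a b t 0 * b 0 * Ll a b t 0)
    (y := b 0 * Ll a b t 0 * b 0) (by
      simp only [map_mul, L.pL (i := 0) (by omega), L.pb 0 (by omega)]
      exact r.lantern 0 (by omega))
  refine ⟨z, hz, ?_⟩
  intro i
  induction i with
  | zero => intro _; exact h0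
  | succ i ih =>
    intro hi
    have h1 := ih (by omega)
    obtain ⟨h, e1, e2⟩ := L.shift r (i := i) (by omega)
    rw [← e1, ← e2]
    calc h * Ll a b t i * h⁻¹ * (h * b i * h⁻¹) * (h * Ll a b t i * h⁻¹) =
        h * (Ll a b t i * b i * Ll a b t i) * h⁻¹ := by group
      _ = h * z * (b i * Ll a b t i * b i) * h⁻¹ := by rw [h1]; group
      _ = z * h * (b i * Ll a b t i * b i) * h⁻¹ := by rw [L.ck z h hz]
      _ = _ := by group

end

/-- rescaling -/
theorem Lf.scale (L : Lf π N A B T a b t) {z : E} (hz : π z = 1) :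
    Lf π N A B T (fun i => z * a i) (fun i => z * b i) (fun i => z * t i) := by
  have ck := L.ck
  have key : ∀ x y : E, x * y * x = y * x * y →
      z * x * (z * y) * (z * x) = z * y * (z * x) * (z * y) := by
    intro x y h
    have e : ∀ x y : E, z * x * (z * y) * (z * x) = z * z * z * (x * y * x) := by
      intro x y
      calc z * x * (z * y) * (z * x) = z * (x * z) * y * (z * x) := by simp only [mul_assoc]
        _ = z * (z * x) * y * (z * x) := by rw [ck z x hz]
        _ = z * z * (x * y * z) * x := by simp only [mul_assoc]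
        _ = z * z * (z * (x * y)) * x := by rw [ck z (x * y) hz]
        _ = _ := by simp only [mul_assoc]
    rw [e, e, h]
  exact
  { ck := ck
    pa := fun i hi => by simp only [map_mul, hz, one_mul, L.pa i hi]
    pb := fun i hi => by simp only [map_mul, hz, one_mul, L.pb i hi]
    pt := fun i hi => by simp only [map_mul, hz, one_mul, L.pt i hi]
    ab := fun i hi => key _ _ (L.ab i hi)
    tb := fun i hi => key _ _ (L.tb i hi)
    tb' := fun i hi => key _ _ (L.tb' i hi) }

/-- lifts satisfying all the relations between the twists -/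
theorem twist_lifts (hπ : Function.Surjective π) (ck : CK π) (r : HRel N A B al be T tau) :
    ∃ a b t : ℕ → E, Lf π N A B T a b t ∧ ∀ i, i + 6 ≤ N →
      Ll a b t i * b i * Ll a b t i = b i * Ll a b t i * b i := by
  obtain ⟨a, b, t, L⟩ := exists_lf hπ ck r
  rcases Nat.lt_or_ge N 6 with h6 | h6
  · exact ⟨a, b, t, L, fun i hi => by omega⟩
  obtain ⟨z, hz, hl⟩ := L.lan r h6
  refine ⟨_, _, _, L.scale hz, ?_⟩
  intro i hi
  have L' := L.scale hz
  have c : ∀ x, z * x = x * z := fun x => ck z x hz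
  have eS : ∀ x, (Ss (fun i => z * a i) (fun i => z * b i) (fun i => z * t i) (i + 1))⁻¹ * x *
      Ss (fun i => z * a i) (fun i => z * b i) (fun i => z * t i) (i + 1) =
      (Ss a b t (i + 1))⁻¹ * x * Ss a b t (i + 1) := fun x =>
    ck.conj_lift' (by rw [L'.pS (by omega), L.pS (by omega)]) x
  have eQ : ∀ x, Qw (z * a (i + 1)) (z * b (i + 1)) * x * (Qw (z * a (i + 1)) (z * b (i + 1)))⁻¹ =
      Qw (a (i + 1)) (b (i + 1)) * x * (Qw (a (i + 1)) (b (i + 1)))⁻¹ := fun x =>
    ck.conj_lift (by rw [map_Qw, map_Qw, map_mul, map_mul, hz, one_mul, one_mul]) x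
  have eD : Dd (fun i => z * a i) (fun i => z * b i) (fun i => z * t i) i = z * Dd a b t i := by
    unfold Dd
    simp only
    rw [eS, eQ]
    calc (Ss a b t (i + 1))⁻¹ * (Qw (a (i + 1)) (b (i + 1)) * (z * t i) *
          (Qw (a (i + 1)) (b (i + 1)))⁻¹) * Ss a b t (i + 1) =
        (Ss a b t (i + 1))⁻¹ * (Qw (a (i + 1)) (b (i + 1)) * z) * t i *
          (Qw (a (i + 1)) (b (i + 1)))⁻¹ * Ss a b t (i + 1) := by simp only [mul_assoc]
      _ = ((Ss a b t (i + 1))⁻¹ * z) * Qw (a (i + 1)) (b (i + 1)) * t i *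
          (Qw (a (i + 1)) (b (i + 1)))⁻¹ * Ss a b t (i + 1) := by
            rw [← c (Qw (a (i + 1)) (b (i + 1)))]; simp only [mul_assoc]
      _ = _ := by rw [← c]; simp only [mul_assoc]
  have eL : Ll (fun i => z * a i) (fun i => z * b i) (fun i => z * t i) i = Ll a b t i := by
    unfold Ll
    rw [eD]
    have e3 : ∀ x y w : E, z * x * (z * y) * (z * w) = z * z * z * (x * y * w) := by
      intro x y w
      calc z * x * (z * y) * (z * w) = z * (x * z) * y * (z * w) := by simp only [mul_assoc]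
        _ = z * (z * x) * y * (z * w) := by rw [c x]
        _ = z * z * (x * y * z) * w := by simp only [mul_assoc]
        _ = z * z * (z * (x * y)) * w := by rw [c (x * y)]
        _ = _ := by simp only [mul_assoc]
    rw [e3, e3]
    have c3 : ∀ x : E, z * z * z * x = x * (z * z * z) := fun x =>
      (((show Commute z x from c x).mul_left (show Commute z x from c x)).mul_left
        (show Commute z x from c x)).eq
    rw [c3, c3]
    group
  rw [eL]
  calc Ll a b t i * (z * b i) * Ll a b t i = (Ll a b t i * z) * b i * Ll a b t i := by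
        simp only [mul_assoc]
    _ = z * (Ll a b t i * b i * Ll a b t i) := by rw [← c]; simp only [mul_assoc]
    _ = z * (z * (b i * Ll a b t i * b i)) := by rw [hl i hi]
    _ = z * (z * (b i * Ll a b t i)) * b i := by simp only [mul_assoc]
    _ = z * ((b i * Ll a b t i) * z) * b i := by rw [c (b i * Ll a b t i)]
    _ = _ := by simp only [mul_assoc]

end Pool.Agent.Run7.h132.PJ
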