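import Mathlib
import Pool.Agent.Run7.h132.PJ.C

set_option autoImplicit false

/-! Lifts of the pushes and of the boundary twist to a central extension. -/

namespace Pool.Agent.Run7.h132.PJ

open Pool.Agent.H798R3.MG Pool.Agent.TH35.MG

section
variable {G : Type*} [Group G]

theorem dl_a {a x y : G} (h1 : SemiconjBy a y (y * x)) (h2 : SemiconjBy a x x) :
    Commute a (x * y * x⁻¹ * y⁻¹) := by
  have h := ((h2.mul_right h1).mul_right h2.inv_right).mul_right h1.inv_right
  have e : x * (y * x) * x⁻¹ * (y * x)⁻¹ = x * y * x⁻¹ * y⁻¹ := by group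
  rw [e] at h
  exact h

theorem dl_b {b x y : G} (h1 : SemiconjBy b x (x * y⁻¹)) (h2 : SemiconjBy b y y) :
    Commute b (x * y * x⁻¹ * y⁻¹) := by
  have h := ((h1.mul_right h2).mul_right h1.inv_right).mul_right h2.inv_right
  have e : x * y⁻¹ * y * (x * y⁻¹)⁻¹ * y⁻¹ = x * y * x⁻¹ * y⁻¹ := by group
  rw [e] at h
  exact h

theorem rw_x {a b x y : G} (h1 : SemiconjBy a y (y * x)) (h2 : SemiconjBy a x x)
    (h3 : SemiconjBy b x (x * y⁻¹)) : SemiconjBy (Rw a b) x y⁻¹ := by
  have h := h2.mul_right h1.inv_right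
  have e : x * (y * x)⁻¹ = y⁻¹ := by group
  rw [e] at h
  exact (h.mul_left h3).mul_left h2

theorem rw_y {a b x y : G} (h1 : SemiconjBy a y (y * x)) (h2 : SemiconjBy a x x)
    (h3 : SemiconjBy b x (x * y⁻¹)) (h4 : SemiconjBy b y y) :
    SemiconjBy (Rw a b) y (y * x * y⁻¹) := by
  have h5 := h4.mul_right h3
  have h6 := (h1.mul_right (h2.mul_right h1.inv_right))
  have e : y * x * (x * (y * x)⁻¹) = y * x * y⁻¹ := by group
  rw [e] at h6
  exact (h6.mul_left h5).mul_left h1

theorem qw_x {a b x y : G} (h1 : SemiconjBy a y (y * x)) (h2 : SemiconjBy a x x)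
    (h3 : SemiconjBy b x (x * y⁻¹)) (h4 : SemiconjBy b y y) :
    SemiconjBy (Qw a b) x ((x * y * x⁻¹ * y⁻¹)⁻¹ * x * (x * y * x⁻¹ * y⁻¹)) := by
  have r1 := rw_x h1 h2 h3
  have r2 := rw_y h1 h2 h3 h4
  have s1 : SemiconjBy (Rw a b * Rw a b) x (y * x * y⁻¹)⁻¹ := r2.inv_right.mul_left r1
  have s2 : SemiconjBy (Rw a b * Rw a b) y (y * x * y⁻¹ * y⁻¹ * (y * x * y⁻¹)⁻¹) :=
    ((r2.mul_right r1).mul_right r2.inv_right).mul_left r2
  have s3 := (((s2.mul_right s1).mul_right s2.inv_right)).inv_right.mul_left s1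
  have e : (y * x * y⁻¹ * y⁻¹ * (y * x * y⁻¹)⁻¹ * (y * x * y⁻¹)⁻¹ *
      (y * x * y⁻¹ * y⁻¹ * (y * x * y⁻¹)⁻¹)⁻¹)⁻¹ =
      (x * y * x⁻¹ * y⁻¹)⁻¹ * x * (x * y * x⁻¹ * y⁻¹) := by group
  rw [e] at s3
  exact s3

theorem dl_comm {x y : ℕ → G} {i : ℕ} {u : G} (h1 : Commute (x i) u) (h2 : Commute (y i) u) :
    Commute (dl x y i) u :=
  ((h1.mul_left h2).mul_left h1.inv_left).mul_left h2.inv_left

/-- the two forms of the exchange of the pushes -/
theorem relR {S t tau y0 y1 x0 x1 D : G} (hSt : SemiconjBy S t t) (hSy : SemiconjBy S y0 y1)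
    (hSx : SemiconjBy S x0 x1) (hSτ : SemiconjBy S tau tau)
    (h1 : t * y0 * t⁻¹ = y0 * UU D x0 x1 * tau) (h2 : t * y1 * t⁻¹ = y1 * WW D x0 x1 * tau) :
    S * (D * x1 * D⁻¹) * S⁻¹ = D⁻¹ * x0 * D := by
  have e1 := semi_conj ((hSt.mul_right hSy).mul_right hSt.inv_right)
  rw [h1, h2] at e1
  have e2 : S * (y0 * UU D x0 x1 * tau) * S⁻¹ =
      (S * y0 * S⁻¹) * (S * (D * x1 * D⁻¹) * S⁻¹) * (S * x0 * S⁻¹) * (S * tau * S⁻¹) := by
    unfold UU; group
  rw [e2, semi_conj hSy, semi_conj hSx, semi_conj hSτ] at e1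
  have e3 := mul_right_cancel e1
  rw [mul_assoc] at e3
  have e4 := mul_left_cancel e3
  unfold WW at e4
  exact mul_right_cancel e4

end

variable {E Γ : Type*} [Group E] [Group Γ] {π : E →* Γ} {N n : ℕ}
  {A B al be T : ℕ → Γ} {tau : Γ} {a b t x y : ℕ → E} {w : E}

/-- lifts of the pushes -/
structure Lp (π : E →* Γ) (N : ℕ) (A B al be T : ℕ → Γ) (tau : Γ) (a b t x y : ℕ → E) (w : E) :
    Prop extends Lf π N A B T a b t where
  px : ∀ i < N, π (x i) = al i
  py : ∀ i < N, π (y i) = be i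
  pw : π w = tau
  ay : ∀ i < N, SemiconjBy (a i) (y i) (y i * x i)
  bx : ∀ i < N, SemiconjBy (b i) (x i) (x i * (y i)⁻¹)

theorem exists_lp (hπ : Function.Surjective π) (L : Lf π N A B T a b t)
    (r : HRel N A B al be T tau) : ∃ x y w, Lp π N A B al be T tau a b t x y w := by
  obtain ⟨s, hs0⟩ := hπ.hasRightInverse
  have hs : ∀ x, π (s x) = x := hs0
  let x : ℕ → E := fun i => (s (be i))⁻¹ * a i * s (be i) * (a i)⁻¹
  let y : ℕ → E := fun i => b i * (x i)⁻¹ * (b i)⁻¹ * x i
  have ex : ∀ i, x i = (s (be i))⁻¹ * a i * s (be i) * (a i)⁻¹ := fun i => rfl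
  have ey : ∀ i, y i = b i * (x i)⁻¹ * (b i)⁻¹ * x i := fun i => rfl
  have px : ∀ i < N, π (x i) = al i := by
    intro i hi
    rw [ex]
    simp only [map_mul, map_inv, hs, L.pa i hi]
    have h := r.A_be i hi
    calc (be i)⁻¹ * A i * be i * (A i)⁻¹ = (be i)⁻¹ * (A i * be i * (A i)⁻¹) := by group
      _ = _ := by rw [h]; group
  have py : ∀ i < N, π (y i) = be i := by
    intro i hi
    rw [ey]
    simp only [map_mul, map_inv, px i hi, L.pb i hi]
    have h := r.B_al i hi
    calc B i * (al i)⁻¹ * (B i)⁻¹ * al i = (B i * al i * (B i)⁻¹)⁻¹ * al i := by group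
      _ = _ := by rw [h]; group
  refine ⟨x, y, s tau, { L with px := px, py := py, pw := hs tau, ay := ?_, bx := ?_ }⟩
  · intro i hi
    have h := L.ck.conj_lift' (c := y i) (c' := s (be i)) (by rw [py i hi, hs]) (a i)
    show a i * y i = y i * x i * a i
    have e : x i * a i = (y i)⁻¹ * a i * y i := by rw [h, ex]; group
    rw [mul_assoc, e]
    group
  · intro i _
    show b i * x i = x i * (y i)⁻¹ * b i
    rw [ey]
    group

section
variable (L : Lp π N A B al be T tau a b t x y w) (r : HRel N A B al be T tau)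
include L

theorem Lp.x_eq {i : ℕ} (hi : i < N) : x i = (y i)⁻¹ * a i * y i * (a i)⁻¹ := by
  have h := (L.ay i hi).eq
  calc x i = (y i)⁻¹ * (y i * x i * a i) * (a i)⁻¹ := by group
    _ = _ := by rw [← h]; group

theorem Lp.y_eq {i : ℕ} (hi : i < N) : y i = b i * (x i)⁻¹ * (b i)⁻¹ * x i := by
  have h := semi_conj (L.bx i hi)
  calc y i = (x i * (y i)⁻¹)⁻¹ * x i := by group
    _ = _ := by rw [← h]; group

theorem Lp.cx {j : ℕ} (hj : j < N) {u : E} (h1 : Commute (be j) (π u))
    (h2 : Commute (A j) (π u)) : Commute (x j) u := by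
  rw [L.x_eq hj]
  exact L.ck.comm_c1 (by rwa [L.py j hj]) (by rwa [L.pa j hj])

theorem Lp.cy {j : ℕ} (hj : j < N) {u : E} (h1 : Commute (B j) (π u))
    (h2 : Commute (al j) (π u)) : Commute (y j) u := by
  rw [L.y_eq hj]
  exact L.ck.comm_c2 (by rwa [L.pb j hj]) (by rwa [L.px j hj])

theorem Lp.pd {i : ℕ} (hi : i < N) : π (dl x y i) = dl al be i := by
  unfold dl
  simp only [map_mul, map_inv, L.px i hi, L.py i hi]

include r

theorem Lp.xa {i j : ℕ} (hi : i < N) (hj : j < N) (h : i ≠ j) : Commute (x j) (a i) :=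
  L.cx hj (by rw [L.pa i hi]; exact (r.commAbe i hi j hj h).symm)
    (by rw [L.pa i hi]; exact r.commAA j hj i hi)

theorem Lp.xb {i j : ℕ} (hi : i < N) (hj : j < N) (h : i ≠ j) : Commute (x j) (b i) :=
  L.cx hj (by rw [L.pb i hi]; exact (r.commBbe i hi j hj).symm)
    (by rw [L.pb i hi]; exact r.commAB j hj i hi h.symm)

theorem Lp.ya {i j : ℕ} (hi : i < N) (hj : j < N) (h : i ≠ j) : Commute (y j) (a i) :=
  L.cy hj (by rw [L.pa i hi]; exact (r.commAB i hi j hj h).symm)
    (by rw [L.pa i hi]; exact (r.commAal i hi j hj).symm)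

theorem Lp.yb {i j : ℕ} (hi : i < N) (hj : j < N) (h : i ≠ j) : Commute (y j) (b i) :=
  L.cy hj (by rw [L.pb i hi]; exact r.commBB j hj i hi)
    (by rw [L.pb i hi]; exact (r.commBal i hi j hj h).symm)

theorem Lp.xt {i j : ℕ} (hi : i + 1 < N) (hj : j < N) (h1 : j ≠ i) (h2 : j ≠ i + 1) :
    Commute (x j) (t i) :=
  L.cx hj (by rw [L.pt i hi]; exact (r.commTbe i hi j hj h1 h2).symm)
    (by rw [L.pt i hi]; exact (r.commTA i hi j hj).symm)

theorem Lp.yt {i j : ℕ} (hi : i + 1 < N) (hj : j < N) (h1 : j ≠ i) (h2 : j ≠ i + 1) :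
    Commute (y j) (t i) :=
  L.cy hj (by rw [L.pt i hi]; exact (r.commTB i hi j hj h1 h2).symm)
    (by rw [L.pt i hi]; exact (r.commTal i hi j hj h1 h2).symm)

theorem Lp.wup (hN : 3 ≤ N) (j : ℕ) (hj : j < N) :
    Commute (a j) w ∧ Commute (b j) w ∧ (j + 1 < N → Commute (t j) w) := by
  refine L.toLf.up r (m := 0) (by omega) ?_ ?_ ?_ j (by omega) hj <;> intro k _ hk' <;>
    rw [L.pw]
  · exact (r.tauA k hk').symm
  · exact (r.tauB k hk').symm
  · exact (r.tauT k hk').symm

theorem Lp.xw {j : ℕ} (hj : j < N) : Commute (x j) w :=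
  L.cx hj (by rw [L.pw]; exact (r.tauBe j hj).symm) (by rw [L.pw]; exact (r.tauA j hj).symm)

theorem Lp.yw {j : ℕ} (hj : j < N) : Commute (y j) w :=
  L.cy hj (by rw [L.pw]; exact (r.tauB j hj).symm) (by rw [L.pw]; exact (r.tauAl j hj).symm)

/-- the push along `a_i` commutes with the twist about `a_i` -/
theorem Lp.xai {i : ℕ} (hi : i + 4 ≤ N) : Commute (x i) (a i) := by
  have ck := L.ck
  obtain ⟨k, hk⟩ := ck.kr_exists (u := x i) (y := a i) (by
    rw [L.px i (by omega), L.pa i (by omega)]; exact (r.commAal i (by omega) i (by omega)).symm)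
  have hA : Commute (A i) (dl al be i) := dl_a (by
    show A i * be i = be i * al i * A i
    rw [← r.A_be i (by omega)]; group) (r.commAal i (by omega) i (by omega))
  obtain ⟨d, hd⟩ := ck.kr_exists (u := dl x y i) (y := a i) (by
    rw [L.pd (by omega), L.pa i (by omega)]; exact hA.symm)
  have h1 : Kr π (a i) (k * 1) (WW (dl x y i) (x i) (x (i + 1))) :=
    ck.kr_mul (ck.kr_conj' hk hd) (kr_one.2 (L.xa r (by omega) (by omega) (by omega)))
  have cy : Commute (y (i + 1)) (a i) := L.ya r (by omega) (by omega) (by omega)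
  have ct : Commute (t i) (a i) := L.toLf.tai r hi
  have cw : Commute w (a i) := (L.wup r (by omega) i (by omega)).1.symm
  have h2 : Kr π (a i) 1 ((y (i + 1))⁻¹ * (t i * y (i + 1) * (t i)⁻¹) * w⁻¹) :=
    kr_one.2 ((cy.inv_left.mul_left ((ct.mul_left cy).mul_left ct.inv_left)).mul_left cw.inv_left)
  have h3 := ck.kr_lift (u' := WW (dl x y i) (x i) (x (i + 1))) (by
    unfold WW
    simp only [map_mul, map_inv, L.pd (i := i) (by omega), L.px i (by omega),
      L.px (i + 1) (by omega), L.py (i + 1) (by omega), L.pt i (by omega), L.pw]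
    rw [r.T_be_j i (by omega)]
    unfold WW
    group) h2
  have h4 := kr_uniq h1 h3
  rw [mul_one] at h4
  rw [h4] at hk
  exact kr_one.1 hk

theorem Lp.ybi {i : ℕ} (hi : i + 4 ≤ N) : Commute (y i) (b i) := by
  have ck := L.ck
  have c := (L.xai r hi).symm
  have c2 := (Commute.conj_iff (Rw (a i) (b i))).2 c
  have e1 : SemiconjBy (Rw (a i) (b i)) (a i) (b i) := by
    show a i * b i * a i * a i = b i * (a i * b i * a i)
    calc a i * b i * a i * a i = b i * a i * b i * a i := by rw [L.ab i (by omega)]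
      _ = _ := by simp only [mul_assoc]
  rw [semi_conj e1] at c2
  have e2 : SemiconjBy (Rw (A i) (B i)) (al i) (be i)⁻¹ := rw_x (by
    show A i * be i = be i * al i * A i
    rw [← r.A_be i (by omega)]; group) (r.commAal i (by omega) i (by omega)) (by
    show B i * al i = al i * (be i)⁻¹ * B i
    rw [← r.B_al i (by omega)]; group)
  have e3 : π (Rw (a i) (b i) * x i * (Rw (a i) (b i))⁻¹) = π (y i)⁻¹ := by
    simp only [map_mul, map_inv, map_Rw, L.pa i (by omega), L.pb i (by omega),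
      L.px i (by omega), L.py i (by omega)]
    exact semi_conj e2
  have c3 := ck.comm_lift rfl e3 c2
  exact (Commute.inv_right_iff.1 c3).symm

theorem Lp.da {i : ℕ} (hi : i + 4 ≤ N) : Commute (a i) (dl x y i) :=
  dl_a (L.ay i (by omega)) (L.xai r hi).symm

theorem Lp.db {i : ℕ} (hi : i + 4 ≤ N) : Commute (b i) (dl x y i) :=
  dl_b (L.bx i (by omega)) (L.ybi r hi).symm

theorem Lp.sx {i : ℕ} (hi : i + 5 ≤ N) : SemiconjBy (Ss a b t i) (x i) (x (i + 1)) := by
  have g5 := L.toLf.g5 r hi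
  have e1 := semi_conj g5.1
  have h : Ss a b t i * x i * (Ss a b t i)⁻¹ = x (i + 1) := by
    rw [L.x_eq (i := i) (by omega), L.x_eq (i := i + 1) (by omega)]
    have h2 := L.ck.conj_lift' (c := Ss a b t i * y i * (Ss a b t i)⁻¹) (c' := y (i + 1)) (by
      simp only [map_mul, map_inv, L.toLf.pS (i := i) (by omega), L.py i (by omega),
        L.py (i + 1) (by omega)]
      rw [r.sbe i (by omega)]
      group) (a (i + 1))
    rw [← h2, ← e1]
    group
  show Ss a b t i * x i = x (i + 1) * Ss a b t i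
  rw [← h]
  group

theorem Lp.sy {i : ℕ} (hi : i + 5 ≤ N) : SemiconjBy (Ss a b t i) (y i) (y (i + 1)) := by
  have g5 := L.toLf.g5 r hi
  have sx := L.sx r hi
  rw [L.y_eq (i := i) (by omega), L.y_eq (i := i + 1) (by omega)]
  exact ((g5.2.1.mul_right sx.inv_right).mul_right g5.2.1.inv_right).mul_right sx

theorem Lp.sw {i : ℕ} (hi : i + 5 ≤ N) : Commute (Ss a b t i) w :=
  Ss_comm (L.wup r (by omega) i (by omega)).1 (L.wup r (by omega) i (by omega)).2.1
    ((L.wup r (by omega) i (by omega)).2.2 (by omega))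
    (L.wup r (by omega) (i + 1) (by omega)).2.1 (L.wup r (by omega) (i + 1) (by omega)).1

/-- the exchange of the pushes -/
theorem Lp.relE {i : ℕ} (hi : i + 5 ≤ N) :
    Ss a b t i * (dl x y i * x (i + 1) * (dl x y i)⁻¹) * (Ss a b t i)⁻¹ =
      (dl x y i)⁻¹ * x i * dl x y i := by
  have ck := L.ck
  have g5 := L.toLf.g5 r hi
  have cDb' : Commute (dl x y i) (b (i + 1)) :=
    dl_comm (L.xb r (by omega) (by omega) (by omega)) (L.yb r (by omega) (by omega) (by omega))
  have cDa' : Commute (dl x y i) (a (i + 1)) :=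
    dl_comm (L.xa r (by omega) (by omega) (by omega)) (L.ya r (by omega) (by omega) (by omega))
  -- relation below
  have hS : Ss A B T i * (dl al be i * al (i + 1) * (dl al be i)⁻¹) * (Ss A B T i)⁻¹ =
      (dl al be i)⁻¹ * al i * dl al be i := by
    refine relR (t := T i) (tau := tau) (y0 := be i) (y1 := be (i + 1)) ?_ (r.sbe i (by omega))
      (r.sal i (by omega)) ?_ (r.T_be_i i (by omega)) (r.T_be_j i (by omega))
    · have h := g5.2.2.1
      have h' := congrArg π h.eq
      simp only [map_mul, L.toLf.pS (i := i) (by omega), L.pt i (by omega)] at h'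
      exact h'
    · exact (Ss_comm (r.tauA i (by omega)).symm (r.tauB i (by omega)).symm
        (r.tauT i (by omega)).symm (r.tauB (i + 1) (by omega)).symm
        (r.tauA (i + 1) (by omega)).symm)
  -- the two twists
  have w1 : SemiconjBy (Ss a b t i * dl x y i * (y (i + 1))⁻¹) (b (i + 1)) (b i) :=
    (g5.2.2.2.1.mul_left cDb').mul_left (L.ybi r (i := i + 1) (by omega)).inv_left
  have w2 : SemiconjBy ((dl x y i)⁻¹ * (y i)⁻¹) (b i) (b i) :=
    SemiconjBy.mul_left (L.db r (by omega)).symm.inv_left (L.ybi r (by omega)).inv_left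
  have h1 := braid_conj (L.ab (i + 1) (by omega)) (Ss a b t i * dl x y i * (y (i + 1))⁻¹)
  rw [semi_conj w1] at h1
  have h2 := braid_conj (L.ab i (by omega)) ((dl x y i)⁻¹ * (y i)⁻¹)
  rw [semi_conj w2] at h2
  have eX : Ss a b t i * dl x y i * (y (i + 1))⁻¹ * a (i + 1) *
      (Ss a b t i * dl x y i * (y (i + 1))⁻¹)⁻¹ =
      Ss a b t i * (dl x y i * x (i + 1) * (dl x y i)⁻¹) * (Ss a b t i)⁻¹ * a i := by
    calc _ = Ss a b t i * (dl x y i * ((y (i + 1))⁻¹ * a (i + 1) * y (i + 1) * (a (i + 1))⁻¹) *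
          (dl x y i)⁻¹) * (Ss a b t i)⁻¹ *
          (Ss a b t i * (dl x y i * a (i + 1) * (dl x y i)⁻¹) * (Ss a b t i)⁻¹) := by group
      _ = _ := by
        rw [← L.x_eq (i := i + 1) (by omega), semi_conj cDa', semi_conj g5.2.2.2.2]
  have eY : (dl x y i)⁻¹ * (y i)⁻¹ * a i * ((dl x y i)⁻¹ * (y i)⁻¹)⁻¹ =
      (dl x y i)⁻¹ * x i * dl x y i * a i := by
    have hc : (dl x y i)⁻¹ * a i * dl x y i = a i := by
      rw [mul_assoc, (L.da r (by omega)).eq]; group
    calc _ = (dl x y i)⁻¹ * ((y i)⁻¹ * a i * y i * (a i)⁻¹) * dl x y i *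
          ((dl x y i)⁻¹ * a i * dl x y i) := by group
      _ = _ := by rw [← L.x_eq (i := i) (by omega), hc]
  have e : π (Ss a b t i * dl x y i * (y (i + 1))⁻¹ * a (i + 1) *
      (Ss a b t i * dl x y i * (y (i + 1))⁻¹)⁻¹) =
      π ((dl x y i)⁻¹ * (y i)⁻¹ * a i * ((dl x y i)⁻¹ * (y i)⁻¹)⁻¹) := by
    rw [eX, eY, map_mul, map_mul _ _ (a i)]
    congr 1
    simp only [map_mul, map_inv, L.toLf.pS (i := i) (by omega), L.pd (i := i) (by omega),
      L.px i (by omega), L.px (i + 1) (by omega)]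
    exact hS
  have h3 := ck.uniq e h1 h2
  rw [eX, eY] at h3
  exact mul_right_cancel h3

/-- the relation `T_be_i` up to `c` -/
def RelU (a b t x y : ℕ → E) (w c : E) (i : ℕ) : Prop :=
  t i * y i * (t i)⁻¹ = c * (y i * UU (dl x y i) (x i) (x (i + 1)) * w)

/-- the relation `T_be_j` up to `c` -/
def RelW (a b t x y : ℕ → E) (w c : E) (i : ℕ) : Prop :=
  t i * y (i + 1) * (t i)⁻¹ = c * (y (i + 1) * WW (dl x y i) (x i) (x (i + 1)) * w)

theorem Lp.relW {i : ℕ} (hi : i + 5 ≤ N) {c : E} (hc : π c = 1)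
    (h : RelU a b t x y w c i) : RelW a b t x y w c i := by
  have g5 := L.toLf.g5 r hi
  have e1 := semi_conj ((g5.2.2.1.mul_right (L.sy r hi)).mul_right g5.2.2.1.inv_right)
  have e2 := semi_conj (L.sx r hi)
  have e3 := semi_conj (L.sy r hi)
  have e4 := semi_conj (L.sw r hi)
  have e5 := L.relE r hi
  unfold RelU at h
  unfold RelW
  rw [← e1, h]
  calc Ss a b t i * (c * (y i * UU (dl x y i) (x i) (x (i + 1)) * w)) * (Ss a b t i)⁻¹ =
      (Ss a b t i * c) * (y i * UU (dl x y i) (x i) (x (i + 1)) * w) * (Ss a b t i)⁻¹ := by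
        simp only [mul_assoc]
    _ = (c * Ss a b t i) * (y i * UU (dl x y i) (x i) (x (i + 1)) * w) * (Ss a b t i)⁻¹ := by
        rw [L.ck c _ hc]
    _ = c * ((Ss a b t i * y i * (Ss a b t i)⁻¹) *
        ((Ss a b t i * (dl x y i * x (i + 1) * (dl x y i)⁻¹) * (Ss a b t i)⁻¹) *
          (Ss a b t i * x i * (Ss a b t i)⁻¹)) * (Ss a b t i * w * (Ss a b t i)⁻¹)) := by
        unfold UU; group
    _ = _ := by
        rw [e2, e3, e4, e5]
        rfl

theorem Lp.shiftU {i : ℕ} (hi : i + 6 ≤ N) {c : E} (hc : π c = 1)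
    (h : RelU a b t x y w c i) : RelU a b t x y w c (i + 1) := by
  have key : ∀ k, k + 5 ≤ N → SemiconjBy (Pw a b t k) (x k)
      (dl x y k * x (k + 1) * (dl x y k)⁻¹) ∧ SemiconjBy (Pw a b t k) (y k)
      (dl x y k * y (k + 1) * (dl x y k)⁻¹) ∧ SemiconjBy (Pw a b t k) (x (k + 1)) (x k) ∧
      SemiconjBy (Pw a b t k) (y (k + 1)) (y k) := by
    intro k hk
    have s1 : SemiconjBy (Ss a b t k) (dl x y k * x (k + 1) * (dl x y k)⁻¹)
        ((dl x y k)⁻¹ * x k * dl x y k) := by
      show _ * _ = _ * _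
      rw [← L.relE r hk]; group
    have p1 : SemiconjBy (Pw a b t k) (x k) (dl x y k * x (k + 1) * (dl x y k)⁻¹) :=
      s1.inv_symm_left.mul_left (qw_x (L.ay k (by omega)) (L.xai r (by omega)).symm
        (L.bx k (by omega)) (L.ybi r (by omega)).symm)
    have cDb' : Commute (dl x y k) (b (k + 1)) :=
      dl_comm (L.xb r (by omega) (by omega) (by omega)) (L.yb r (by omega) (by omega) (by omega))
    refine ⟨p1, ?_, ?_, ?_⟩
    · have pb := L.toLf.pwb r hk
      have p2 := ((pb.mul_right p1.inv_right).mul_right pb.inv_right).mul_right p1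
      rw [← L.y_eq (i := k) (by omega)] at p2
      have e : b (k + 1) * (dl x y k * x (k + 1) * (dl x y k)⁻¹)⁻¹ * (b (k + 1))⁻¹ *
          (dl x y k * x (k + 1) * (dl x y k)⁻¹) = dl x y k * y (k + 1) * (dl x y k)⁻¹ := by
        have hb : b (k + 1) = dl x y k * b (k + 1) * (dl x y k)⁻¹ := (semi_conj cDb').symm
        rw [L.y_eq (i := k + 1) (by omega)]
        conv_lhs => rw [hb]
        group
      rw [e] at p2
      exact p2
    · exact (L.sx r hk).inv_symm_left.mul_left (Qw_comm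
        (L.xa r (by omega) (by omega) (by omega)).symm
        (L.xb r (by omega) (by omega) (by omega)).symm)
    · exact (L.sy r hk).inv_symm_left.mul_left (Qw_comm
        (L.ya r (by omega) (by omega) (by omega)).symm
        (L.yb r (by omega) (by omega) (by omega)).symm)
  obtain ⟨k1, k2, k3, k4⟩ := key i (by omega)
  obtain ⟨l1, l2, -, -⟩ := key (i + 1) (by omega)
  have cxP : ∀ k j, k + 5 ≤ N → j < N → j ≠ k → j ≠ k + 1 → Commute (Pw a b t k) (x j) := by
    intro k j hk hj h1 h2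
    exact pw_comm (L.xa r (by omega) hj h1.symm).symm (L.xb r (by omega) hj h1.symm).symm
      (L.xt r (by omega) hj h1 h2).symm (L.xb r (by omega) hj h2.symm).symm
      (L.xa r (by omega) hj h2.symm).symm
  have cyP : ∀ k j, k + 5 ≤ N → j < N → j ≠ k → j ≠ k + 1 → Commute (Pw a b t k) (y j) := by
    intro k j hk hj h1 h2
    exact pw_comm (L.ya r (by omega) hj h1.symm).symm (L.yb r (by omega) hj h1.symm).symm
      (L.yt r (by omega) hj h1 h2).symm (L.yb r (by omega) hj h2.symm).symm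
      (L.ya r (by omega) hj h2.symm).symm
  have cwP : ∀ k, k + 5 ≤ N → Commute (Pw a b t k) w := by
    intro k hk
    exact pw_comm (L.wup r (by omega) k (by omega)).1 (L.wup r (by omega) k (by omega)).2.1
      ((L.wup r (by omega) k (by omega)).2.2 (by omega))
      (L.wup r (by omega) (k + 1) (by omega)).2.1 (L.wup r (by omega) (k + 1) (by omega)).1
  have hD : ∀ u : E, SemiconjBy (dl x y i)⁻¹ (dl x y i * u * (dl x y i)⁻¹) u := by
    intro u
    show _ * _ = _ * _
    group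
  set g := (dl x y i)⁻¹ * (Pw a b t i * Pw a b t (i + 1)) with hg
  have gx : SemiconjBy g (x i) (x (i + 1)) :=
    (hD _).mul_left (k1.mul_left (cxP (i + 1) i (by omega) (by omega) (by omega) (by omega)))
  have gy : SemiconjBy g (y i) (y (i + 1)) :=
    (hD _).mul_left (k2.mul_left (cyP (i + 1) i (by omega) (by omega) (by omega) (by omega)))
  have kd : SemiconjBy (Pw a b t i) (dl x y (i + 1)) (dl x y i) :=
    ((k3.mul_right k4).mul_right k3.inv_right).mul_right k4.inv_right
  have gx1 : SemiconjBy g (x (i + 1)) (x (i + 2)) := by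
    have c2 := cxP i (i + 2) (by omega) (by omega) (by omega) (by omega)
    exact (hD _).mul_left (((kd.mul_right c2).mul_right kd.inv_right).mul_left l1)
  have gt : SemiconjBy g (t i) (t (i + 1)) := by
    have c3 : Commute (dl x y i)⁻¹ (t (i + 1)) := (dl_comm
      (L.xt r (i := i + 1) (by omega) (by omega) (by omega) (by omega))
      (L.yt r (i := i + 1) (by omega) (by omega) (by omega) (by omega))).inv_left
    exact SemiconjBy.mul_left c3 (L.toLf.pwt r hi)
  have gw : SemiconjBy g w w :=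
    SemiconjBy.mul_left (dl_comm (L.xw r (by omega)) (L.yw r (by omega))).inv_left
      ((cwP i (by omega)).mul_left (cwP (i + 1) (by omega)))
  have gc : SemiconjBy g c c := (L.ck c g hc).symm
  have gd : SemiconjBy g (dl x y i) (dl x y (i + 1)) :=
    ((gx.mul_right gy).mul_right gx.inv_right).mul_right gy.inv_right
  have e1 := semi_conj ((gt.mul_right gy).mul_right gt.inv_right)
  have e2 := semi_conj (gc.mul_right ((gy.mul_right (((gd.mul_right gx1).mul_right
    gd.inv_right).mul_right gx)).mul_right gw))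
  unfold RelU at h ⊢
  rw [← e1, h]
  exact e2

end

end Pool.Agent.Run7.h132.PJ
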