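import Mathlib
import Pool.Agent.Run7.h132.PJ.D

set_option autoImplicit false

/-! All the relations between the handle elements lift to every central extension. -/

namespace Pool.Agent.Run7.h132.PJ

open Pool.Agent.H798R3.MG Pool.Agent.TH35.MG

theorem tal {G : Type*} [Group G] {t a x y U w : G} (cta : Commute t a)
    (hx : x = y⁻¹ * a * y * a⁻¹) (h : t * y * t⁻¹ = y * U * w) (caU : Commute a U)
    (caw : Commute a w) (cwU : Commute w U) (cwx : Commute w x) :
    t * x * t⁻¹ = U⁻¹ * x * U := by
  have e1 : U * w * a⁻¹ = a⁻¹ * (U * w) := (caU.mul_right caw).inv_left.eq.symm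
  have e2 : x * w = w * x := cwx.eq.symm
  have e3 : U * w = w * U := cwU.eq.symm
  calc t * x * t⁻¹ = (t * y * t⁻¹)⁻¹ * (t * a * t⁻¹) * (t * y * t⁻¹) * (t * a * t⁻¹)⁻¹ := by
        rw [hx]; group
    _ = (y * U * w)⁻¹ * a * (y * U * w) * a⁻¹ := by rw [h, semi_conj cta]
    _ = (U * w)⁻¹ * (y⁻¹ * a * y) * (U * w * a⁻¹) := by group
    _ = (U * w)⁻¹ * (y⁻¹ * a * y * a⁻¹) * (U * w) := by rw [e1]; group
    _ = (w * U)⁻¹ * x * (w * U) := by rw [← hx, e3]
    _ = U⁻¹ * w⁻¹ * (x * w) * U := by group
    _ = _ := by rw [e2]; group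

variable {E Γ : Type*} [Group E] [Group Γ] {π : E →* Γ} {N n : ℕ}
  {A B al be T : ℕ → Γ} {tau : Γ}

/-- The relations between the handle elements lift to every central extension. -/
theorem lift_all (hπ : Function.Surjective π) (ck : CK π) (r : HRel N A B al be T tau)
    (hn : n + 3 ≤ N) : ∃ (a b x y t : ℕ → E) (w : E), HRel n a b x y t w ∧
      (∀ i < n, π (a i) = A i) ∧ (∀ i < n, π (b i) = B i) ∧ (∀ i < n, π (x i) = al i) ∧
      (∀ i < n, π (y i) = be i) ∧ (∀ i, i + 1 < n → π (t i) = T i) ∧ π w = tau := by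
  obtain ⟨a, b, t, L0, hl⟩ := twist_lifts hπ ck r
  obtain ⟨x, y, w, L⟩ := exists_lp hπ L0 r
  have hc : ∃ c : E, π c = 1 ∧ ∀ i, i + 5 ≤ N → RelU a b t x y w c i := by
    rcases Nat.lt_or_ge N 5 with h5 | h5
    · exact ⟨1, map_one _, fun i hi => by omega⟩
    obtain ⟨c, hc, h0⟩ := ck.ex (x := t 0 * y 0 * (t 0)⁻¹)
      (y := y 0 * UU (dl x y 0) (x 0) (x 1) * w) (by
        have h := r.T_be_i 0 (by omega)
        unfold UU at h ⊢
        simp only [map_mul, map_inv, L.pd (i := 0) (by omega), L.px 0 (by omega),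
          L.px 1 (by omega), L.py 0 (by omega), L.pt 0 (by omega), L.pw]
        exact h)
    refine ⟨c, hc, ?_⟩
    intro i
    induction i with
    | zero => intro _; exact h0
    | succ i ih => intro hi; exact L.shiftU r (by omega) hc (ih (by omega))
  obtain ⟨c, hc, hU⟩ := hc
  have L' : Lp π N A B al be T tau a b t x y (c * w) :=
    { L with pw := by rw [map_mul, hc, one_mul, L.pw] }
  have cc : ∀ u, c * u = u * c := fun u => ck c u hc
  have hU' : ∀ i, i + 5 ≤ N → t i * y i * (t i)⁻¹ =
      y i * UU (dl x y i) (x i) (x (i + 1)) * (c * w) := by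
    intro i hi
    have h : t i * y i * (t i)⁻¹ = c * (y i * UU (dl x y i) (x i) (x (i + 1)) * w) := hU i hi
    rw [h]
    calc c * (y i * UU (dl x y i) (x i) (x (i + 1)) * w) =
        (c * (y i * UU (dl x y i) (x i) (x (i + 1)))) * w := by simp only [mul_assoc]
      _ = _ := by rw [cc]; simp only [mul_assoc]
  have hW' : ∀ i, i + 5 ≤ N → t i * y (i + 1) * (t i)⁻¹ =
      y (i + 1) * WW (dl x y i) (x i) (x (i + 1)) * (c * w) := by
    intro i hi
    have h : t i * y (i + 1) * (t i)⁻¹ =
      c * (y (i + 1) * WW (dl x y i) (x i) (x (i + 1)) * w) := L.relW r hi hc (hU i hi)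
    rw [h]
    calc c * (y (i + 1) * WW (dl x y i) (x i) (x (i + 1)) * w) =
        (c * (y (i + 1) * WW (dl x y i) (x i) (x (i + 1)))) * w := by simp only [mul_assoc]
      _ = _ := by rw [cc]; simp only [mul_assoc]
  refine ⟨a, b, x, y, t, c * w, ?_, fun i hi => L.pa i (by omega), fun i hi => L.pb i (by omega),
    fun i hi => L.px i (by omega), fun i hi => L.py i (by omega),
    fun i hi => L.pt i (by omega), L'.pw⟩
  have hxx : ∀ i, i + 5 ≤ N → t i * x i * (t i)⁻¹ =
      (UU (dl x y i) (x i) (x (i + 1)))⁻¹ * x i * UU (dl x y i) (x i) (x (i + 1)) := by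
    intro i hi
    have c1 : Commute (a i) (UU (dl x y i) (x i) (x (i + 1))) :=
      (((L.da r (by omega)).mul_right (L.xa r (by omega) (by omega) (by omega)).symm).mul_right
        (L.da r (by omega)).inv_right).mul_right (L.xai r (by omega)).symm
    have c2 : Commute (c * w) (dl x y i) :=
      (dl_comm (L'.xw r (by omega)) (L'.yw r (by omega))).symm
    have c3 : Commute (c * w) (UU (dl x y i) (x i) (x (i + 1))) :=
      ((c2.mul_right (L'.xw r (by omega)).symm).mul_right c2.inv_right).mul_right
        (L'.xw r (by omega)).symm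
    exact tal (L0.tai r (by omega)) (L.x_eq (i := i) (by omega)) (hU' i hi) c1
      (L'.wup r (by omega) i (by omega)).1 c3 (L'.xw r (by omega)).symm
  have hxy : ∀ i, i + 5 ≤ N → t i * x (i + 1) * (t i)⁻¹ =
      (WW (dl x y i) (x i) (x (i + 1)))⁻¹ * x (i + 1) * WW (dl x y i) (x i) (x (i + 1)) := by
    intro i hi
    have c0 : Commute (a (i + 1)) (dl x y i) := (dl_comm
      (L.xa r (by omega) (by omega) (by omega)) (L.ya r (by omega) (by omega) (by omega))).symm
    have c1 : Commute (a (i + 1)) (WW (dl x y i) (x i) (x (i + 1))) :=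
      ((c0.inv_right.mul_right (L.xa r (by omega) (by omega) (by omega)).symm).mul_right
        c0).mul_right (L.xai r (by omega)).symm
    have c2 : Commute (c * w) (dl x y i) :=
      (dl_comm (L'.xw r (by omega)) (L'.yw r (by omega))).symm
    have c3 : Commute (c * w) (WW (dl x y i) (x i) (x (i + 1))) :=
      ((c2.inv_right.mul_right (L'.xw r (by omega)).symm).mul_right c2).mul_right
        (L'.xw r (by omega)).symm
    exact tal (L0.taj r hi) (L.x_eq (i := i + 1) (by omega)) (hW' i hi) c1
      (L'.wup r (by omega) (i + 1) (by omega)).1 c3 (L'.xw r (by omega)).symm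
  exact
  { braidAB := fun i hi => L.ab i (by omega)
    commAA := fun i hi j hj => L0.caa r (by omega) (by omega)
    commAB := fun i hi j hj hij => L0.cab r (by omega) (by omega) hij
    commBB := fun i hi j hj => L0.cbb r (by omega) (by omega)
    commAal := fun i hi j hj => by
      rcases eq_or_ne i j with h | h
      · rw [h]; exact (L.xai r (by omega)).symm
      · exact (L.xa r (by omega) (by omega) h).symm
    commAbe := fun i hi j hj h => (L.ya r (by omega) (by omega) h).symm
    commBal := fun i hi j hj h => (L.xb r (by omega) (by omega) h).symm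
    commBbe := fun i hi j hj => by
      rcases eq_or_ne i j with h | h
      · rw [h]; exact (L.ybi r (by omega)).symm
      · exact (L.yb r (by omega) (by omega) h).symm
    A_be := fun i hi => semi_conj (L.ay i (by omega))
    B_al := fun i hi => semi_conj (L.bx i (by omega))
    commTA := fun i hi m hm => L0.cta r (by omega) (by omega)
    commTB := fun i hi m hm h1 h2 => L0.ctb r (by omega) (by omega) h1 h2
    commTal := fun i hi m hm h1 h2 => (L.xt r (by omega) (by omega) h1 h2).symm
    commTbe := fun i hi m hm h1 h2 => (L.yt r (by omega) (by omega) h1 h2).symm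
    braidTBi := fun i hi => L.tb i (by omega)
    braidTBj := fun i hi => L.tb' i (by omega)
    T_al_i := fun i hi => hxx i (by omega)
    T_be_i := fun i hi => hU' i (by omega)
    T_al_j := fun i hi => hxy i (by omega)
    T_be_j := fun i hi => hW' i (by omega)
    commTT := fun i j hij hj => L0.ctt r (by omega) hij
    sA := fun i hi => (L0.g5 r (i := i) (by omega)).1.eq
    sA' := fun i hi => (L0.g5 r (i := i) (by omega)).2.2.2.2.eq
    sB := fun i hi => (L0.g5 r (i := i) (by omega)).2.1.eq
    sB' := fun i hi => (L0.g5 r (i := i) (by omega)).2.2.2.1.eq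
    sal := fun i hi => (L.sx r (by omega)).eq
    sbe := fun i hi => (L.sy r (by omega)).eq
    dd2 := fun i hi => L0.dd r (by omega)
    lantern := fun i hi => hl i (by omega)
    tauA := fun i hi => (L'.wup r (by omega) i (by omega)).1.symm
    tauB := fun i hi => (L'.wup r (by omega) i (by omega)).2.1.symm
    tauAl := fun i hi => (L'.xw r (by omega)).symm
    tauBe := fun i hi => (L'.yw r (by omega)).symm
    tauT := fun i hi => ((L'.wup r (by omega) i (by omega)).2.2 (by omega)).symm }

end Pool.Agent.Run7.h132.PJ
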