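import Mathlib
import Pool.Agent.TH35.MG.Rk
import Pool.Agent.TH35.MG.Low
import Pool.Agent.Run7.h132.PJ.E

set_option autoImplicit false

/-! Representations of central extensions of groups with handle elements. -/

namespace Pool.Agent.Run7.h132.PJ

open Pool.Agent.H798R3.MG Pool.Agent.TH35.MG Module

universe u

theorem dserMap {G H : Type*} [Group G] [Group H] (φ : G →* H) (P : Subgroup G) (k : ℕ) :
    dser (P.map φ) k = (dser P k).map φ := by
  induction k with
  | zero => rfl
  | succ k ih =>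
    show ⁅dser (P.map φ) k, dser (P.map φ) k⁆ = (⁅dser P k, dser P k⁆).map φ
    rw [ih, Subgroup.map_commutator]

theorem dser_mono {G : Type*} [Group G] {P Q : Subgroup G} (h : P ≤ Q) (k : ℕ) :
    dser P k ≤ dser Q k := by
  induction k with
  | zero => exact h
  | succ k ih => exact Subgroup.commutator_mono ih ih

/-- the relations inside the subgroup generated by the handle elements -/
theorem to_sub {G : Type*} [Group G] {n : ℕ} {A B al be T : ℕ → G} {tau : G}
    (r : HRel n A B al be T tau) : ∃ (H : Subgroup G) (A' B' al' be' T' : ℕ → H) (tau' : H),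
      HRel n A' B' al' be' T' tau' ∧ Subgroup.closure (allH n A' B' al' be' T' tau') = ⊤ ∧
      (∀ i < n, (A' i : G) = A i) ∧ (∀ i < n, (al' i : G) = al i) ∧
      (∀ i < n, (be' i : G) = be i) ∧ (tau' : G) = tau := by
  classical
  let H : Subgroup G := Subgroup.closure (allH n A B al be T tau)
  have hmem : ∀ x ∈ allH n A B al be T tau, x ∈ H := fun x hx => Subgroup.subset_closure hx
  let L : G → H := fun x => if h : x ∈ H then ⟨x, h⟩ else 1
  have hL : ∀ x ∈ H, (L x : G) = x := by
    intro x hx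
    simp only [L]
    rw [dif_pos hx]
  have mA : ∀ i < n, A i ∈ H := fun i hi => hmem _ (Or.inl ⟨i, hi, Or.inl rfl⟩)
  have mB : ∀ i < n, B i ∈ H := fun i hi => hmem _ (Or.inl ⟨i, hi, Or.inr (Or.inl rfl)⟩)
  have mal : ∀ i < n, al i ∈ H :=
    fun i hi => hmem _ (Or.inl ⟨i, hi, Or.inr (Or.inr (Or.inl rfl))⟩)
  have mbe : ∀ i < n, be i ∈ H :=
    fun i hi => hmem _ (Or.inl ⟨i, hi, Or.inr (Or.inr (Or.inr rfl))⟩)
  have mT : ∀ i, i + 1 < n → T i ∈ H := fun i hi => hmem _ (Or.inr (Or.inl ⟨i, hi, rfl⟩))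
  have mtau : tau ∈ H := hmem _ (Or.inr (Or.inr rfl))
  have hrel' : HRel n (fun i => L (A i)) (fun i => L (B i)) (fun i => L (al i))
      (fun i => L (be i)) (fun i => L (T i)) (L tau) := by
    refine HRel.pull H.subtype H.subtype_injective ?_
    exact (r.congr (fun i hi => hL _ (mA i hi)) (fun i hi => hL _ (mB i hi))
      (fun i hi => hL _ (mal i hi)) (fun i hi => hL _ (mbe i hi))
      (fun i hi => hL _ (mT i hi))).tau_eq (hL _ mtau)
  have hgen : Subgroup.closure (allH n (fun i => L (A i)) (fun i => L (B i))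
      (fun i => L (al i)) (fun i => L (be i)) (fun i => L (T i)) (L tau)) = ⊤ := by
    have h1 : (Subgroup.closure (((↑) : H → G) ⁻¹' allH n A B al be T tau)) = ⊤ :=
      Subgroup.closure_closure_coe_preimage
    rw [eq_top_iff, ← h1, Subgroup.closure_le]
    intro x hx
    apply Subgroup.subset_closure
    have hx' : (x : G) ∈ allH n A B al be T tau := hx
    have key : ∀ y, (x : G) = y → x = L y := by
      intro y hy
      apply Subtype.ext
      rw [← hy, hL _ x.2]
    rcases hx' with ⟨i, hi, h | h | h | h⟩ | ⟨i, hi, h⟩ | h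
    · exact Or.inl ⟨i, hi, Or.inl (key _ h)⟩
    · exact Or.inl ⟨i, hi, Or.inr (Or.inl (key _ h))⟩
    · exact Or.inl ⟨i, hi, Or.inr (Or.inr (Or.inl (key _ h)))⟩
    · exact Or.inl ⟨i, hi, Or.inr (Or.inr (Or.inr (key _ h)))⟩
    · exact Or.inr (Or.inl ⟨i, hi, key _ h⟩)
    · exact Or.inr (Or.inr (key _ h))
  exact ⟨H, _, _, _, _, _, _, hrel', hgen, fun i hi => hL _ (mA i hi),
    fun i hi => hL _ (mal i hi), fun i hi => hL _ (mbe i hi), hL _ mtau⟩

/-- the rank of `ρ e - ζ` for a lift `e` does not depend on the lift and on conjugation -/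
theorem rank_conj {K V : Type*} [Field K] [AddCommGroup V] [Module K V] [FiniteDimensional K V]
    {E : Type*} [Group E] (ρ : E →* Module.End K V) (e w : E) (ζ : K) :
    finrank K (LinearMap.range (ρ (w * e * w⁻¹) - ζ • (1 : Module.End K V))) ≤
      finrank K (LinearMap.range (ρ e - ζ • (1 : Module.End K V))) := by
  have h1 : ρ w * ρ w⁻¹ = 1 := by rw [← map_mul, mul_inv_cancel, map_one]
  have h2 : ρ (w * e * w⁻¹) - ζ • (1 : Module.End K V) =
      ρ w * (ρ e - ζ • (1 : Module.End K V)) * ρ w⁻¹ := by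
    rw [mul_sub, sub_mul, map_mul, map_mul, mul_smul_comm, mul_one, smul_mul_assoc, h1]
  rw [h2]
  have h3 : LinearMap.range (ρ w * (ρ e - ζ • (1 : Module.End K V)) * ρ w⁻¹) ≤
      (LinearMap.range (ρ e - ζ • (1 : Module.End K V))).map (ρ w) := by
    rintro _ ⟨v, rfl⟩
    exact ⟨(ρ e - ζ • (1 : Module.End K V)) (ρ w⁻¹ v), ⟨_, rfl⟩, rfl⟩
  exact (Submodule.finrank_mono h3).trans (Submodule.finrank_map_le _ _)

/-- A representation of a central extension in small dimension, or with a twist close to a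
scalar: the elements deep in the derived series of the pushes have lifts acting trivially. -/
theorem core {E Γ : Type*} [Group E] [Group Γ] {π : E →* Γ} {N n : ℕ}
    {A B al be T : ℕ → Γ} {tau : Γ} (hπ : Function.Surjective π) (ck : CK π)
    (r : HRel N A B al be T tau) (hn : n + 3 ≤ N) (h2 : 2 ≤ n)
    {K : Type u} [Field K] [IsAlgClosed K] {V : Type u} [AddCommGroup V] [Module K V]
    [FiniteDimensional K V] (ρ : E →* Module.End K V)
    (h : finrank K V < 2 ^ (n - 2) ∨ (3 ≤ n ∧
      (∀ z, π z = 1 → ∃ c : K, ρ z = c • (1 : Module.End K V)) ∧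
      ∃ (e : E) (ζ : K), π e = A 0 ∧
        finrank K (LinearMap.range (ρ e - ζ • (1 : Module.End K V))) < 2 ^ (n - 3))) :
    ∀ x ∈ dser (PiT n al be tau) (finrank K V), ∃ e, π e = x ∧ ρ e = 1 := by
  obtain ⟨a, b, x, y, t, w, r', pa, -, px, py, -, pw⟩ := lift_all hπ ck r hn
  obtain ⟨H, a', b', x', y', t', w', r2, hgen, ha, hx, hy, hw⟩ := to_sub r'
  have hpz : PZ n a' (ρ.comp H.subtype) := by
    rcases h with h | ⟨h3, hcen, e, ζ, he, hr⟩
    · exact hlev_dim r2 h2 _ h
    · obtain ⟨u, hu⟩ := conj_A r' (n - 1) (by omega)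
      obtain ⟨z, hz, hze⟩ := ck.ex (x := a 0) (y := e) (by rw [pa 0 (by omega), he])
      obtain ⟨c, hc⟩ := hcen z hz
      refine pz_of_rank r2 h3 (ρ.comp H.subtype) (c * ζ) ?_
      have e1 : (ρ.comp H.subtype) (a' (n - 1)) = ρ (u * a 0 * u⁻¹) := by
        rw [MonoidHom.comp_apply, ← hu]
        exact congrArg ρ (ha (n - 1) (by omega))
      rw [e1]
      refine lt_of_le_of_lt (rank_conj ρ (a 0) u (c * ζ)) (lt_of_le_of_lt ?_ hr)
      have e2 : ρ (a 0) - (c * ζ) • (1 : Module.End K V) = c • (ρ e - ζ • (1 : Module.End K V)) := by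
        rw [hze, map_mul, hc, smul_mul_assoc, one_mul, smul_sub, smul_smul]
      rw [e2]
      refine Submodule.finrank_mono ?_
      rintro _ ⟨v, rfl⟩
      exact ⟨c • v, by rw [map_smul]; rfl⟩
  have hs := solvable_pz r2 h2 hgen (finrank K V) V (ρ.comp H.subtype) hpz le_rfl
  intro z hz
  have h3 : PiT n al be tau ≤ (PiT n x' y' w').map (π.comp H.subtype) := by
    unfold PiT
    rw [Subgroup.closure_le]
    rintro _ ((⟨i, hi, rfl⟩ | ⟨i, hi, rfl⟩) | rfl)
    · refine ⟨x' i, Subgroup.subset_closure (Or.inl (Or.inl ⟨i, hi, rfl⟩)), ?_⟩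
      rw [MonoidHom.comp_apply, ← px i hi]
      exact congrArg π (hx i hi)
    · refine ⟨y' i, Subgroup.subset_closure (Or.inl (Or.inr ⟨i, hi, rfl⟩)), ?_⟩
      rw [MonoidHom.comp_apply, ← py i hi]
      exact congrArg π (hy i hi)
    · refine ⟨w', Subgroup.subset_closure (Or.inr rfl), ?_⟩
      rw [MonoidHom.comp_apply, ← pw]
      exact congrArg π hw
  have h4 := dser_mono h3 (finrank K V) hz
  rw [dserMap] at h4
  obtain ⟨e, he, rfl⟩ := h4
  exact ⟨e, rfl, MonoidHom.mem_ker.1 (hs he)⟩

/-- In small dimension a lift of the twist is unipotent. -/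
theorem core_unip {E Γ : Type*} [Group E] [Group Γ] {π : E →* Γ} {N m : ℕ}
    {A B al be T : ℕ → Γ} {tau : Γ} (hπ : Function.Surjective π) (ck : CK π)
    (r : HRel N A B al be T tau) (hn : m + 5 ≤ N)
    {K : Type u} [Field K] [IsAlgClosed K] {V : Type u} [AddCommGroup V] [Module K V]
    [FiniteDimensional K V] (ρ : E →* Module.End K V) (h : finrank K V < 2 ^ m) :
    ∃ e : E, π e = A 0 ∧ (ρ e - 1) ^ m = 0 := by
  obtain ⟨a, b, x, y, t, w, r', pa, -⟩ := lift_all (n := m + 2) hπ ck r (by omega)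
  refine ⟨a 0, pa 0 (by omega), ?_⟩
  rcases Nat.eq_zero_or_pos m with rfl | hm
  · rw [pow_zero] at h ⊢
    have h0 : finrank K V = 0 := by omega
    have : Subsingleton V := finrank_zero_iff.1 h0
    exact LinearMap.ext fun v => Subsingleton.elim _ _
  · have h3 := unip_zero (N := m + 2) r' (by omega) ρ (by
      intro l hnd hl
      refine hlev_two r' ρ l hnd hl ?_
      have hlen : l.length = m := by
        have e1 : l.toFinset = Finset.Ico 2 (m + 2) := by
          ext i
          rw [List.mem_toFinset, hl, Finset.mem_Ico]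
        have e2 := List.toFinset_card_of_nodup hnd
        rw [e1, Nat.card_Ico] at e2
        omega
      rw [hlen]
      exact h)
    exact h3

end Pool.Agent.Run7.h132.PJ
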