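import Mathlib
import Pool.Agent.TH35.MG.Thm
import Pool.Agent.Run7.h132.PJ.F

set_option autoImplicit false

/-! Central extensions and projective representations of the mapping class group. -/

namespace Pool.Agent.Run7.h132.PJ

open Pool.Agent.H798R3.MG Pool.Agent.TH35.MG Pool.Agent.H29R2.MG Pool.Agent.H29R2.QD
  Pool.Agent.Helper950.BG Module

universe u v

section pullback
variable {Γ G E0 : Type*} [Group Γ] [Group G] [Group E0] (φ : Γ →* G) (π0 : E0 →* G)

/-- the pull-back of `π0` along `φ` -/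
def PB : Subgroup (Γ × E0) :=
  (φ.comp (MonoidHom.fst Γ E0)).eqLocus (π0.comp (MonoidHom.snd Γ E0))

/-- first projection -/
def pb1 : PB φ π0 →* Γ := (MonoidHom.fst Γ E0).comp (PB φ π0).subtype

/-- second projection -/
def pb2 : PB φ π0 →* E0 := (MonoidHom.snd Γ E0).comp (PB φ π0).subtype

theorem pb_eq (e : PB φ π0) : π0 (pb2 φ π0 e) = φ (pb1 φ π0 e) := e.2.symm

theorem pb1_surj (hs : Function.Surjective π0) : Function.Surjective (pb1 φ π0) := by
  intro x
  obtain ⟨e, he⟩ := hs (φ x)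
  exact ⟨⟨(x, e), he.symm⟩, rfl⟩

theorem pb1_ck (hc : π0.ker ≤ Subgroup.center E0) : CK (pb1 φ π0) := by
  intro z x hz
  have h1 : π0 (pb2 φ π0 z) = 1 := by rw [pb_eq, hz, map_one]
  have h2 := Subgroup.mem_center_iff.1 (hc (MonoidHom.mem_ker.2 h1)) (pb2 φ π0 x)
  apply Subtype.ext
  apply Prod.ext
  · show pb1 φ π0 z * pb1 φ π0 x = pb1 φ π0 x * pb1 φ π0 z
    rw [hz, one_mul, mul_one]
  · exact h2.symm

end pullback

/-- the handle elements below `Mod_g` -/
theorem handles {g : ℕ} (hg : 8 ≤ g) :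
    ∃ (Γ : Subgroup (orSub g)) (A B al be T : ℕ → Γ) (tau : Γ),
      HRel (g - 3) A B al be T tau ∧ (∀ i < g - 3, (A i : orSub g) = sA g i) ∧
      ∀ k, ∃ x ∈ dser (PiT (g - 6) al be tau) k, modF g (x : orSub g) ≠ 1 := by
  obtain ⟨Γ, A, B, al, be, T, tau, r, -, hA, -, eal, -, -⟩ :=
    setup (g := g) (N := g - 3) (by omega) (by omega)
  have c : Ctx g (g - 3) (g - 3 + 2) := ⟨by omega, le_refl _, by omega⟩
  have hok : ∀ i < 2, OrOK g (hal g (g - 3 + 2) i) (hal' g (g - 3 + 2) i) := by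
    intro i hi
    exact ((whyp.k g (g - 3) (g - 3 + 2) c.h2 c.hN c.hg).1 i (by omega)).2.2.1
  refine ⟨Γ, A, B, al, be, T, tau, r, hA, ?_⟩
  intro k
  obtain ⟨x, hx, h2⟩ := t_N g (g - 3 + 2) (by omega) c.hg hok Γ.subtype
    (PiT (g - 6) al be tau) (al 0) (al 1)
    (Subgroup.subset_closure (Or.inl (Or.inl ⟨0, by omega, rfl⟩)))
    (Subgroup.subset_closure (Or.inl (Or.inl ⟨1, by omega, rfl⟩)))
    (eal 0 (by omega)) (eal 1 (by omega)) k
  exact ⟨x, hx, fun h => h2 (modF_ker h)⟩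

theorem dserAdd {G : Type*} [Group G] (P : Subgroup G) (k n : ℕ) :
    dser (dser P k) n = dser P (k + n) := by
  induction n with
  | zero => rfl
  | succ n ih =>
    show ⁅dser (dser P k) n, dser (dser P k) n⁆ = ⁅dser P (k + n), dser P (k + n)⁆
    rw [ih]

theorem notSolv {G : Type*} [Group G] (P : Subgroup G) (h : ∀ k, ∃ x ∈ dser P k, x ≠ 1) :
    ¬ Group.IsSolvable P := by
  rintro ⟨n, hn⟩
  obtain ⟨x, h1, h2⟩ := h n
  rw [← dser_sub, hn, Subgroup.map_bot] at h1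
  exact h2 (Subgroup.mem_bot.1 h1)

/-- A subgroup of `Mod_g` which is not solvable, whose elements have lifts acting trivially in all
representations of dimension `< 2 ^ (g - 8)` of all central extensions. -/
theorem central_kernel {g : ℕ} (hg : 8 ≤ g) : ∃ Q : Subgroup (Mod g), ¬ Group.IsSolvable Q ∧
    ∀ (E0 : Type v) [Group E0] (π0 : E0 →* Mod g), Function.Surjective π0 →
      π0.ker ≤ Subgroup.center E0 → ∀ (K : Type u) [Field K] (d : ℕ)
      (ρ0 : E0 →* Matrix.GeneralLinearGroup (Fin d) K), d < 2 ^ (g - 8) →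
      ∀ x ∈ Q, ∃ e, π0 e = x ∧ ρ0 e = 1 := by
  obtain ⟨Γ, A, B, al, be, T, tau, r, -, hx⟩ := handles hg
  set φ : Γ →* Mod g := (modF g).comp Γ.subtype with hφ
  have hxx : ∀ k, ∃ x ∈ dser ((PiT (g - 6) al be tau).map φ) k, x ≠ 1 := by
    intro k
    obtain ⟨x, h1, h2⟩ := hx k
    refine ⟨φ x, ?_, h2⟩
    rw [dserMap]
    exact Subgroup.mem_map_of_mem φ h1
  refine ⟨dser ((PiT (g - 6) al be tau).map φ) (2 ^ (g - 8)), notSolv _ ?_, ?_⟩
  · intro k
    rw [dserAdd]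
    exact hxx _
  · intro E0 _ π0 hs hc K _ d ρ0 hd x hxQ
    rw [dserMap] at hxQ
    obtain ⟨y, hy, rfl⟩ := hxQ
    obtain ⟨e, he, h1⟩ := core (n := g - 6) (pb1_surj φ π0 hs) (pb1_ck φ π0 hc) r (by omega)
      (by omega) (K := AlgebraicClosure K) (V := Fin d → AlgebraicClosure K)
      (((glEnd d K).comp ρ0).comp (pb2 φ π0)) (Or.inl (by
        rw [show g - 6 - 2 = g - 8 by omega]
        simpa using hd)) y (T5.dser_anti _ (by simpa using hd.le) hy)
    refine ⟨pb2 φ π0 e, by rw [pb_eq, he], ?_⟩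
    apply glEnd_inj d K
    rw [map_one]
    exact h1

/-- the pull-back of `GL_d → PGL_d` along `f` -/
theorem pgl_ext {G : Type v} [Group G] {K : Type u} [Field K] {d : ℕ}
    (f : G →* Matrix.ProjGenLinGroup (Fin d) K) :
    Function.Surjective (pb1 f Matrix.ProjGenLinGroup.mk) ∧
      (pb1 f Matrix.ProjGenLinGroup.mk).ker ≤ Subgroup.center _ := by
  refine ⟨pb1_surj _ _ Matrix.ProjGenLinGroup.mk_surjective, ?_⟩
  intro z hz
  rw [Subgroup.mem_center_iff]
  intro x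
  exact (pb1_ck f Matrix.ProjGenLinGroup.mk (le_of_eq Matrix.ProjGenLinGroup.ker_mk) z x hz).symm

/-- A nontrivial lower bound for the rank. -/
theorem rank_bound {g : ℕ} (hg : 9 ≤ g) {T : Mod g} (hT : IsTwist g T) {K : Type u} [Field K]
    {d : ℕ} (f : Mod g →* Matrix.ProjGenLinGroup (Fin d) K) (hf : Function.Injective f)
    (M : Matrix.GeneralLinearGroup (Fin d) K) (hM : Matrix.ProjGenLinGroup.mk M = f T) (ζ : K) :
    2 ^ (g - 9) ≤
      ((M : Matrix (Fin d) (Fin d) K) - ζ • (1 : Matrix (Fin d) (Fin d) K)).rank := by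
  by_contra hcon
  push Not at hcon
  obtain ⟨Γ, A, B, al, be, T', tau, r, hA, hx⟩ := handles (g := g) (by omega)
  set φ : Γ →* Mod g := (modF g).comp Γ.subtype with hφ
  set π0 := pb1 f Matrix.ProjGenLinGroup.mk with hπ0
  obtain ⟨hs, hc⟩ := pgl_ext f
  obtain ⟨x, hxd, hx1⟩ := hx d
  have eT : φ (A 0) = T := by
    rw [twist_eq (by omega) T hT]
    show modF g (A 0 : orSub g) = _
    rw [hA 0 (by omega)]
  let e0 : PB f Matrix.ProjGenLinGroup.mk := ⟨(T, M), hM.symm⟩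
  let e1 : PB φ π0 := ⟨(A 0, e0), eT⟩
  set ρ : PB φ π0 →* Module.End (AlgebraicClosure K) (Fin d → AlgebraicClosure K) :=
    ((glEnd d K).comp (pb2 f Matrix.ProjGenLinGroup.mk)).comp (pb2 φ π0) with hρ
  have hcen : ∀ z, pb1 φ π0 z = 1 → ∃ c : AlgebraicClosure K, ρ z = c • (1 : Module.End _ _) := by
    intro z hz
    have h2 : π0 (pb2 φ π0 z) = 1 := by rw [pb_eq, hz, map_one]
    have h3 := pb_eq f Matrix.ProjGenLinGroup.mk (pb2 φ π0 z)
    have h4 : pb1 f Matrix.ProjGenLinGroup.mk (pb2 φ π0 z) = 1 := h2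
    rw [h4, map_one, Matrix.ProjGenLinGroup.mk_eq_one,
      Matrix.GeneralLinearGroup.mem_center_iff_val_mem_range_scalar] at h3
    obtain ⟨c, hc⟩ := h3
    refine ⟨algebraMap K _ c, ?_⟩
    show glEnd d K (pb2 f Matrix.ProjGenLinGroup.mk (pb2 φ π0 z)) = _
    rw [← phi'_gl, ← hc, Matrix.scalar_apply, ← Matrix.smul_one_eq_diagonal, phi'_smul, map_one]
  have hrk : finrank (AlgebraicClosure K) (LinearMap.range (ρ e1 -
      algebraMap K (AlgebraicClosure K) ζ • (1 : Module.End _ (Fin d → AlgebraicClosure K)))) <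
      2 ^ (g - 6 - 3) := by
    refine lt_of_le_of_lt ?_ (lt_of_lt_of_eq hcon (by rw [show g - 6 - 3 = g - 9 by omega]))
    have e2 : ρ e1 -
        algebraMap K (AlgebraicClosure K) ζ • (1 : Module.End _ (Fin d → AlgebraicClosure K)) =
        phi' d K ((M : Matrix (Fin d) (Fin d) K) - ζ • (1 : Matrix (Fin d) (Fin d) K)) := by
      rw [map_sub, phi'_smul, map_one, phi'_gl]
      rfl
    rw [e2]
    exact TH35.MG.rank_le d K _
  obtain ⟨e, he, h1⟩ := core (n := g - 6) (pb1_surj φ π0 hs) (pb1_ck φ π0 hc) r (by omega)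
    (by omega) ρ (Or.inr ⟨by omega, hcen, e1, algebraMap K _ ζ, rfl, hrk⟩) x (by simpa using hxd)
  have h2 : pb2 f Matrix.ProjGenLinGroup.mk (pb2 φ π0 e) = 1 := by
    apply glEnd_inj d K
    rw [map_one]
    exact h1
  have h3 := pb_eq f Matrix.ProjGenLinGroup.mk (pb2 φ π0 e)
  rw [h2, map_one] at h3
  have h4 : π0 (pb2 φ π0 e) = φ e.1.1 := pb_eq φ π0 e
  have h5 : φ x = 1 := by
    rw [← he]
    apply hf
    rw [map_one]
    exact (congrArg f h4).symm.trans h3.symm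
  exact hx1 h5

/-- In small dimension the twist has a unipotent lift. -/
theorem pgl_unip {g m : ℕ} (hg : m + 8 ≤ g) {T : Mod g} (hT : IsTwist g T) {K : Type u} [Field K]
    {d : ℕ} (hd : d < 2 ^ m) (f : Mod g →* Matrix.ProjGenLinGroup (Fin d) K) :
    ∃ M : Matrix.GeneralLinearGroup (Fin d) K, Matrix.ProjGenLinGroup.mk M = f T ∧
      ((M : Matrix (Fin d) (Fin d) K) - 1) ^ m = 0 := by
  obtain ⟨Γ, A, B, al, be, T', tau, r, hA, -⟩ := handles (g := g) (by omega)
  set φ : Γ →* Mod g := (modF g).comp Γ.subtype with hφ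
  set π0 := pb1 f Matrix.ProjGenLinGroup.mk with hπ0
  obtain ⟨hs, hc⟩ := pgl_ext f
  have eT : φ (A 0) = T := by
    rw [twist_eq (by omega) T hT]
    show modF g (A 0 : orSub g) = _
    rw [hA 0 (by omega)]
  obtain ⟨e, he, h1⟩ := core_unip (m := m) (pb1_surj φ π0 hs) (pb1_ck φ π0 hc) r (by omega)
    (K := AlgebraicClosure K) (V := Fin d → AlgebraicClosure K)
    (((glEnd d K).comp (pb2 f Matrix.ProjGenLinGroup.mk)).comp (pb2 φ π0)) (by simpa using hd)
  refine ⟨pb2 f Matrix.ProjGenLinGroup.mk (pb2 φ π0 e), ?_, ?_⟩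
  · rw [pb_eq]
    have h4 : π0 (pb2 φ π0 e) = φ e.1.1 := pb_eq φ π0 e
    have h5 : (pb1 φ π0 e) = e.1.1 := rfl
    rw [← h5, he, eT] at h4
    exact congrArg f h4
  · apply phi'_inj d K
    rw [map_pow, map_sub, map_one, map_zero, phi'_gl]
    exact h1

end Pool.Agent.Run7.h132.PJ
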