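import Mathlib
import Pool.Agent.Run7.h132.PJ.H

set_option autoImplicit false

/-! Projective classes of matrices: semisimple, of finite order, unitary. -/

namespace Pool.Agent.Run7.h132.PJ

open Matrix
open scoped ComplexOrder

universe u

variable {K : Type u} [Field K] {d : ℕ}

/-- a semisimple matrix with only one eigenvalue is a scalar -/
theorem ss_unip {m : ℕ} (U : Matrix (Fin d) (Fin d) K) (c : K)
    (hU' : Squarefree (minpoly K U)) (h : (U - c • (1 : Matrix (Fin d) (Fin d) K)) ^ m = 0) :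
    U = c • (1 : Matrix (Fin d) (Fin d) K) := by
  have hU : Module.End.IsSemisimple (Matrix.toLin' U) := by
    refine Module.End.isSemisimple_of_squarefree_aeval_eq_zero hU' ?_
    rw [← Matrix.minpoly_toLin']
    exact minpoly.aeval _ _
  have h1 : Module.End.IsSemisimple
      (Matrix.toLin' U - algebraMap K (Module.End K (Fin d → K)) c) :=
    Module.End.isSemisimple_sub_algebraMap_iff.2 hU
  have h2 : Matrix.toLin' U - algebraMap K (Module.End K (Fin d → K)) c =
      Matrix.toLinAlgEquiv' (U - c • (1 : Matrix (Fin d) (Fin d) K)) := by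
    rw [map_sub, map_smul, map_one, Algebra.algebraMap_eq_smul_one]
    rfl
  have h3 : IsNilpotent (Matrix.toLinAlgEquiv' (U - c • (1 : Matrix (Fin d) (Fin d) K)) :
      Module.End K (Fin d → K)) := by
    refine ⟨m, ?_⟩
    rw [← map_pow, h, map_zero]
  rw [h2] at h1
  have h4 := Module.End.eq_zero_of_isNilpotent_isSemisimple h3 h1
  have h5 : U - c • (1 : Matrix (Fin d) (Fin d) K) = 0 := by
    apply Matrix.toLinAlgEquiv'.injective
    rw [h4, map_zero]
  exact sub_eq_zero.1 h5

theorem scalar_class {M : GeneralLinearGroup (Fin d) K} {c : K}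
    (h : (M : Matrix (Fin d) (Fin d) K) = c • (1 : Matrix (Fin d) (Fin d) K)) :
    ProjGenLinGroup.mk M = 1 := by
  rw [ProjGenLinGroup.mk_eq_one, GeneralLinearGroup.mem_center_iff_val_mem_range_scalar]
  exact ⟨c, by rw [h, Matrix.scalar_apply, ← Matrix.smul_one_eq_diagonal]⟩

theorem class_eq {M U : GeneralLinearGroup (Fin d) K}
    (h : ProjGenLinGroup.mk M = ProjGenLinGroup.mk U) :
    ∃ c : K, c ≠ 0 ∧ (U : Matrix (Fin d) (Fin d) K) = c • (M : Matrix (Fin d) (Fin d) K) := by
  obtain ⟨u, hu⟩ := ProjGenLinGroup.mk_eq_mk_iff.1 h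
  refine ⟨u, u.ne_zero, ?_⟩
  rw [← hu]
  show (M : Matrix (Fin d) (Fin d) K) * (Matrix.scalar (Fin d) (u : K)) = _
  rw [Matrix.scalar_apply, ← Matrix.smul_one_eq_diagonal, mul_smul_comm, mul_one]

theorem pow_sub {m : ℕ} {M U : Matrix (Fin d) (Fin d) K} {c : K} (h : (M - 1) ^ m = 0)
    (e : U = c • M) : (U - c • (1 : Matrix (Fin d) (Fin d) K)) ^ m = 0 := by
  rw [e, ← smul_sub, smul_pow, h, smul_zero]

/-- a projective class with a unipotent and a semisimple representative is trivial -/
theorem class_ss {m : ℕ} {M U : GeneralLinearGroup (Fin d) K}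
    (h : ((M : Matrix (Fin d) (Fin d) K) - 1) ^ m = 0)
    (e : ProjGenLinGroup.mk M = ProjGenLinGroup.mk U)
    (hU : Squarefree (minpoly K (U : Matrix (Fin d) (Fin d) K))) : ProjGenLinGroup.mk M = 1 := by
  obtain ⟨c, -, hc⟩ := class_eq e
  rw [e]
  exact scalar_class (ss_unip _ c hU (pow_sub h hc))

/-- a projective class of finite order prime to the characteristic with a unipotent
representative is trivial -/
theorem class_ord {m k : ℕ} {M : GeneralLinearGroup (Fin d) K}
    (h : ((M : Matrix (Fin d) (Fin d) K) - 1) ^ m = 0) (hk : (k : K) ≠ 0)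
    (e : (ProjGenLinGroup.mk M) ^ k = 1) : ProjGenLinGroup.mk M = 1 := by
  rcases Nat.eq_zero_or_pos d with rfl | hd
  · have : M = 1 := Units.ext (Subsingleton.elim _ _)
    rw [this, map_one]
  have : Nonempty (Fin d) := ⟨⟨0, hd⟩⟩
  rw [← map_pow, ProjGenLinGroup.mk_eq_one,
    GeneralLinearGroup.mem_center_iff_val_mem_range_scalar] at e
  obtain ⟨c, hc⟩ := e
  rw [Matrix.scalar_apply, ← Matrix.smul_one_eq_diagonal] at hc
  have hc0 : c ≠ 0 := by
    rintro rfl
    rw [zero_smul] at hc
    have h1 : IsUnit ((M ^ k : GeneralLinearGroup (Fin d) K) : Matrix (Fin d) (Fin d) K) :=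
      Units.isUnit _
    rw [← hc] at h1
    exact not_isUnit_zero h1
  refine class_ss h rfl ?_
  have hs : (Polynomial.X ^ k - Polynomial.C c : Polynomial K).Separable :=
    Polynomial.separable_X_pow_sub_C c hk hc0
  refine hs.squarefree.squarefree_of_dvd (minpoly.dvd K _ ?_)
  rw [map_sub, map_pow, Polynomial.aeval_X, Polynomial.aeval_C, ← Units.val_pow_eq_pow_val, ← hc,
    Algebra.algebraMap_eq_smul_one, sub_self]

/-- a projective class with a unipotent and a unitary representative is trivial -/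
theorem class_unitary {m : ℕ} {M U : GeneralLinearGroup (Fin d) ℂ}
    (h : ((M : Matrix (Fin d) (Fin d) ℂ) - 1) ^ m = 0)
    (e : ProjGenLinGroup.mk M = ProjGenLinGroup.mk U)
    (hU : (U : Matrix (Fin d) (Fin d) ℂ) ∈ Matrix.unitaryGroup (Fin d) ℂ) :
    ProjGenLinGroup.mk M = 1 := by
  obtain ⟨c, -, hc⟩ := class_eq e
  rw [e]
  refine scalar_class (c := c) ?_
  have h1 := pow_sub h hc
  set N : Matrix (Fin d) (Fin d) ℂ := (U : Matrix (Fin d) (Fin d) ℂ) - c • 1 with hN
  have hUU : Commute ((U : Matrix (Fin d) (Fin d) ℂ))ᴴ (U : Matrix (Fin d) (Fin d) ℂ) := by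
    have e1 := Matrix.mem_unitaryGroup_iff.1 hU
    have e2 := Matrix.mem_unitaryGroup_iff'.1 hU
    rw [Matrix.star_eq_conjTranspose] at e1 e2
    show _ * _ = _ * _
    rw [e1, e2]
  have hNN : Commute Nᴴ N := by
    rw [hN, Matrix.conjTranspose_sub, Matrix.conjTranspose_smul, Matrix.conjTranspose_one]
    exact (hUU.sub_left ((Commute.one_left _).smul_left _)).sub_right
      (((Commute.one_right _).smul_right _))
  have h2 : (Nᴴ * N) ^ (2 ^ m) = 0 := by
    have h3 : (Nᴴ * N) ^ m = 0 := by rw [hNN.mul_pow, h1, mul_zero]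
    exact pow_eq_zero_of_le (Nat.lt_two_pow_self).le h3
  have h4 : Nᴴ * N = 0 :=
    Pool.Agent.TH35.MG.herm_nil m _ (Matrix.isHermitian_conjTranspose_mul_self N) h2
  exact sub_eq_zero.1 (Matrix.conjTranspose_mul_self_eq_zero.1 h4)

end Pool.Agent.Run7.h132.PJ
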