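import Mathlib
import Pool.Agent.Run7.h132.PJ.J
import Pool.Agent.N66.CQ.Gam

set_option autoImplicit false

/-! Unipotent lifts of the Dehn twists in projective representations of small dimension. -/

namespace Pool.Agent.Run7.h132.PJ

open Pool.Agent.H798R3.MG Pool.Agent.TH35.MG Pool.Agent.H29R2.MG Pool.Agent.R352.MG
  Pool.Agent.R665.MGR Pool.Agent.H29R2.QD Pool.Agent.Helper950.BG Matrix Module

universe u
variable {K : Type u} [Field K] {d g : ℕ}

/-- the matrix is unipotent -/
def Un (M : GeneralLinearGroup (Fin d) K) : Prop :=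
  IsNilpotent ((M : Matrix (Fin d) (Fin d) K) - 1)

theorem un_scalar (hd : 0 < d) {M : Matrix (Fin d) (Fin d) K} {c : K} (h1 : IsNilpotent (M - 1))
    (h2 : IsNilpotent (c • M - 1)) : c = 1 := by
  have : Nonempty (Fin d) := ⟨⟨0, hd⟩⟩
  have h3 : IsNilpotent (c • (M - 1)) := h1.smul c
  have hc : Commute (c • M - 1) (c • (M - 1)) :=
    ((((Commute.refl M).smul_left c).sub_left (Commute.one_left M)).sub_right
      (Commute.one_right _)).smul_right c
  have h4 := hc.isNilpotent_sub h2 h3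
  have e : c • M - 1 - c • (M - 1) = (c - 1) • (1 : Matrix (Fin d) (Fin d) K) := by
    rw [smul_sub, sub_smul, one_smul]
    abel
  rw [e] at h4
  obtain ⟨n, hn⟩ := h4
  rw [smul_pow, one_pow] at hn
  have h5 : (c - 1) ^ n = 0 := by
    by_contra h
    have h6 := (smul_eq_zero.1 hn).resolve_left h
    exact one_ne_zero h6
  exact sub_eq_zero.1 (show IsNilpotent (c - 1) from ⟨n, h5⟩).eq_zero

theorem gl_uniq (hd : 0 < d) {M M' : GeneralLinearGroup (Fin d) K}
    (e : ProjGenLinGroup.mk M = ProjGenLinGroup.mk M') (h : Un M) (h' : Un M') : M = M' := by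
  obtain ⟨c, -, hc⟩ := class_eq e
  have h1 : c = 1 := un_scalar hd h (by rw [← hc]; exact h')
  apply Units.ext
  rw [hc, h1, one_smul]

theorem Un.conj {M : GeneralLinearGroup (Fin d) K} (h : Un M) (C : GeneralLinearGroup (Fin d) K) :
    Un (C * M * C⁻¹) := by
  obtain ⟨m, hm⟩ := h
  refine ⟨m, ?_⟩
  have e : ((C * M * C⁻¹ : GeneralLinearGroup (Fin d) K) : Matrix (Fin d) (Fin d) K) - 1 =
      C.1 * ((M : Matrix (Fin d) (Fin d) K) - 1) * C⁻¹.1 := by
    rw [mul_sub, sub_mul, mul_one, Units.mul_inv]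
    rfl
  have e2 : ∀ n : ℕ, (C.1 * ((M : Matrix (Fin d) (Fin d) K) - 1) * C⁻¹.1) ^ n =
      C.1 * ((M : Matrix (Fin d) (Fin d) K) - 1) ^ n * C⁻¹.1 := by
    intro n
    induction n with
    | zero => rw [pow_zero, pow_zero, mul_one, Units.mul_inv]
    | succ n ih =>
      rw [pow_succ, ih, pow_succ]
      calc C.1 * ((M : Matrix (Fin d) (Fin d) K) - 1) ^ n * C⁻¹.1 *
            (C.1 * ((M : Matrix (Fin d) (Fin d) K) - 1) * C⁻¹.1)
          = C.1 * ((M : Matrix (Fin d) (Fin d) K) - 1) ^ n * (C⁻¹.1 * C.1) *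
            ((M : Matrix (Fin d) (Fin d) K) - 1) * C⁻¹.1 := by simp only [mul_assoc]
        _ = _ := by
          rw [Units.inv_mul, mul_one]
          simp only [mul_assoc]
  rw [e, e2, hm, mul_zero, zero_mul]

theorem gl_comm (hd : 0 < d) {x y : GeneralLinearGroup (Fin d) K} (hy : Un y)
    (h : Commute (ProjGenLinGroup.mk x) (ProjGenLinGroup.mk y)) : Commute x y := by
  have h1 : x * y * x⁻¹ = y := by
    refine gl_uniq hd ?_ (hy.conj x) hy
    rw [map_mul, map_mul, map_inv, h.eq]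
    group
  show x * y = y * x
  calc x * y = x * y * x⁻¹ * x := by group
    _ = _ := by rw [h1]

theorem gl_braid (hd : 0 < d) {x y : GeneralLinearGroup (Fin d) K} (hx : Un x) (hy : Un y)
    (h : ProjGenLinGroup.mk x * ProjGenLinGroup.mk y * ProjGenLinGroup.mk x =
      ProjGenLinGroup.mk y * ProjGenLinGroup.mk x * ProjGenLinGroup.mk y) :
    x * y * x = y * x * y := by
  have h1 : (x * y) * x * (x * y)⁻¹ = y := by
    refine gl_uniq hd ?_ (hx.conj (x * y)) hy
    simp only [map_mul, map_inv]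
    rw [h]
    group
  calc x * y * x = (x * y) * x * (x * y)⁻¹ * (x * y) := by group
    _ = _ := by rw [h1, mul_assoc]

/-- unipotent lifts of Humphries' twists -/
structure Dat (f : Mod g →* ProjGenLinGroup (Fin d) K) (T : Mod g)
    (M : ℕ → GeneralLinearGroup (Fin d) K) (Me : GeneralLinearGroup (Fin d) K) : Prop where
  hg : 7 ≤ g
  hd : 0 < d
  hT : IsTwistAt g 1 T
  hum : HumRel (2 * g) M Me
  pm : ∀ j < 2 * g, ProjGenLinGroup.mk (M j) = f (tt g j)
  pe : ProjGenLinGroup.mk Me = f T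
  sq : ((M 0 : Matrix (Fin d) (Fin d) K) - 1) * ((M 0 : Matrix (Fin d) (Fin d) K) - 1) = 0
  pr : ((Me : Matrix (Fin d) (Fin d) K) - 1) * ((M 0 : Matrix (Fin d) (Fin d) K) - 1) = 0

theorem exists_dat (hd0 : 0 < d) (hd : d < (g - 8).choose 2)
    (f : Mod g →* ProjGenLinGroup (Fin d) K) {T : Mod g} (hT : IsTwistAt g 1 T) :
    ∃ M Me, Dat f T M Me := by
  have hg : 10 ≤ g := by
    by_contra h
    rw [Nat.choose_eq_zero_of_lt (by omega)] at hd
    omega
  have hp : d < 2 ^ (g - 9) := by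
    have h1 := choose_two_le (g - 9)
    rw [show g - 9 + 1 = g - 8 by omega] at h1
    omega
  obtain ⟨Γ, A, B, al, be, T', tau, r, hA, -⟩ := handles (g := g) (by omega)
  set φ : Γ →* Mod g := (modF g).comp Γ.subtype with hφ
  set π0 := pb1 f ProjGenLinGroup.mk with hπ0
  obtain ⟨hs, hc⟩ := pgl_ext f
  obtain ⟨a, b, x, y, t, w, r', pa, -⟩ := lift_all (n := g - 6) (pb1_surj φ π0 hs)
    (pb1_ck φ π0 hc) r (by omega)
  set ρ : PB φ π0 →* Module.End (AlgebraicClosure K) (Fin d → AlgebraicClosure K) :=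
    ((glEnd d K).comp (pb2 f ProjGenLinGroup.mk)).comp (pb2 φ π0) with hρ
  have hfr : finrank (AlgebraicClosure K) (Fin d → AlgebraicClosure K) = d := by simp
  have h0 : X ρ r'.commAA (Finset.range 2) = 0 := by
    refine X_zero r' ρ (by omega) (by omega) ?_ ?_
    · rw [hfr, show g - 6 - 2 = g - 8 by omega]
      exact hd
    · rw [hfr, show g - 6 - 1 - 2 = g - 9 by omega]
      exact hp
  have h1 : (ρ (a 1) - 1) * (ρ (a 0) - 1) = 0 := by
    have e := X_list ρ r'.commAA (E := Finset.range 2) (fun i hi => by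
      have := Finset.mem_range.1 hi; omega) (l := [1, 0]) (by simp) (by
        intro i
        rw [Finset.mem_range]
        simp only [List.mem_cons, List.not_mem_nil, or_false]
        omega)
    rw [h0] at e
    simpa using e
  have h2 : (ρ (a 0) - 1) ^ 2 = 0 := by
    have h3 := unip_zero (mono (N' := 4) (by omega) r') (by omega) ρ (by
      intro l hnd hl
      rw [X_list ρ r'.commAA (E := Finset.Ico 2 4) (fun i hi => by
        have := Finset.mem_Ico.1 hi; omega) hnd (fun i => by rw [hl, Finset.mem_Ico]),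
        X_move r' ρ (fun i hi => by have := Finset.mem_Ico.1 hi; omega), Nat.card_Ico]
      exact h0)
    exact h3
  -- the matrices
  set mat : PB φ π0 →* GeneralLinearGroup (Fin d) K :=
    (pb2 f ProjGenLinGroup.mk).comp (pb2 φ π0) with hmat
  have hρm : ∀ e, ρ e = phi' d K (mat e : Matrix (Fin d) (Fin d) K) := by
    intro e
    rw [phi'_gl]
    rfl
  have hcls : ∀ e, ProjGenLinGroup.mk (mat e) = f (φ (pb1 φ π0 e)) := by
    intro e
    have h4 : π0 (pb2 φ π0 e) = φ (pb1 φ π0 e) := pb_eq φ π0 e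
    rw [← h4]
    exact pb_eq f ProjGenLinGroup.mk (pb2 φ π0 e)
  have eA : ∀ m, m + 6 < g → ∀ T0, IsTwistAt g m T0 → ProjGenLinGroup.mk (mat (a m)) = f T0 := by
    intro m hm T0 hT0
    rw [hcls, pa m (by omega), twist_eq_at (by omega) (by omega) T0 hT0]
    show f (modF g (A m : orSub g)) = _
    rw [hA m (by omega)]
  have hsq : ((mat (a 0) : Matrix (Fin d) (Fin d) K) - 1) *
      ((mat (a 0) : Matrix (Fin d) (Fin d) K) - 1) = 0 := by
    apply phi'_inj d K
    rw [map_zero, map_mul, map_sub, map_one, ← hρm, ← pow_two]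
    exact h2
  have hpr : ((mat (a 1) : Matrix (Fin d) (Fin d) K) - 1) *
      ((mat (a 0) : Matrix (Fin d) (Fin d) K) - 1) = 0 := by
    apply phi'_inj d K
    rw [map_zero, map_mul, map_sub, map_sub, map_one, ← hρm, ← hρm]
    exact h1
  have u0 : Un (mat (a 0)) := ⟨2, by rw [pow_two]; exact hsq⟩
  have u1 : Un (mat (a 1)) := by
    obtain ⟨c, hc⟩ := conj_A r' 1 (by omega)
    rw [hc, map_mul, map_mul, map_inv]
    exact u0.conj _
  have hr := humRel (g := g) (by omega) hT
  have hex : ∀ j, j < 2 * g → ∃ M, Un M ∧ ProjGenLinGroup.mk M = f (tt g j) := by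
    intro j
    induction j with
    | zero => intro _; exact ⟨_, u0, eA 0 (by omega) _ (tt_zero (by omega))⟩
    | succ j ih =>
      intro hj
      obtain ⟨M, h3, h4⟩ := ih (by omega)
      obtain ⟨C, hC⟩ := ProjGenLinGroup.mk_surjective (f (tt g j * tt g (j + 1)))
      refine ⟨C * M * C⁻¹, h3.conj C, ?_⟩
      rw [map_mul, map_mul, map_inv, hC, h4, ← map_mul, hr.braid j hj, ← map_inv, ← map_mul]
      congr 1
      group
  choose! M hM1 hM2 using hex
  have e0 : M 0 = mat (a 0) := gl_uniq hd0 (by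
    rw [hM2 0 (by omega), eA 0 (by omega) _ (tt_zero (by omega))]) (hM1 0 (by omega)) u0
  have pe : ProjGenLinGroup.mk (mat (a 1)) = f T := eA 1 (by omega) T hT
  refine ⟨M, mat (a 1), by omega, hd0, hT, ?_, hM2, pe, ?_, ?_⟩
  · exact
    { braid := fun j hj => gl_braid hd0 (hM1 j (by omega)) (hM1 (j + 1) hj) (by
        rw [hM2 j (by omega), hM2 (j + 1) hj, ← map_mul, ← map_mul, ← map_mul, ← map_mul,
          hr.braid j hj])
      far := fun i j hij hj => gl_comm hd0 (hM1 j hj) (by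
        rw [hM2 i (by omega), hM2 j hj]
        exact (hr.far i j hij hj).map f)
      braidE := gl_braid hd0 (hM1 3 (by omega)) u1 (by
        rw [hM2 3 (by omega), pe, ← map_mul, ← map_mul, ← map_mul, ← map_mul, hr.braidE])
      farE := fun j hj h3 => gl_comm hd0 (hM1 j hj) (by
        rw [hM2 j hj, pe]
        exact (hr.farE j hj h3).map f) }
  · rw [e0]; exact hsq
  · rw [e0]; exact hpr

end Pool.Agent.Run7.h132.PJ
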