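import Mathlib
import Pool.Agent.Run7.h132.PJ.K1

set_option autoImplicit false

/-! Projective representations of small dimension lift to linear representations. -/

namespace Pool.Agent.Run7.h132.PJ

open Pool.Agent.H798R3.MG Pool.Agent.TH35.MG Pool.Agent.H29R2.MG Pool.Agent.R352.MG
  Pool.Agent.R665.MGR Matrix Module

universe u
variable {K : Type u} [Field K] {d g : ℕ}

/-- the operator of a matrix -/
noncomputable def op : GeneralLinearGroup (Fin d) K →* Module.End K (Fin d → K) where
  toFun x := Matrix.toLinAlgEquiv' (x : Matrix (Fin d) (Fin d) K)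
  map_one' := by rw [Units.val_one, map_one]
  map_mul' x y := by rw [Units.val_mul, map_mul]

theorem op_apply (M : GeneralLinearGroup (Fin d) K) (v : Fin d → K) :
    op M v = (M : Matrix (Fin d) (Fin d) K).mulVec v := Matrix.toLinAlgEquiv'_apply _ _

theorem op_sub (M : GeneralLinearGroup (Fin d) K) :
    op M - 1 = Matrix.toLinAlgEquiv' ((M : Matrix (Fin d) (Fin d) K) - 1) := by
  rw [map_sub, map_one]
  rfl

/-- the group generated by the twists with their unipotent lifts -/
def Gh (g : ℕ) (T : Mod g) (M : ℕ → GeneralLinearGroup (Fin d) K)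
    (Me : GeneralLinearGroup (Fin d) K) : Subgroup (Mod g × GeneralLinearGroup (Fin d) K) :=
  Subgroup.closure ({p | ∃ j : Fin (2 * g), p = (chainTwist g j, M j)} ∪ {(T, Me)})

/-- `x` acts trivially on the combinations of homology classes -/
def CTriv (d : ℕ) (K : Type u) [Field K] (x : Mod g) : Prop :=
  ∀ (v : Fin g ⊕ Fin g → (Fin d → K)) (φ : orientedAut g), classOf g φ = x →
    ∀ y : SurfaceGroup g, comb v (homologyClass (φ.1 y)) = comb v (homologyClass y)

section
variable {f : Mod g →* ProjGenLinGroup (Fin d) K} {T : Mod g}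
  {M : ℕ → GeneralLinearGroup (Fin d) K} {Me : GeneralLinearGroup (Fin d) K}

theorem chain_Gh (j : Fin (2 * g)) : (chainTwist g j, M j) ∈ Gh g T M Me :=
  Subgroup.subset_closure (Or.inl ⟨j, rfl⟩)

theorem e_Gh : (T, Me) ∈ Gh g T M Me := Subgroup.subset_closure (Or.inr rfl)

theorem ctriv_one : CTriv d K (1 : Mod g) := by
  intro v φ hφ y
  rw [hc_class (φ := φ) (ψ := 1) hφ y]
  rfl

variable (D : Dat f T M Me)
include D

theorem Dat.rel : NRel (2 * g) (fun j => op (M j) - 1) (op Me - 1) := by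
  have := D.hg
  refine nrel D.hum (by omega) op ?_ ?_
  · rw [op_sub, ← map_mul, D.sq, map_zero]
  · rw [op_sub, op_sub, ← map_mul, D.pr, map_zero]

theorem Dat.cls : ∀ p ∈ Gh g T M Me, ProjGenLinGroup.mk p.2 = f p.1 := by
  intro p hp
  induction hp using Subgroup.closure_induction with
  | mem p hp =>
    rcases hp with ⟨j, rfl⟩ | hp
    · rw [D.pm j j.2, tt_lt j.2]
    · rw [show p = (T, Me) from hp]
      exact D.pe
  | one => rw [Prod.snd_one, Prod.fst_one, map_one, map_one]
  | mul p q _ _ h1 h2 => rw [Prod.snd_mul, Prod.fst_mul, map_mul, map_mul, h1, h2]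
  | inv p _ h1 => rw [Prod.snd_inv, Prod.fst_inv, map_inv, map_inv, h1]

theorem Dat.fst_mem : ∀ p ∈ Gh g T M Me, p.1 ∈ Humphries g := by
  intro p hp
  induction hp using Subgroup.closure_induction with
  | mem p hp =>
    rcases hp with ⟨j, rfl⟩ | hp
    · exact chain_mem j
    · rw [show p = (T, Me) from hp]
      exact e_mem D.hT
  | one => exact one_mem _
  | mul p q _ _ h1 h2 => exact mul_mem h1 h2
  | inv p _ h1 => exact inv_mem h1

theorem Dat.surj : ∀ x ∈ Humphries g, ∃ X, (x, X) ∈ Gh g T M Me := by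
  intro x hx
  induction hx using Subgroup.closure_induction with
  | mem x hx =>
    rcases hx with ⟨j, rfl⟩ | hx
    · exact ⟨_, chain_Gh j⟩
    · have hx' : IsTwistAt g 1 x := hx
      rw [twist_unique D.hg D.hT hx']
      exact ⟨_, e_Gh⟩
  | one => exact ⟨1, one_mem _⟩
  | mul x y _ _ h1 h2 =>
    obtain ⟨X, h1⟩ := h1
    obtain ⟨Y, h2⟩ := h2
    exact ⟨X * Y, mul_mem h1 h2⟩
  | inv x _ h1 =>
    obtain ⟨X, h1⟩ := h1
    exact ⟨X⁻¹, inv_mem h1⟩

theorem Dat.sqj {j : ℕ} (hj : j < 2 * g) (v : Fin d → K) :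
    op (M j)⁻¹ v = v - (op (M j) - 1) v := by
  have h := D.rel.sq j hj v
  have h1 : op (M j) (v - (op (M j) - 1) v) = v := by
    have h3 : op (M j) (v - (op (M j) - 1) v) = v - (op (M j) - 1) ((op (M j) - 1) v) := by
      simp only [LinearMap.sub_apply, Module.End.one_apply, map_sub]
      abel
    rw [h3, h, sub_zero]
  have h2 : op (M j)⁻¹ (op (M j) (v - (op (M j) - 1) v)) = v - (op (M j) - 1) v := by
    rw [← Module.End.mul_apply, ← map_mul, inv_mul_cancel, map_one, Module.End.one_apply]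
  rwa [h1] at h2

theorem Dat.sqe (v : Fin d → K) : op Me⁻¹ v = v - (op Me - 1) v := by
  have h := D.rel.sqE v
  have h1 : op Me (v - (op Me - 1) v) = v := by
    have h3 : op Me (v - (op Me - 1) v) = v - (op Me - 1) ((op Me - 1) v) := by
      simp only [LinearMap.sub_apply, Module.End.one_apply, map_sub]
      abel
    rw [h3, h, sub_zero]
  have h2 : op Me⁻¹ (op Me (v - (op Me - 1) v)) = v - (op Me - 1) v := by
    rw [← Module.End.mul_apply, ← map_mul, inv_mul_cancel, map_one, Module.End.one_apply]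
  rwa [h1] at h2

/-- invariant subspaces -/
theorem Dat.inv_of {W : Submodule K (Fin d → K)}
    (hW : NInv (2 * g) (fun j => op (M j) - 1) (op Me - 1) W) :
    ∀ p ∈ Gh g T M Me, ∀ v ∈ W, op p.2 v ∈ W := by
  have key : ∀ p ∈ Gh g T M Me, ∀ v ∈ W, op p.2 v ∈ W ∧ op p.2⁻¹ v ∈ W := by
    intro p hp
    induction hp using Subgroup.closure_induction with
    | mem p hp =>
      rcases hp with ⟨j, rfl⟩ | hp
      · intro v hv
        have h1 := hW.inv j j.2 v hv
        refine ⟨?_, ?_⟩
        · have h3 := W.add_mem h1 hv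
          simpa using h3
        · show op (M j)⁻¹ v ∈ W
          rw [D.sqj j.2 v]
          exact W.sub_mem hv h1
      · rw [show p = (T, Me) from hp]
        intro v hv
        have h1 := hW.invE v hv
        refine ⟨?_, ?_⟩
        · have h3 := W.add_mem h1 hv
          simpa using h3
        · show op Me⁻¹ v ∈ W
          rw [D.sqe v]
          exact W.sub_mem hv h1
    | one =>
      intro v hv
      rw [Prod.snd_one, inv_one, map_one, Module.End.one_apply]
      exact ⟨hv, hv⟩
    | mul p q _ _ h1 h2 =>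
      intro v hv
      rw [Prod.snd_mul, map_mul, _root_.mul_inv_rev, map_mul, Module.End.mul_apply,
        Module.End.mul_apply]
      exact ⟨(h1 _ (h2 v hv).1).1, (h2 _ (h1 v hv).2).2⟩
    | inv p _ h1 =>
      intro v hv
      rw [Prod.snd_inv, inv_inv]
      exact ⟨(h1 v hv).2, (h1 v hv).1⟩
  exact fun p hp v hv => (key p hp v hv).1

/-- equivariance -/
theorem Dat.equiv {W1 : Submodule K (Fin d → K)}
    (hW1 : ∀ p ∈ Gh g T M Me, ∀ v ∈ W1, op p.2 v ∈ W1) {w : ℕ → (Fin d → K)}
    (r : RRel (2 * g) (fun j => op (M j) - 1) (op Me - 1) W1 w) :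
    ∀ p ∈ Gh g T M Me, ∃ φ : orientedAut g, classOf g φ = p.1 ∧ ∀ y : SurfaceGroup g,
      op p.2 (comb (ub g w) (homologyClass y)) - comb (ub g w) (homologyClass (φ.1 y)) ∈ W1 := by
  intro p hp
  have hg := D.hg
  induction hp using Subgroup.closure_induction with
  | mem p hp =>
    rcases hp with ⟨⟨j, hj⟩, rfl⟩ | hp
    · refine ⟨_, rfl, ?_⟩
      intro y
      rcases Nat.even_or_odd' j with ⟨i, rfl | rfl⟩
      · have h1 := gen_even r (⟨i, by omega⟩ : Fin g)
        have h2 := hc_even (⟨i, by omega⟩ : Fin g) y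
        have h3 : ce (⟨i, by omega⟩ : Fin g) = homologyClass (H29R2.MG.mk g (ee (⟨i, by omega⟩ : Fin g))) := by
          funext k
          rcases k with m | m
          · rw [ee_inl]; rfl
          · rw [ee_inr]; rfl
        rw [h3] at h1
        have h4 := gen_equiv (F := op (M (2 * i))) h1 (homologyClass y)
        rw [← h2] at h4
        exact h4
      · have h1 := gen_odd r (⟨i, by omega⟩ : Fin g)
        have h2 := hc_odd (⟨i, by omega⟩ : Fin g) y
        have h4 := gen_equiv (F := op (M (2 * i + 1))) h1 (homologyClass y)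
        rw [← h2] at h4
        exact h4
    · rw [show p = (T, Me) from hp]
      have hT2 := D.hT
      obtain ⟨τ, hτ, h⟩ := hT2
      refine ⟨τ, hτ, ?_⟩
      intro y
      have h1 := gen_e r (⟨1, by omega⟩ : Fin g) rfl
      have h2 := hc_tau h (⟨1, by omega⟩ : Fin g) rfl y
      have h4 := gen_equiv (F := op Me) h1 (homologyClass y)
      rw [← h2] at h4
      exact h4
  | one =>
    refine ⟨1, rfl, ?_⟩
    intro y
    rw [Prod.snd_one, map_one, Module.End.one_apply]
    have : ((1 : orientedAut g).1 : MulAut (SurfaceGroup g)) y = y := rfl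
    rw [this, sub_self]
    exact W1.zero_mem
  | mul p q hp hq h1 h2 =>
    obtain ⟨φ, e1, h1⟩ := h1
    obtain ⟨φ', e2, h2⟩ := h2
    refine ⟨φ * φ', by rw [Prod.fst_mul, ← e1, ← e2]; rfl, ?_⟩
    intro y
    have h3 := h1 (φ'.1 y)
    have h4 := hW1 p hp _ (h2 y)
    rw [map_sub] at h4
    have h5 := W1.add_mem h4 h3
    rw [sub_add_sub_cancel] at h5
    rw [Prod.snd_mul, map_mul, Module.End.mul_apply]
    exact h5
  | inv p hp h1 =>
    obtain ⟨φ, e1, h1⟩ := h1
    refine ⟨φ⁻¹, by rw [Prod.fst_inv, ← e1]; rfl, ?_⟩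
    intro y
    have h3 := h1 ((φ⁻¹).1 y)
    have e1 : φ.1 ((φ⁻¹).1 y) = y := by
      rw [InvMemClass.coe_inv, MulAut.apply_inv_self]
    rw [e1] at h3
    have h4 := hW1 _ (inv_mem hp) _ h3
    rw [Prod.snd_inv, map_sub, ← Module.End.mul_apply, ← map_mul, inv_mul_cancel, map_one,
      Module.End.one_apply] at h4
    have h5 := W1.neg_mem h4
    rwa [neg_sub] at h5

theorem Dat.fixV : ∀ p ∈ Gh g T M Me,
    ∀ v ∈ Vinv (2 * g) (fun j => op (M j) - 1) (op Me - 1), op p.2 v = v := by
  intro p hp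
  induction hp using Subgroup.closure_induction with
  | mem p hp =>
    rcases hp with ⟨j, rfl⟩ | hp
    · intro v hv
      exact sub_eq_zero.1 ((mem_Vinv.1 hv).1 j j.2)
    · rw [show p = (T, Me) from hp]
      intro v hv
      exact sub_eq_zero.1 (mem_Vinv.1 hv).2
  | one => intro v _; rw [Prod.snd_one, map_one, Module.End.one_apply]
  | mul p q _ _ h1 h2 =>
    intro v hv
    rw [Prod.snd_mul, map_mul, Module.End.mul_apply, h2 v hv, h1 v hv]
  | inv p _ h1 =>
    intro v hv
    have h2 : op p.2⁻¹ (op p.2 v) = v := by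
      rw [← Module.End.mul_apply, ← map_mul, inv_mul_cancel, map_one, Module.End.one_apply]
    rw [h1 v hv] at h2
    exact h2

theorem Dat.memV : ∀ p ∈ Gh g T M Me, ∀ v : Fin d → K,
    op p.2 v - v ∈ Vim (2 * g) (fun j => op (M j) - 1) (op Me - 1) := by
  intro p hp
  induction hp using Subgroup.closure_induction with
  | mem p hp =>
    rcases hp with ⟨j, rfl⟩ | hp
    · intro v
      exact N_mem_Vim (N := fun j => op (M j) - 1) (E := op Me - 1) j.2 v
    · rw [show p = (T, Me) from hp]
      intro v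
      exact E_mem_Vim v
  | one =>
    intro v
    rw [Prod.snd_one, map_one, Module.End.one_apply, sub_self]
    exact Submodule.zero_mem _
  | mul p q _ _ h1 h2 =>
    intro v
    have h3 := Submodule.add_mem _ (h1 (op q.2 v)) (h2 v)
    rw [sub_add_sub_cancel] at h3
    rw [Prod.snd_mul, map_mul, Module.End.mul_apply]
    exact h3
  | inv p _ h1 =>
    intro v
    have h2 := h1 (op p.2⁻¹ v)
    rw [← Module.End.mul_apply, ← map_mul, mul_inv_cancel, map_one, Module.End.one_apply] at h2
    have h3 := Submodule.neg_mem _ h2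
    rwa [neg_sub] at h3

theorem Dat.levV (p : Mod g × GeneralLinearGroup (Fin d) K) (hp : p ∈ Gh g T M Me)
    (ht : CTriv d K p.1) : ∀ v ∈ Vim (2 * g) (fun j => op (M j) - 1) (op Me - 1),
      (op p.2 - 1) v ∈ Vinv (2 * g) (fun j => op (M j) - 1) (op Me - 1) := by
  have hg := D.hg
  have hinv : ∀ p ∈ Gh g T M Me, ∀ v ∈ Vinv (2 * g) (fun j => op (M j) - 1) (op Me - 1),
      op p.2 v ∈ Vinv (2 * g) (fun j => op (M j) - 1) (op Me - 1) := by
    intro p hp v hv
    rw [D.fixV p hp v hv]
    exact hv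
  refine F_Vim D.rel (by omega) (op p.2 - 1) ?_ ?_
  · intro v hv
    exact sub_eq_zero.2 (D.fixV p hp v hv)
  · intro u hu j hj
    have r := rrel D.rel (by omega) hu
    obtain ⟨φ, hφ, h1⟩ := D.equiv hinv r p hp
    set w := ww (fun j => op (M j) - 1) u with hw
    have hub : ∀ k, (op p.2 - 1) (ub g w k) ∈
        Vinv (2 * g) (fun j => op (M j) - 1) (op Me - 1) := by
      intro k
      have h2 := h1 (gen k)
      rw [ht _ φ hφ (gen k), comb_gen] at h2
      exact h2
    rcases Nat.even_or_odd' j with ⟨i, rfl | rfl⟩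
    · have h := (gen_even r (⟨i, by omega⟩ : Fin g)).val
      rw [show w (2 * i) = _ from h, map_sum]
      refine Submodule.sum_mem _ fun k _ => ?_
      rw [map_smul]
      exact Submodule.smul_mem _ _ (hub k)
    · exact hub (Sum.inr ⟨i, by omega⟩)

/-- three steps -/
theorem Dat.triple {p q r : Mod g × GeneralLinearGroup (Fin d) K} (hp : p ∈ Gh g T M Me)
    (hq : q ∈ Gh g T M Me) (hr : r ∈ Gh g T M Me) (ht : CTriv d K q.1) :
    ((p.2 : Matrix (Fin d) (Fin d) K) - 1) * ((q.2 : Matrix (Fin d) (Fin d) K) - 1) *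
      ((r.2 : Matrix (Fin d) (Fin d) K) - 1) = 0 := by
  apply (Matrix.toLinAlgEquiv' (R := K) (n := Fin d)).injective
  rw [map_zero, map_mul, map_mul, ← op_sub, ← op_sub, ← op_sub]
  apply LinearMap.ext
  intro v
  rw [LinearMap.zero_apply, Module.End.mul_apply, Module.End.mul_apply]
  have h1 := D.memV r hr v
  have h2 := D.levV q hq ht _ h1
  exact sub_eq_zero.2 (D.fixV p hp _ h2)

/-- the projection to `Mod_g` is injective -/
theorem Dat.inj {X : GeneralLinearGroup (Fin d) K} (hp : ((1 : Mod g), X) ∈ Gh g T M Me) :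
    X = 1 := by
  have h1 := D.cls _ hp
  rw [map_one, ProjGenLinGroup.mk_eq_one,
    GeneralLinearGroup.mem_center_iff_val_mem_range_scalar] at h1
  obtain ⟨c, hc⟩ := h1
  rw [Matrix.scalar_apply, ← Matrix.smul_one_eq_diagonal] at hc
  have hop : ∀ v, op X v = c • v := by
    intro v
    rw [op_apply, ← hc, Matrix.smul_mulVec, Matrix.one_mulVec]
  by_cases hc1 : c = 1
  · apply Units.ext
    rw [← hc, hc1, one_smul]
    rfl
  exfalso
  have hne : c - 1 ≠ 0 := sub_ne_zero.2 hc1
  have hv : ∀ v : Fin d → K, v ∈ Vim (2 * g) (fun j => op (M j) - 1) (op Me - 1) := by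
    intro v
    have h2 := D.memV _ hp v
    rw [hop, show c • v - v = (c - 1) • v by rw [sub_smul, one_smul]] at h2
    exact (Submodule.smul_mem_iff _ hne).1 h2
  have hi : ∀ v : Fin d → K, v ∈ Vinv (2 * g) (fun j => op (M j) - 1) (op Me - 1) := by
    intro v
    have h2 := D.levV _ hp ctriv_one v (hv v)
    rw [LinearMap.sub_apply, Module.End.one_apply, hop,
      show c • v - v = (c - 1) • v by rw [sub_smul, one_smul]] at h2
    exact (Submodule.smul_mem_iff _ hne).1 h2
  have h3 : Vim (2 * g) (fun j => op (M j) - 1) (op Me - 1) ≤ (⊥ : Submodule K (Fin d → K)) := by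
    unfold Vim
    rw [Submodule.span_le]
    rintro v ⟨u, ⟨j, hj, rfl⟩ | rfl⟩
    · exact (mem_Vinv.1 (hi u)).1 j hj
    · exact (mem_Vinv.1 (hi u)).2
  have hd := D.hd
  have : Nonempty (Fin d) := ⟨⟨0, hd⟩⟩
  have h4 := h3 (hv (fun _ => 1))
  rw [Submodule.mem_bot] at h4
  exact one_ne_zero (congrFun h4 ⟨0, hd⟩)

/-- the linear representation -/
theorem Dat.exists_F : ∃ F : Humphries g →* GeneralLinearGroup (Fin d) K,
    ∀ x : Humphries g, ((x : Mod g), F x) ∈ Gh g T M Me := by
  have huniq : ∀ (x : Mod g) (X Y : GeneralLinearGroup (Fin d) K), (x, X) ∈ Gh g T M Me →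
      (x, Y) ∈ Gh g T M Me → X = Y := by
    intro x X Y h1 h2
    have h3 : ((1 : Mod g), X * Y⁻¹) ∈ Gh g T M Me := by
      have h4 := mul_mem h1 (inv_mem h2)
      simpa using h4
    exact mul_inv_eq_one.1 (D.inj h3)
  choose F hF using fun x : Humphries g => D.surj x x.2
  refine ⟨MonoidHom.mk' F fun x y => ?_, hF⟩
  exact huniq _ _ _ (hF (x * y)) (mul_mem (hF x) (hF y))

end

end Pool.Agent.Run7.h132.PJ
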