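import Mathlib
import Pool.Agent.Run7.h132.PJ.K2
import Pool.Agent.N66.CQ.Main

set_option autoImplicit false

/-! Finiteness and complete reducibility for the lifted representations. -/

namespace Pool.Agent.Run7.h132.PJ

open Pool.Agent.H798R3.MG Pool.Agent.TH35.MG Pool.Agent.H29R2.MG Pool.Agent.R352.MG
  Pool.Agent.R665.MGR Pool.Agent.N66.CQ Matrix Module
open scoped commutatorElement

universe u
variable {K : Type u} [Field K] {d g p : ℕ}

section general
variable {H : Type*} [Group H] (F : H →* GeneralLinearGroup (Fin d) K) (L : Subgroup H)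

/-- products of three factors vanish -/
def Trip : Prop := ∀ a ∈ L, ∀ b ∈ L, ∀ c ∈ L, ((F a : Matrix (Fin d) (Fin d) K) - 1) *
  ((F b : Matrix (Fin d) (Fin d) K) - 1) * ((F c : Matrix (Fin d) (Fin d) K) - 1) = 0

variable {F L}

theorem comm3' (h : Trip F L) {x y z : H} (hx : x ∈ L) (hy : y ∈ L) (hz : z ∈ L) :
    F ⁅x, ⁅y, z⁆⁆ = 1 := by
  have key : ∀ a b c : H, a ∈ L → b ∈ L → c ∈ L →
      ((F a : Matrix (Fin d) (Fin d) K) - 1) * ((F b : Matrix (Fin d) (Fin d) K) - 1) *
      ((F c : Matrix (Fin d) (Fin d) K) - 1) = 0 :=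
    fun a b c ha hb hc => h a ha b hb c hc
  have hc : F ⁅y, z⁆ = F (y * z) * F (z * y)⁻¹ := by
    rw [← map_mul]
    congr 1
    rw [commutatorElement_def]
    group
  have hw : (z * y)⁻¹ ∈ L := inv_mem (mul_mem hz hy)
  have hX : ∀ (A B C D : Matrix (Fin d) (Fin d) K), (A - 1) * (B - 1) * (D - 1) = 0 →
      (B - 1) * (A - 1) * (D - 1) = 0 →
      ((A - 1) * (B - 1) - (B - 1) * (A - 1)) * (D - 1) = 0 := by
    intro A B _ D h1 h2
    rw [sub_mul ((A - 1) * (B - 1)), h1, h2, sub_zero]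
  have hY : ∀ (A B D : Matrix (Fin d) (Fin d) K), (D - 1) * (A - 1) * (B - 1) = 0 →
      (D - 1) * (B - 1) * (A - 1) = 0 →
      (D - 1) * ((A - 1) * (B - 1) - (B - 1) * (A - 1)) = 0 := by
    intro A B D h1 h2
    rw [mul_sub (D - 1), ← mul_assoc, ← mul_assoc, h1, h2, sub_zero]
  have e1 : (F ⁅y, z⁆ : Matrix (Fin d) (Fin d) K) - 1 =
      ((F y : Matrix (Fin d) (Fin d) K) - 1) * ((F z : Matrix (Fin d) (Fin d) K) - 1) -
      ((F z : Matrix (Fin d) (Fin d) K) - 1) * ((F y : Matrix (Fin d) (Fin d) K) - 1) := by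
    have h1 : (F ⁅y, z⁆ : Matrix (Fin d) (Fin d) K) - 1 =
        ((F (y * z) : Matrix (Fin d) (Fin d) K) - F (z * y)) * F (z * y)⁻¹ := by
      rw [hc, Units.val_mul, sub_mul]
      congr 1
      rw [← Units.val_mul, ← map_mul, mul_inv_cancel, map_one, Units.val_one]
    have h2 : (F (y * z) : Matrix (Fin d) (Fin d) K) - F (z * y) =
        ((F y : Matrix (Fin d) (Fin d) K) - 1) * ((F z : Matrix (Fin d) (Fin d) K) - 1) -
        ((F z : Matrix (Fin d) (Fin d) K) - 1) * ((F y : Matrix (Fin d) (Fin d) K) - 1) := by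
      rw [map_mul, map_mul, Units.val_mul, Units.val_mul]
      noncomm_ring
    have h3 : (F (z * y)⁻¹ : Matrix (Fin d) (Fin d) K) =
        1 + ((F (z * y)⁻¹ : Matrix (Fin d) (Fin d) K) - 1) := by abel
    have h4 := hX (F y : Matrix (Fin d) (Fin d) K) (F z) 0 (F (z * y)⁻¹) (key y z _ hy hz hw)
      (key z y _ hz hy hw)
    rw [h1, h2, h3, mul_add, mul_one, h4, add_zero]
  have e2 : (F x : Matrix (Fin d) (Fin d) K) * F ⁅y, z⁆ = F ⁅y, z⁆ * F x := by
    have h1 : ((F x : Matrix (Fin d) (Fin d) K) - 1) * ((F ⁅y, z⁆ : Matrix (Fin d) (Fin d) K) - 1)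
        = 0 := by
      rw [e1]
      exact hY _ _ _ (key x y z hx hy hz) (key x z y hx hz hy)
    have h2 : ((F ⁅y, z⁆ : Matrix (Fin d) (Fin d) K) - 1) * ((F x : Matrix (Fin d) (Fin d) K) - 1)
        = 0 := by
      rw [e1]
      exact hX _ _ 0 _ (key y z x hy hz hx) (key z y x hz hy hx)
    have h3 : (F x : Matrix (Fin d) (Fin d) K) * F ⁅y, z⁆ - F ⁅y, z⁆ * F x =
        ((F x : Matrix (Fin d) (Fin d) K) - 1) * ((F ⁅y, z⁆ : Matrix (Fin d) (Fin d) K) - 1) -
        ((F ⁅y, z⁆ : Matrix (Fin d) (Fin d) K) - 1) * ((F x : Matrix (Fin d) (Fin d) K) - 1) := by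
      generalize (F ⁅y, z⁆ : Matrix (Fin d) (Fin d) K) = a
      generalize (F x : Matrix (Fin d) (Fin d) K) = b
      noncomm_ring
    rw [h1, h2, sub_zero] at h3
    exact sub_eq_zero.1 h3
  have e3 : F x * F ⁅y, z⁆ = F ⁅y, z⁆ * F x := Units.ext (by
    rw [Units.val_mul, Units.val_mul]; exact e2)
  rw [map_commutatorElement]
  exact commutatorElement_eq_one_iff_mul_comm.2 e3

theorem lev_pow' [Fact p.Prime] [CharP K p] (h : Trip F L) {y : H} (hy : y ∈ L) {r : ℕ}
    (hr : 3 ≤ p ^ r) : F y ^ (p ^ r) = 1 := by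
  have h1 := h y hy y hy y hy
  have h2 : ((F y : Matrix (Fin d) (Fin d) K) - 1) ^ (p ^ r) = 0 := by
    rw [← Nat.sub_add_cancel hr, pow_add]
    have : ((F y : Matrix (Fin d) (Fin d) K) - 1) ^ 3 = 0 := by
      rw [pow_succ, pow_two]
      exact h1
    rw [this, mul_zero]
  rw [pow_char, sub_eq_zero] at h2
  apply Units.ext
  rw [Units.val_pow_eq_pow_val, h2]
  rfl

theorem finite_L [Fact p.Prime] [CharP K p] [Group.FG H] [L.FiniteIndex] (h : Trip F L) :
    Finite (L.map F) := by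
  have h3 : Group.FG L := Subgroup.fg_of_index_ne_zero _
  have h5 : Group.FG (L.map F) := Group.fg_of_surjective (MonoidHom.subgroupMap_surjective F L)
  have h6 : ∀ y z : L.map F, ⁅y, z⁆ ∈ Subgroup.center (L.map F) := by
    rintro ⟨_, y, hy, rfl⟩ ⟨_, z, hz, rfl⟩
    rw [Subgroup.mem_center_iff]
    rintro ⟨_, x, hx, rfl⟩
    apply Subtype.ext
    have h7 := comm3' h hx hy hz
    rw [map_commutatorElement, map_commutatorElement, commutatorElement_eq_one_iff_mul_comm] at h7
    exact h7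
  have h7 : Group.IsNilpotent ((L.map F) ⧸ Subgroup.center (L.map F)) := by
    let Q := (L.map F) ⧸ Subgroup.center (L.map F)
    let inst : CommGroup Q :=
      { (inferInstance : Group Q) with
        mul_comm := by
          intro a b
          induction a using QuotientGroup.induction_on with
          | H y =>
            induction b using QuotientGroup.induction_on with
            | H z =>
              have h8 := (QuotientGroup.eq_one_iff _).2 (h6 y z)
              have h9 : ⁅(QuotientGroup.mk' (Subgroup.center (L.map F)) y),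
                  (QuotientGroup.mk' (Subgroup.center (L.map F)) z)⁆ = 1 := by
                rw [← map_commutatorElement]
                exact h8
              exact commutatorElement_eq_one_iff_mul_comm.1 h9 }
    exact (CommGroup.isNilpotent : @Group.IsNilpotent Q inst.toGroup)
  have h8 : Group.IsNilpotent (L.map F) := Group.of_quotient_center_nilpotent h7
  refine Pool.Agent.Helper111.EN.finite_of_fg_nilpotent _ ?_
  rintro ⟨_, y, hy, rfl⟩
  refine isOfFinOrder_iff_pow_eq_one.2 ⟨p ^ 2, pow_pos (Fact.out : p.Prime).pos 2, ?_⟩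
  apply Subtype.ext
  exact lev_pow' h hy three_le

theorem finite_H [Fact p.Prime] [CharP K p] [Group.FG H] [L.FiniteIndex] (h : Trip F L) :
    Finite F.range := by
  have h0 := finite_L (p := p) h
  have hq : Finite (H ⧸ L) := Subgroup.finite_quotient_of_finiteIndex
  let m : (H ⧸ L) × (L.map F) → GeneralLinearGroup (Fin d) K :=
    fun x => F (Quotient.out x.1) * x.2.1
  have hm : (F.range : Set (GeneralLinearGroup (Fin d) K)) ⊆ Set.range m := by
    rintro _ ⟨x, rfl⟩
    have h5 : (Quotient.out (QuotientGroup.mk x : H ⧸ L))⁻¹ * x ∈ L :=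
      QuotientGroup.eq.1 (QuotientGroup.out_eq' _)
    let q : H := (Quotient.out (QuotientGroup.mk x : H ⧸ L))⁻¹ * x
    have h6 : F q ∈ L.map F := ⟨q, h5, rfl⟩
    refine ⟨⟨QuotientGroup.mk x, ⟨F q, h6⟩⟩, ?_⟩
    show F _ * F _ = F x
    rw [← map_mul, mul_inv_cancel_left]
  exact (Set.finite_range m).subset hm

end general

section dat
variable {f : Mod g →* ProjGenLinGroup (Fin d) K} {T : Mod g}
  {M : ℕ → GeneralLinearGroup (Fin d) K} {Me : GeneralLinearGroup (Fin d) K}

/-- invariant under all lifts -/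
def GInv (g : ℕ) (T : Mod g) (M : ℕ → GeneralLinearGroup (Fin d) K)
    (Me : GeneralLinearGroup (Fin d) K) (W : Submodule K (Fin d → K)) : Prop :=
  ∀ p ∈ Gh g T M Me, ∀ v ∈ W, op p.2 v ∈ W

theorem ctriv_level [CharP K p] {x : Mod g} (hx : x ∈ Level g p) : CTriv d K x := by
  intro v φ hφ y
  exact comb_congr v (fun j => hx φ hφ y j)

/-- complete reducibility -/
theorem Dat.semi (D : Dat f T M Me)
    (hs : ∀ W, GInv g T M Me W → ∃ W', GInv g T M Me W' ∧ IsCompl W W')
    {q : Mod g × GeneralLinearGroup (Fin d) K} (hq : q ∈ Gh g T M Me) (ht : CTriv d K q.1) :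
    q.2 = 1 := by
  set V0 := Vinv (2 * g) (fun j => op (M j) - 1) (op Me - 1) with hV0
  set V1 := Vim (2 * g) (fun j => op (M j) - 1) (op Me - 1) with hV1
  have i0 : GInv g T M Me V0 := by
    intro p hp v hv
    rw [D.fixV p hp v hv]
    exact hv
  have i1 : GInv g T M Me V1 := by
    intro p hp v hv
    have h := V1.add_mem (D.memV p hp v) hv
    rwa [sub_add_cancel] at h
  obtain ⟨W, hW, hc⟩ := hs V0 i0
  obtain ⟨W', hW', hc'⟩ := hs V1 i1
  -- the images lie in `W`
  have hd : ∀ p ∈ Gh g T M Me, ∀ v, op p.2 v - v ∈ W := by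
    intro p hp v
    have hv : v ∈ V0 ⊔ W := by rw [hc.sup_eq_top]; exact Submodule.mem_top
    obtain ⟨a, ha, b, hb, rfl⟩ := Submodule.mem_sup.1 hv
    have e : op p.2 (a + b) - (a + b) = op p.2 b - b := by
      rw [map_add, D.fixV p hp a ha]; abel
    rw [e]
    exact W.sub_mem (hW p hp b hb) hb
  have h1 : V1 ≤ W := by
    rw [hV1]
    unfold Vim
    rw [Submodule.span_le]
    rintro v ⟨u, ⟨j, hj, rfl⟩ | rfl⟩
    · exact hd _ (chain_Gh ⟨j, hj⟩) u
    · exact hd _ e_Gh u
  have h2 : ∀ v ∈ V1, op q.2 v = v := by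
    intro v hv
    have h3 : (op q.2 - 1) v ∈ V0 ⊓ W := ⟨D.levV q hq ht v hv, hd q hq v⟩
    rw [hc.inf_eq_bot, Submodule.mem_bot] at h3
    exact sub_eq_zero.1 h3
  have h3 : ∀ v ∈ W', op q.2 v = v := by
    intro v hv
    have h4 : op q.2 v - v ∈ V1 ⊓ W' := ⟨D.memV q hq v, W'.sub_mem (hW' q hq v hv) hv⟩
    rw [hc'.inf_eq_bot, Submodule.mem_bot] at h4
    exact sub_eq_zero.1 h4
  apply Units.ext
  apply (Matrix.toLinAlgEquiv' (R := K) (n := Fin d)).injective
  apply LinearMap.ext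
  intro v
  have hv : v ∈ V1 ⊔ W' := by rw [hc'.sup_eq_top]; exact Submodule.mem_top
  obtain ⟨a, ha, b, hb, rfl⟩ := Submodule.mem_sup.1 hv
  rw [Units.val_one, map_one]
  show op q.2 (a + b) = a + b
  rw [map_add, h2 a ha, h3 b hb]

end dat

end Pool.Agent.Run7.h132.PJ
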