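import Mathlib
import Pool.Agent.Run7.h132.PJ.K3

set_option autoImplicit false

/-! Kernels of projective representations of small dimension. -/

namespace Pool.Agent.Run7.h132.PJ

open Pool.Agent.H798R3.MG Pool.Agent.TH35.MG Pool.Agent.H29R2.MG Pool.Agent.R352.MG
  Pool.Agent.R665.MGR Pool.Agent.N66.CQ Matrix Module
open scoped commutatorElement

universe u v
variable {K : Type u} [Field K] {d g p : ℕ}

/-- the properties of the lift -/
structure LF (f : Mod g →* ProjGenLinGroup (Fin d) K)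
    (F : Humphries g →* GeneralLinearGroup (Fin d) K) : Prop where
  cls : ∀ x, ProjGenLinGroup.mk (F x) = f x
  trip : ∀ x y z : Humphries g, CTriv d K (y : Mod g) →
    ((F x : Matrix (Fin d) (Fin d) K) - 1) * ((F y : Matrix (Fin d) (Fin d) K) - 1) *
      ((F z : Matrix (Fin d) (Fin d) K) - 1) = 0
  sq : ∀ x : Humphries g, (∃ j : Fin (2 * g), (x : Mod g) = chainTwist g j) ∨
    IsTwistAt g 1 (x : Mod g) → ((F x : Matrix (Fin d) (Fin d) K) - 1) ^ 2 = 0
  semi : (∀ W : Submodule K (Fin d → K), (∀ x, ∀ v ∈ W, op (F x) v ∈ W) →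
    ∃ W', (∀ x, ∀ v ∈ W', op (F x) v ∈ W') ∧ IsCompl W W') →
      ∀ y : Humphries g, CTriv d K (y : Mod g) → F y = 1

theorem lifting0 (f : Mod g →* ProjGenLinGroup (Fin 0) K) : ∃ F, LF f F := by
  have hsub : ∀ A B : Matrix (Fin 0) (Fin 0) K, A = B := fun A B => Subsingleton.elim _ _
  have hsub2 : ∀ A B : GeneralLinearGroup (Fin 0) K, A = B := fun A B => Units.ext (hsub _ _)
  refine ⟨1, ?_, fun x y z _ => hsub _ _, fun x _ => hsub _ _, fun _ _ _ => hsub2 _ _⟩
  intro x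
  obtain ⟨M, hM⟩ := ProjGenLinGroup.mk_surjective (f x)
  rw [← hM, hsub2 M ((1 : Humphries g →* GeneralLinearGroup (Fin 0) K) x)]

section
variable {f : Mod g →* ProjGenLinGroup (Fin d) K} {T : Mod g}
  {M : ℕ → GeneralLinearGroup (Fin d) K} {Me : GeneralLinearGroup (Fin d) K}
  {F : Humphries g →* GeneralLinearGroup (Fin d) K}

theorem Dat.uniqF (D : Dat f T M Me) (hF : ∀ x : Humphries g, ((x : Mod g), F x) ∈ Gh g T M Me)
    (x : Humphries g) (X : GeneralLinearGroup (Fin d) K)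
    (h2 : ((x : Mod g), X) ∈ Gh g T M Me) : F x = X := by
  have h3 : ((1 : Mod g), F x * X⁻¹) ∈ Gh g T M Me := by
    have h4 := mul_mem (hF x) (inv_mem h2)
    simpa using h4
  exact mul_inv_eq_one.1 (D.inj h3)

theorem sq_of_op (Y : GeneralLinearGroup (Fin d) K) (hY : ∀ v, (op Y - 1) ((op Y - 1) v) = 0) :
    ((Y : Matrix (Fin d) (Fin d) K) - 1) ^ 2 = 0 := by
  apply (Matrix.toLinAlgEquiv' (R := K) (n := Fin d)).injective
  rw [map_zero, pow_two, map_mul, ← op_sub]
  exact LinearMap.ext hY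

theorem Dat.sqF (D : Dat f T M Me) (hF : ∀ x : Humphries g, ((x : Mod g), F x) ∈ Gh g T M Me)
    (x : Humphries g) (hx : (∃ j : Fin (2 * g), (x : Mod g) = chainTwist g j) ∨
      IsTwistAt g 1 (x : Mod g)) : ((F x : Matrix (Fin d) (Fin d) K) - 1) ^ 2 = 0 := by
  rcases hx with ⟨j, hj⟩ | hx
  · rw [D.uniqF hF x (M j) (by rw [hj]; exact chain_Gh j)]
    exact sq_of_op _ (D.rel.sq j j.2)
  · have e : (x : Mod g) = T := twist_unique D.hg D.hT hx
    rw [D.uniqF hF x Me (by rw [e]; exact e_Gh)]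
    exact sq_of_op _ D.rel.sqE

theorem Dat.ginv (D : Dat f T M Me) (hF : ∀ x : Humphries g, ((x : Mod g), F x) ∈ Gh g T M Me)
    (W : Submodule K (Fin d → K)) : GInv g T M Me W ↔ ∀ x, ∀ v ∈ W, op (F x) v ∈ W := by
  constructor
  · intro h x v hv
    exact h _ (hF x) v hv
  · intro h p hp v hv
    have e : F ⟨p.1, D.fst_mem p hp⟩ = p.2 := D.uniqF hF _ _ hp
    rw [← e]
    exact h _ v hv

theorem Dat.clsF (D : Dat f T M Me) (hF : ∀ x : Humphries g, ((x : Mod g), F x) ∈ Gh g T M Me)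
    (x : Humphries g) : ProjGenLinGroup.mk (F x) = f x := D.cls ((x : Mod g), F x) (hF x)

theorem Dat.tripF (D : Dat f T M Me) (hF : ∀ x : Humphries g, ((x : Mod g), F x) ∈ Gh g T M Me)
    (x y z : Humphries g) (ht : CTriv d K (y : Mod g)) :
    ((F x : Matrix (Fin d) (Fin d) K) - 1) * ((F y : Matrix (Fin d) (Fin d) K) - 1) *
      ((F z : Matrix (Fin d) (Fin d) K) - 1) = 0 :=
  D.triple (p := ((x : Mod g), F x)) (q := ((y : Mod g), F y)) (r := ((z : Mod g), F z))
    (hF x) (hF y) (hF z) ht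

theorem Dat.semiF (D : Dat f T M Me) (hF : ∀ x : Humphries g, ((x : Mod g), F x) ∈ Gh g T M Me)
    (hs : ∀ W : Submodule K (Fin d → K), (∀ x, ∀ v ∈ W, op (F x) v ∈ W) →
      ∃ W', (∀ x, ∀ v ∈ W', op (F x) v ∈ W') ∧ IsCompl W W')
    (y : Humphries g) (hy : CTriv d K (y : Mod g)) : F y = 1 := by
  have hs' : ∀ W, GInv g T M Me W → ∃ W', GInv g T M Me W' ∧ IsCompl W W' := by
    intro W hW
    obtain ⟨W', h1, h2⟩ := hs W ((D.ginv hF W).1 hW)
    exact ⟨W', (D.ginv hF W').2 h1, h2⟩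
  exact D.semi hs' (q := ((y : Mod g), F y)) (hF y) hy

theorem Dat.lf (D : Dat f T M Me) (hF : ∀ x : Humphries g, ((x : Mod g), F x) ∈ Gh g T M Me) :
    LF f F :=
  ⟨D.clsF hF, D.tripF hF, D.sqF hF, D.semiF hF⟩

end

/-- The lifting theorem. -/
theorem lifting (hd : d < (g - 8).choose 2) (f : Mod g →* ProjGenLinGroup (Fin d) K) :
    ∃ F, LF f F := by
  rcases Nat.eq_zero_or_pos d with rfl | hd0
  · exact lifting0 f
  have hg : 10 ≤ g := by
    by_contra h
    rw [Nat.choose_eq_zero_of_lt (by omega)] at hd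
    omega
  obtain ⟨T, hT⟩ := twist_exists_at (g := g) (m := 1) (by omega) (by omega)
  obtain ⟨M, Me, D⟩ := exists_dat hd0 hd f hT
  obtain ⟨F, hF⟩ := D.exists_F
  exact ⟨F, D.lf hF⟩

theorem hum_fg' (hd : d < (g - 8).choose 2) : Group.FG (Humphries g) := by
  have hg : 10 ≤ g := by
    by_contra h
    rw [Nat.choose_eq_zero_of_lt (by omega)] at hd
    omega
  exact (Group.fg_iff_subgroup_fg _).2 (hum_fg (by omega))

/-- the image of the Humphries group in characteristic `p` is finite -/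
theorem finite_image [Fact p.Prime] [CharP K p] (hd : d < (g - 8).choose 2)
    (f : Mod g →* ProjGenLinGroup (Fin d) K) : Finite ((Humphries g).map f) := by
  obtain ⟨F, h1, h2, -, -⟩ := lifting hd f
  have hp : p ≠ 0 := (Fact.out : p.Prime).ne_zero
  have hfg := hum_fg' hd
  have h3 := level_fin g p hp
  have h4 : ((Level g p).subgroupOf (Humphries g)).FiniteIndex := inferInstance
  have h5 : Trip F ((Level g p).subgroupOf (Humphries g)) := fun a _ b hb c _ =>
    h2 a b c (ctriv_level (p := p) hb)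
  have h6 := finite_H (p := p) h5
  have h7 : (Humphries g).map f = F.range.map ProjGenLinGroup.mk := by
    ext z
    constructor
    · rintro ⟨x, hx, rfl⟩
      exact ⟨F ⟨x, hx⟩, ⟨_, rfl⟩, h1 _⟩
    · rintro ⟨_, ⟨x, rfl⟩, rfl⟩
      exact ⟨x, x.2, (h1 x).symm⟩
  rw [h7]
  exact Finite.of_surjective _ (MonoidHom.subgroupMap_surjective ProjGenLinGroup.mk F.range)

/-- kernels of homomorphisms to subgroups of `PGL_d` without normal `p`-subgroups -/
theorem kill_gen {Q : Type v} [Group Q] [hp : Fact p.Prime] [CharP K p]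
    (hd : d < (g - 8).choose 2) (π : Mod g →* Q) (ι : Q →* ProjGenLinGroup (Fin d) K)
    (hι : Function.Injective ι)
    (h : ∀ P : Subgroup ((Humphries g).map π), P.Normal → IsPGroup p P → P = ⊥)
    {y : Mod g} (hy : y ∈ HL g p) : π y = 1 := by
  obtain ⟨F, h1, h2, -, -⟩ := lifting hd (ι.comp π)
  have h5 : Trip F ((Level g p).subgroupOf (Humphries g)) := fun a _ b hb c _ =>
    h2 a b c (ctriv_level (p := p) hb)
  let P : Subgroup ((Humphries g).map π) := ((HL g p).map π).subgroupOf ((Humphries g).map π)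
  have hn : P.Normal := by
    constructor
    rintro ⟨_, hz⟩ hz2 ⟨_, x, hx, rfl⟩
    obtain ⟨z, hz3, rfl⟩ := Subgroup.mem_subgroupOf.1 hz2
    rw [Subgroup.mem_subgroupOf]
    refine ⟨x * z * x⁻¹, ⟨?_, (level_normal g p).conj_mem z hz3.2 x⟩, ?_⟩
    · exact (Humphries g).mul_mem ((Humphries g).mul_mem hx hz3.1) ((Humphries g).inv_mem hx)
    · rw [map_mul, map_mul, map_inv]
      rfl
  have hpg : IsPGroup p P := by
    rintro ⟨⟨_, hz⟩, hz2⟩
    obtain ⟨z, hz3, rfl⟩ := Subgroup.mem_subgroupOf.1 hz2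
    refine ⟨2, ?_⟩
    apply Subtype.ext
    apply Subtype.ext
    apply hι
    show ι (π z ^ p ^ 2) = ι 1
    have e := lev_pow' h5 (y := ⟨z, hz3.1⟩) hz3.2 three_le
    rw [map_pow, map_one]
    have e2 := h1 ⟨z, hz3.1⟩
    have e3 : ι (π z) = ProjGenLinGroup.mk (F ⟨z, hz3.1⟩) := e2.symm
    rw [e3, ← map_pow, e, map_one]
  have h1 := h P hn hpg
  have h2 : (⟨π y, ⟨y, hy.1, rfl⟩⟩ : (Humphries g).map π) ∈ P := by
    rw [Subgroup.mem_subgroupOf]
    exact ⟨y, hy, rfl⟩
  rw [h1, Subgroup.mem_bot] at h2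
  exact congrArg Subtype.val h2

/-- a projective representation with finite image in characteristic zero is trivial -/
theorem char_zero [CharZero K] (hd : d < (g - 8).choose 2)
    (f : Mod g →* ProjGenLinGroup (Fin d) K) (hf : Finite ((Humphries g).map f)) :
    ∀ x ∈ Humphries g, f x = 1 := by
  obtain ⟨F, h1, -, h3, -⟩ := lifting hd f
  have key : ∀ x : Humphries g, (∃ j : Fin (2 * g), (x : Mod g) = chainTwist g j) ∨
      IsTwistAt g 1 (x : Mod g) → f x = 1 := by
    intro x hx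
    have hfin : IsOfFinOrder (⟨f x, ⟨x, x.2, rfl⟩⟩ : (Humphries g).map f) := isOfFinOrder_of_finite _
    obtain ⟨k, hk, hk2⟩ := isOfFinOrder_iff_pow_eq_one.1 hfin
    have hk3 : f x ^ k = 1 := congrArg Subtype.val hk2
    rw [← h1 x] at hk3 ⊢
    exact class_ord (h3 x hx) (Nat.cast_ne_zero.2 hk.ne') hk3
  intro x hx
  induction hx using Subgroup.closure_induction with
  | mem x hx2 =>
    rcases hx2 with ⟨j, rfl⟩ | hx2
    · exact key ⟨_, chain_mem j⟩ (Or.inl ⟨j, rfl⟩)
    · exact key ⟨x, e_mem hx2⟩ (Or.inr hx2)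
  | one => exact map_one f
  | mul x y hx hy h1 h2 => rw [map_mul, h1, h2, one_mul]
  | inv x hx h1 => rw [map_inv, h1, inv_one]

end Pool.Agent.Run7.h132.PJ
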