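import Mathlib
import Pool.Agent.Run7.h132.PJ.K4

set_option autoImplicit false

/-! Definitions for `MP_59b15d_al.ProjectiveQuotients`. -/

namespace Pool.Agent.Run7.h132.PQ

open Pool.Agent.H29R2.MG Pool.Agent.TH35.MG Pool.Agent.R352.MG Pool.Agent.R665.MGR

universe u v

/-- The projective linear group: the quotient of `GL_d(K)` by its center. -/
abbrev PGL (d : ℕ) (K : Type u) [Field K] : Type u := Matrix.ProjGenLinGroup (Fin d) K

/-- The general linear group. -/
abbrev GLd (d : ℕ) (K : Type u) [Field K] : Type u := Matrix.GeneralLinearGroup (Fin d) K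

section defs

variable {g d : ℕ} {K : Type u} [Field K]

/-- The class `x` acts trivially on `H_1(S; ℤ/p)`. -/
def TrivMod (p : ℕ) (x : Mod g) : Prop :=
  ∀ φ : orientedAut g, classOf g φ = x → ∀ (y : SurfaceGroup g) (j : Fin g ⊕ Fin g),
    (p : ℤ) ∣ homologyClass (φ.1 y) j - homologyClass y j

/-- The invertible matrix `M` represents the element `p` of `PGL_d(K)`. -/
def Represents (M : GLd d K) (p : PGL d K) : Prop := Matrix.ProjGenLinGroup.mk M = p

/-- The matrix `M - 1`. -/
def Diff (M : GLd d K) : Matrix (Fin d) (Fin d) K := (M : Matrix (Fin d) (Fin d) K) - 1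

/-- The linear representation `F` of the Humphries group lifts `f`, Humphries' twists satisfy
`(F(t) - 1)^2 = 0`, and if `K` has characteristic `p > 0`, then
`(F(x) - 1) (F(y) - 1) (F(z) - 1) = 0` for all `x`, `z` and all `y` acting trivially on
`H_1(S; ℤ/p)`. -/
def IsLift (f : Mod g →* PGL d K) (F : Humphries g →* GLd d K) : Prop :=
  (∀ x : Humphries g, Represents (F x) (f x)) ∧
  (∀ t : Humphries g, (∃ j : Fin (2 * g), (t : Mod g) = chainTwist g j) ∨
    IsTwistAt g 1 (t : Mod g) → Diff (F t) ^ 2 = 0) ∧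
  ∀ p : ℕ, 0 < p → CharP K p → ∀ x y z : Humphries g, TrivMod p (y : Mod g) →
    Diff (F x) * Diff (F y) * Diff (F z) = 0

/-- The image of the Humphries group. -/
def Image {Q : Type v} [Group Q] (f : Mod g →* Q) : Subgroup Q := (Humphries g).map f

/-- The group `f (Humphries g)` has no normal `p`-subgroup other than `1`. -/
def NoNormal {Q : Type v} [Group Q] (p : ℕ) (f : Mod g →* Q) : Prop :=
  ∀ P : Subgroup (Image f), P.Normal → IsPGroup p P → P = ⊥

/-- `W` is invariant under all matrices representing the elements of `f (Humphries g)`. -/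
def Invariant (f : Mod g →* PGL d K) (W : Submodule K (Fin d → K)) : Prop :=
  ∀ x ∈ Humphries g, ∀ M : GLd d K, Represents M (f x) → ∀ v ∈ W, M.1.mulVec v ∈ W

/-- Every invariant subspace of `K ^ d` has an invariant complement. -/
def Semisimple (f : Mod g →* PGL d K) : Prop :=
  ∀ W : Submodule K (Fin d → K), Invariant f W →
    ∃ W' : Submodule K (Fin d → K), Invariant f W' ∧ IsCompl W W'

/-- `f` kills the classes, in `Humphries g`, of all the automorphisms which act on `π_1(S) / Γ` as an
inner automorphism. -/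
def KillsCongruence {Q : Type v} [Group Q] (Γ : Subgroup (SurfaceGroup g)) (f : Mod g →* Q) :
    Prop :=
  ∀ φ : orientedAut g,
    (∃ y : SurfaceGroup g, ∀ x : SurfaceGroup g, φ.1 x * (y * x * y⁻¹)⁻¹ ∈ Γ) →
      classOf g φ ∈ Humphries g → f (classOf g φ) = 1

end defs

/-- Fields of characteristic `p`. -/
def CharPCase (g d p : ℕ) (Γ : Subgroup (SurfaceGroup g)) (K : Type u) [Field K] : Prop :=
  ∀ f : Mod g →* PGL d K, Finite (Image f) ∧
    (NoNormal p f ∨ Semisimple f ∨ ((2 * g - 2 : ℕ) : K) ≠ 0 →
      (∀ y ∈ Humphries g, TrivMod p y → f y = 1) ∧ KillsCongruence Γ f)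

/-- Quotients whose Humphries part is finite and which embed in `PGL_d` of some field `K` are congruence
quotients, if the Humphries part has no nontrivial normal subgroups of prime power order or
`2 g - 2` is not zero in `K`. -/
def QuotientCase (g d : ℕ) : Prop :=
  ∀ (Q : Type v) [Group Q] (π : Mod g →* Q) (K : Type u) [Field K] (ι : Q →* PGL d K),
    Function.Injective ι → Finite (Image π) →
    (∀ p : ℕ, p.Prime → NoNormal p π) ∨ ((2 * g - 2 : ℕ) : K) ≠ 0 →
    ∃ Γ : Subgroup (SurfaceGroup g), Γ.Characteristic ∧ Γ.FiniteIndex ∧ KillsCongruence Γ π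

end Pool.Agent.Run7.h132.PQ
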