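import Mathlib
import Pool.Agent.R665.MGR.Rep

set_option autoImplicit false

/-! Definitions for `MP_97fa38_al.ProjectiveClassification`. -/

namespace Pool.Agent.Run7.h132.PC

open Pool.Agent.H29R2.MG Pool.Agent.TH35.MG Pool.Agent.R352.MG Pool.Agent.R665.MGR

universe u

/-- The projective linear group: the quotient of `GL_d(K)` by its center. -/
abbrev PGL (d : ℕ) (K : Type u) [Field K] : Type u := Matrix.ProjGenLinGroup (Fin d) K

/-- The general linear group. -/
abbrev GLd (d : ℕ) (K : Type u) [Field K] : Type u := Matrix.GeneralLinearGroup (Fin d) K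

variable {g d : ℕ} {K : Type u} [Field K]

/-- The representation `F` of the Humphries group lifts the projective representation `f`. -/
def Lifts (f : Mod g →* PGL d K) (F : Humphries g →* GLd d K) : Prop :=
  ∀ x : Humphries g, Matrix.ProjGenLinGroup.mk (F x) = f x

/-- The matrix `F(x)` applied to the vector `v`. -/
def actBy (F : Humphries g →* GLd d K) (x : Humphries g) (v : Fin d → K) : Fin d → K :=
  (F x).1.mulVec v

/-- The combination `Σ n_i u_i`. -/
def lin (u : Fin g ⊕ Fin g → (Fin d → K)) (n : Fin g ⊕ Fin g → ℤ) : Fin d → K :=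
  ∑ i, (n i : K) • u i

/-- `U` is a copy of the homology `H_1(S; K)`: it has a basis `u_i` such that the map sending the
homology class `Σ n_i [gen i]` to `Σ n_i u_i` is equivariant. -/
def IsHomologyOf (F : Humphries g →* GLd d K) (U : Submodule K (Fin d → K)) : Prop :=
  ∃ u : Fin g ⊕ Fin g → (Fin d → K), LinearIndependent K u ∧
    Submodule.span K (Set.range u) = U ∧
    ∀ (φ : orientedAut g) (h : classOf g φ ∈ Humphries g) (y : SurfaceGroup g),
      actBy F ⟨classOf g φ, h⟩ (lin u (homologyClass y)) = lin u (homologyClass (φ.1 y))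

/-- `F` is the direct sum of a trivial representation and of `m` copies of `H_1(S; K)`. -/
def SumOf (m : ℕ) (F : Humphries g →* GLd d K) : Prop :=
  ∃ (V₀ : Submodule K (Fin d → K)) (U : Fin m → Submodule K (Fin d → K)),
    (∀ x, ∀ v ∈ V₀, actBy F x v = v) ∧ (∀ k, IsHomologyOf F (U k)) ∧ iSupIndep U ∧
    IsCompl V₀ (⨆ k, U k) ∧ Module.finrank K V₀ + m * (2 * g) = d

/-- The class `y` acts on `H_1(S; K)` as the scalar `c`. -/
def ActsAs (c : K) (y : Mod g) : Prop :=
  ∀ φ : orientedAut g, classOf g φ = y → ∀ (x : SurfaceGroup g) (j : Fin g ⊕ Fin g),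
    (homologyClass (φ.1 x) j : K) = c * homologyClass x j

end Pool.Agent.Run7.h132.PC
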