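import Mathlib


set_option autoImplicit false
set_option linter.unusedSimpArgs false

/-! The twists `a_m` belong to the Humphries group: free group computations (generated). -/

namespace Pool.Agent.Run7.h132.PJ.LK

/-- the images of the generators of three handles -/
@[ext] structure Tri (G : Type*) where
  a0 : G
  b0 : G
  a1 : G
  b1 : G
  a2 : G
  b2 : G

section
variable {G : Type*} [Group G]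

/-- images under `a0` -/
def mA0 (x : Tri G) : Tri G :=
  ⟨x.a0,
    x.b0 * x.a0,
    x.a1,
    x.b1,
    x.a2,
    x.b2⟩

/-- images under `a1` -/
def mA1 (x : Tri G) : Tri G :=
  ⟨x.a0,
    x.b0,
    x.a1,
    x.b1 * x.a1,
    x.a2,
    x.b2⟩

/-- images under `a2` -/
def mA2 (x : Tri G) : Tri G :=
  ⟨x.a0,
    x.b0,
    x.a1,
    x.b1,
    x.a2,
    x.b2 * x.a2⟩

/-- images under `c1` -/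
def mB0 (x : Tri G) : Tri G :=
  ⟨x.a0 * x.b0⁻¹,
    x.b0,
    x.a1,
    x.b1,
    x.a2,
    x.b2⟩

/-- images under `c3` -/
def mB1 (x : Tri G) : Tri G :=
  ⟨x.a0,
    x.b0,
    x.a1 * x.b1⁻¹,
    x.b1,
    x.a2,
    x.b2⟩

/-- images under `c5` -/
def mB2 (x : Tri G) : Tri G :=
  ⟨x.a0,
    x.b0,
    x.a1,
    x.b1,
    x.a2 * x.b2⁻¹,
    x.b2⟩

/-- images under `c2` -/
def mC1 (x : Tri G) : Tri G :=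
  ⟨x.a0,
    x.a1⁻¹ * x.b0 * x.a0,
    x.a1⁻¹ * x.b0 * x.a0 * x.b0⁻¹ * x.a1 * x.b0 * x.a0⁻¹ * x.b0⁻¹ * x.a1,
    x.b1 * x.b0 * x.a0⁻¹ * x.b0⁻¹ * x.a1,
    x.a2,
    x.b2⟩

/-- images under `c4` -/
def mC2 (x : Tri G) : Tri G :=
  ⟨x.a0,
    x.b0,
    x.a1,
    x.a2⁻¹ * x.b1 * x.a1,
    x.a2⁻¹ * x.b1 * x.a1 * x.b1⁻¹ * x.a2 * x.b1 * x.a1⁻¹ * x.b1⁻¹ * x.a2,
    x.b2 * x.b1 * x.a1⁻¹ * x.b1⁻¹ * x.a2⟩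

/-- images under the inverse of `a1` -/
def mA1i (x : Tri G) : Tri G :=
  ⟨x.a0,
    x.b0,
    x.a1,
    x.b1 * x.a1⁻¹,
    x.a2,
    x.b2⟩

/-- images under the inverse of `c1` -/
def mB0i (x : Tri G) : Tri G :=
  ⟨x.a0 * x.b0,
    x.b0,
    x.a1,
    x.b1,
    x.a2,
    x.b2⟩

/-- images under the inverse of `c2` -/
def mC1i (x : Tri G) : Tri G :=
  ⟨x.a0,
    x.b0 * x.a0⁻¹ * x.b0⁻¹ * x.a1 * x.b0,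
    x.b0 * x.a0⁻¹ * x.b0⁻¹ * x.a1 * x.b0 * x.a0 * x.b0⁻¹,
    x.b1 * x.a1⁻¹ * x.b0 * x.a0 * x.b0⁻¹,
    x.a2,
    x.b2⟩

/-- images under the inverse of `c3` -/
def mB1i (x : Tri G) : Tri G :=
  ⟨x.a0,
    x.b0,
    x.a1 * x.b1,
    x.b1,
    x.a2,
    x.b2⟩

/-- images under the inverse of `c4` -/
def mC2i (x : Tri G) : Tri G :=
  ⟨x.a0,
    x.b0,
    x.a1,
    x.b1 * x.a1⁻¹ * x.b1⁻¹ * x.a2 * x.b1,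
    x.b1 * x.a1⁻¹ * x.b1⁻¹ * x.a2 * x.b1 * x.a1 * x.b1⁻¹,
    x.b2 * x.a2⁻¹ * x.b1 * x.a1 * x.b1⁻¹⟩

/-- images under the inverse of `c5` -/
def mB2i (x : Tri G) : Tri G :=
  ⟨x.a0,
    x.b0,
    x.a1,
    x.b1,
    x.a2 * x.b2,
    x.b2⟩

/-- the twist number 1 -/
def mT1 (x : Tri G) : Tri G :=
  ⟨x.a0 * x.a0 * x.b0⁻¹,
    x.b0 * x.a0 * x.b0⁻¹,
    x.a1,
    x.b1,
    x.a2,
    x.b2⟩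

/-- the twist number 2 -/
def mT2 (x : Tri G) : Tri G :=
  ⟨x.a0 * x.b0⁻¹ * x.a1,
    x.a1⁻¹ * x.b0 * x.a1,
    x.a1⁻¹ * x.b0 * x.a1 * x.b0⁻¹ * x.a1,
    x.b1 * x.b0⁻¹ * x.a1,
    x.a2,
    x.b2⟩

/-- the twist number 3 -/
def mT3 (x : Tri G) : Tri G :=
  ⟨x.a0 * x.b0⁻¹ * x.a1 * x.b1,
    x.b1⁻¹ * x.a1⁻¹ * x.b0 * x.a1 * x.b1,
    x.b1⁻¹ * x.a1⁻¹ * x.b0 * x.a1,
    x.b1 * x.b0⁻¹ * x.a1 * x.b1,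
    x.a2,
    x.b2⟩

/-- the twist number 4 -/
def mT4 (x : Tri G) : Tri G :=
  ⟨x.a0 * x.b0⁻¹ * x.a1 * x.a2⁻¹ * x.b1 * x.a1,
    x.a1⁻¹ * x.b1⁻¹ * x.a2 * x.a1⁻¹ * x.b0 * x.a1 * x.a2⁻¹ * x.b1 * x.a1,
    x.a1⁻¹ * x.b1⁻¹ * x.a2 * x.a1⁻¹ * x.b0 * x.a1,
    x.a2⁻¹ * x.b1 * x.a1 * x.b0⁻¹ * x.a1 * x.b1 * x.b0⁻¹ * x.a1 * x.a2⁻¹ * x.b1 * x.a1,
    x.a2⁻¹ * x.b1 * x.a1 * x.b0⁻¹ * x.a1 * x.a2 * x.a1⁻¹ * x.b0 * x.a1⁻¹ * x.b1⁻¹ * x.a2,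
    x.b2 * x.a1⁻¹ * x.b0 * x.a1⁻¹ * x.b1⁻¹ * x.a2⟩

/-- the twist number 5 -/
def mT5 (x : Tri G) : Tri G :=
  ⟨x.a0 * x.b0⁻¹ * x.a1 * x.b2 * x.a2⁻¹ * x.b1 * x.a1,
    x.a1⁻¹ * x.b1⁻¹ * x.a2 * x.b2⁻¹ * x.a1⁻¹ * x.b0 * x.a1 * x.b2 * x.a2⁻¹ * x.b1 * x.a1,
    x.a1⁻¹ * x.b1⁻¹ * x.a2 * x.b2⁻¹ * x.a1⁻¹ * x.b0 * x.a1,
    x.b2 * x.a2⁻¹ * x.b1 * x.a1 * x.b0⁻¹ * x.a1 * x.b1 * x.b0⁻¹ * x.a1 * x.b2 * x.a2⁻¹ * x.b1 * x.a1,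
    x.b2 * x.a2⁻¹ * x.b1 * x.a1 * x.b0⁻¹ * x.a1 * x.a2 * x.b2⁻¹ * x.a1⁻¹ * x.b0 * x.a1⁻¹ * x.b1⁻¹ * x.a2 * x.a1⁻¹ * x.b0 * x.a1⁻¹ * x.b1⁻¹ * x.a2 * x.b2⁻¹,
    x.b2 * x.a1⁻¹ * x.b0 * x.a1⁻¹ * x.b1⁻¹ * x.a2 * x.b2⁻¹⟩

/-- the twist number 6 -/
def mT6 (x : Tri G) : Tri G :=
  ⟨x.a0 * x.b0⁻¹ * x.a1 * x.b2 * x.a2⁻¹ * x.b1,
    x.b1⁻¹ * x.a2 * x.b2⁻¹ * x.a1⁻¹ * x.b0 * x.a1 * x.b2 * x.a2⁻¹ * x.b1,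
    x.b1⁻¹ * x.a2 * x.b2⁻¹ * x.a1⁻¹ * x.b0 * x.a1,
    x.b2 * x.a2⁻¹ * x.b1 * x.b0⁻¹ * x.a1 * x.b1,
    x.b2 * x.a2⁻¹ * x.b1 * x.b0⁻¹ * x.a1 * x.a2 * x.b2⁻¹ * x.a1⁻¹ * x.b0 * x.b1⁻¹ * x.a2 * x.a1⁻¹ * x.b0 * x.b1⁻¹ * x.a2 * x.b2⁻¹,
    x.b2 * x.a1⁻¹ * x.b0 * x.b1⁻¹ * x.a2 * x.b2⁻¹⟩

/-- the twist number 7 -/
def mT7 (x : Tri G) : Tri G :=
  ⟨x.a0 * x.b0⁻¹ * x.a1 * x.b1⁻¹ * x.b2 * x.a2⁻¹ * x.b1,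
    x.b1⁻¹ * x.a2 * x.b2⁻¹ * x.b1 * x.a1⁻¹ * x.b0 * x.a1 * x.b1⁻¹ * x.b2 * x.a2⁻¹ * x.b1,
    x.b1⁻¹ * x.a2 * x.b2⁻¹ * x.b1 * x.a1⁻¹ * x.b0 * x.a1 * x.b1⁻¹ * x.b2 * x.a2⁻¹ * x.b1 * x.b0⁻¹ * x.a1,
    x.b2 * x.a2⁻¹ * x.b1 * x.b0⁻¹ * x.a1,
    x.b2 * x.a2⁻¹ * x.b1 * x.b0⁻¹ * x.a1 * x.b1⁻¹ * x.a2 * x.b2⁻¹ * x.b1 * x.a1⁻¹ * x.b0 * x.b1⁻¹ * x.a2 * x.b1 * x.a1⁻¹ * x.b0 * x.b1⁻¹ * x.a2 * x.b2⁻¹,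
    x.b2 * x.b1 * x.a1⁻¹ * x.b0 * x.b1⁻¹ * x.a2 * x.b2⁻¹⟩

/-- the twist number 8 -/
def mT8 (x : Tri G) : Tri G :=
  ⟨x.a0 * x.b0⁻¹ * x.b1⁻¹ * x.a2 * x.b2 * x.a2⁻¹ * x.b1,
    x.b1⁻¹ * x.a2 * x.b2⁻¹ * x.a2⁻¹ * x.b1 * x.b0 * x.b1⁻¹ * x.a2 * x.b2 * x.a2⁻¹ * x.b1,
    x.b1⁻¹ * x.a2 * x.b2⁻¹ * x.a2⁻¹ * x.b1 * x.b0 * x.b1⁻¹ * x.a2 * x.b2 * x.a2⁻¹ * x.b1 * x.b0⁻¹ * x.a1,
    x.b1,
    x.a2 * x.b2⁻¹ * x.a2⁻¹ * x.b1 * x.b0 * x.b1⁻¹ * x.a2,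
    x.b2⟩

/-- the twist number 9 -/
def mT9 (x : Tri G) : Tri G :=
  ⟨x.a0 * x.b0⁻¹ * x.b1⁻¹ * x.a2 * x.b2 * x.a2⁻¹ * x.b1 * x.a1⁻¹ * x.b0 * x.a0 * x.b0⁻¹,
    x.b1⁻¹ * x.a2 * x.b2 * x.a2⁻¹ * x.b1 * x.a1⁻¹ * x.b0 * x.a0 * x.b0⁻¹,
    x.b1⁻¹ * x.a2 * x.b2 * x.a2⁻¹ * x.b1 * x.a1⁻¹ * x.b0 * x.a0 * x.b0⁻¹ * x.b0⁻¹ * x.a1 * x.b1⁻¹ * x.a2 * x.b2⁻¹ * x.a2⁻¹ * x.b1 * x.b0 * x.b0 * x.a0⁻¹ * x.b0⁻¹ * x.a1,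
    x.a2 * x.b2⁻¹ * x.a2⁻¹ * x.b1 * x.b0 * x.b0 * x.a0⁻¹ * x.b0⁻¹ * x.a1,
    x.a2 * x.b2⁻¹ * x.a2⁻¹ * x.b1 * x.b0 * x.b0 * x.a0⁻¹ * x.b0⁻¹ * x.a1 * x.b1⁻¹ * x.a2,
    x.b2⟩

/-- the twist number 10 -/
def mT10 (x : Tri G) : Tri G :=
  ⟨x.a0 * x.b0⁻¹ * x.b1⁻¹ * x.a2 * x.b2 * x.a2⁻¹ * x.a1⁻¹ * x.b0 * x.a0 * x.b0⁻¹,
    x.b1⁻¹ * x.a2 * x.b2 * x.a2⁻¹ * x.a1⁻¹ * x.b0 * x.a0 * x.b0⁻¹,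
    x.b1⁻¹ * x.a2 * x.b2 * x.a2⁻¹ * x.a1⁻¹ * x.b0 * x.a0 * x.b0⁻¹ * x.b0⁻¹ * x.a1,
    x.a2 * x.b2⁻¹ * x.a2⁻¹ * x.b1 * x.b0 * x.b0 * x.a0⁻¹ * x.b0⁻¹ * x.a1 * x.b1,
    x.a2 * x.b2⁻¹ * x.a2⁻¹ * x.b1 * x.b0 * x.b0 * x.a0⁻¹ * x.b0⁻¹ * x.a1 * x.a2,
    x.b2⟩

/-- the twist number 11 -/
def mT11 (x : Tri G) : Tri G :=
  ⟨x.a0 * x.b0⁻¹ * x.a1⁻¹ * x.b1⁻¹ * x.a2 * x.b2 * x.a2⁻¹ * x.a1⁻¹ * x.b0 * x.a0 * x.b0⁻¹,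
    x.a1⁻¹ * x.b1⁻¹ * x.a2 * x.b2 * x.a2⁻¹ * x.a1⁻¹ * x.b0 * x.a0 * x.b0⁻¹,
    x.a1⁻¹ * x.b1⁻¹ * x.a2 * x.b2 * x.a2⁻¹ * x.a1⁻¹ * x.b0 * x.a0 * x.b0⁻¹ * x.b0⁻¹ * x.a1,
    x.a2 * x.b2⁻¹ * x.a2⁻¹ * x.b1 * x.a1 * x.b0 * x.b0 * x.a0⁻¹ * x.b0⁻¹ * x.a1 * x.b1 * x.b0 * x.b0 * x.a0⁻¹ * x.b0⁻¹ * x.a1 * x.a2 * x.b2⁻¹ * x.a2⁻¹ * x.b1 * x.a1,
    x.a2 * x.b2⁻¹ * x.a2⁻¹ * x.b1 * x.a1 * x.b0 * x.b0 * x.a0⁻¹ * x.b0⁻¹ * x.a1 * x.a2,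
    x.b2⟩

/-- the twist number 12 -/
def mT12 (x : Tri G) : Tri G :=
  ⟨x.a0,
    x.a1⁻¹ * x.b1⁻¹ * x.a2 * x.b2 * x.a2⁻¹ * x.a1⁻¹ * x.b0 * x.a0,
    x.a1⁻¹ * x.b1⁻¹ * x.a2 * x.b2 * x.a2⁻¹ * x.a1⁻¹ * x.b0 * x.a0 * x.b0⁻¹ * x.a1,
    x.a2 * x.b2⁻¹ * x.a2⁻¹ * x.b1 * x.a1 * x.b0 * x.a0⁻¹ * x.b0⁻¹ * x.a1 * x.b1 * x.b0 * x.a0⁻¹ * x.b0⁻¹ * x.a1 * x.a2 * x.b2⁻¹ * x.a2⁻¹ * x.b1 * x.a1,
    x.a2 * x.b2⁻¹ * x.a2⁻¹ * x.b1 * x.a1 * x.b0 * x.a0⁻¹ * x.b0⁻¹ * x.a1 * x.a2,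
    x.b2⟩

/-- the twist number 13 -/
def mT13 (x : Tri G) : Tri G :=
  ⟨x.a0,
    x.b0,
    x.b1⁻¹ * x.a2 * x.b2 * x.a2⁻¹,
    x.a2 * x.b2⁻¹ * x.a2⁻¹ * x.b1 * x.a1 * x.b1,
    x.a2 * x.b2⁻¹ * x.a2⁻¹ * x.b1 * x.a1 * x.a2,
    x.b2⟩

/-- the twist number 14 -/
def mT14 (x : Tri G) : Tri G :=
  ⟨x.a0,
    x.b0,
    x.a1,
    x.a2 * x.b2⁻¹ * x.a2⁻¹ * x.b1 * x.a1,
    x.a2 * x.b2⁻¹ * x.a2⁻¹ * x.b1 * x.a1 * x.b1⁻¹ * x.a2,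
    x.b2⟩

/-- the twist number 15 -/
def mT15 (x : Tri G) : Tri G :=
  ⟨x.a0,
    x.b0,
    x.a1,
    x.b1,
    x.a2 * x.a2 * x.b2⁻¹,
    x.b2 * x.a2 * x.b2⁻¹⟩

theorem s0 (x : Tri G) : mA0 (mB0 x) = mB0 (mT1 x) := by
  ext <;> simp only [mA0, mT1, mB0, mul_inv_rev, inv_inv, mul_assoc, inv_mul_cancel_left, mul_inv_cancel_left, inv_mul_cancel, mul_inv_cancel, mul_one, one_mul]

theorem s1 (x : Tri G) : mT1 (mC1 x) = mC1 (mT2 x) := by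
  ext <;> simp only [mT1, mT2, mC1, mul_inv_rev, inv_inv, mul_assoc, inv_mul_cancel_left, mul_inv_cancel_left, inv_mul_cancel, mul_inv_cancel, mul_one, one_mul]

theorem s2 (x : Tri G) : mB1 (mT2 x) = mT3 (mB1 x) := by
  ext <;> simp only [mT2, mT3, mB1, mul_inv_rev, inv_inv, mul_assoc, inv_mul_cancel_left, mul_inv_cancel_left, inv_mul_cancel, mul_inv_cancel, mul_one, one_mul]

theorem s3 (x : Tri G) : mT3 (mC2 x) = mC2 (mT4 x) := by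
  ext <;> simp only [mT3, mT4, mC2, mul_inv_rev, inv_inv, mul_assoc, inv_mul_cancel_left, mul_inv_cancel_left, inv_mul_cancel, mul_inv_cancel, mul_one, one_mul]

theorem s4 (x : Tri G) : mT4 (mB2 x) = mB2 (mT5 x) := by
  ext <;> simp only [mT4, mT5, mB2, mul_inv_rev, inv_inv, mul_assoc, inv_mul_cancel_left, mul_inv_cancel_left, inv_mul_cancel, mul_inv_cancel, mul_one, one_mul]

theorem s5 (x : Tri G) : mA1 (mT5 x) = mT6 (mA1 x) := by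
  ext <;> simp only [mT5, mT6, mA1, mul_inv_rev, inv_inv, mul_assoc, inv_mul_cancel_left, mul_inv_cancel_left, inv_mul_cancel, mul_inv_cancel, mul_one, one_mul]

theorem s6 (x : Tri G) : mT6 (mB1 x) = mB1 (mT7 x) := by
  ext <;> simp only [mT6, mT7, mB1, mul_inv_rev, inv_inv, mul_assoc, inv_mul_cancel_left, mul_inv_cancel_left, inv_mul_cancel, mul_inv_cancel, mul_one, one_mul]

theorem s7 (x : Tri G) : mT7 (mC2 x) = mC2 (mT8 x) := by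
  ext <;> simp only [mT7, mT8, mC2, mul_inv_rev, inv_inv, mul_assoc, inv_mul_cancel_left, mul_inv_cancel_left, inv_mul_cancel, mul_inv_cancel, mul_one, one_mul]

theorem s8 (x : Tri G) : mC1 (mT8 x) = mT9 (mC1 x) := by
  ext <;> simp only [mT8, mT9, mC1, mul_inv_rev, inv_inv, mul_assoc, inv_mul_cancel_left, mul_inv_cancel_left, inv_mul_cancel, mul_inv_cancel, mul_one, one_mul]

theorem s9 (x : Tri G) : mB1 (mT9 x) = mT10 (mB1 x) := by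
  ext <;> simp only [mT9, mT10, mB1, mul_inv_rev, inv_inv, mul_assoc, inv_mul_cancel_left, mul_inv_cancel_left, inv_mul_cancel, mul_inv_cancel, mul_one, one_mul]

theorem s10 (x : Tri G) : mT10 (mA1 x) = mA1 (mT11 x) := by
  ext <;> simp only [mT10, mT11, mA1, mul_inv_rev, inv_inv, mul_assoc, inv_mul_cancel_left, mul_inv_cancel_left, inv_mul_cancel, mul_inv_cancel, mul_one, one_mul]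

theorem s11 (x : Tri G) : mB0 (mT11 x) = mT12 (mB0 x) := by
  ext <;> simp only [mT11, mT12, mB0, mul_inv_rev, inv_inv, mul_assoc, inv_mul_cancel_left, mul_inv_cancel_left, inv_mul_cancel, mul_inv_cancel, mul_one, one_mul]

theorem s12 (x : Tri G) : mC1 (mT12 x) = mT13 (mC1 x) := by
  ext <;> simp only [mT12, mT13, mC1, mul_inv_rev, inv_inv, mul_assoc, inv_mul_cancel_left, mul_inv_cancel_left, inv_mul_cancel, mul_inv_cancel, mul_one, one_mul]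

theorem s13 (x : Tri G) : mT13 (mB1 x) = mB1 (mT14 x) := by
  ext <;> simp only [mT13, mT14, mB1, mul_inv_rev, inv_inv, mul_assoc, inv_mul_cancel_left, mul_inv_cancel_left, inv_mul_cancel, mul_inv_cancel, mul_one, one_mul]

theorem s14 (x : Tri G) : mC2 (mT14 x) = mT15 (mC2 x) := by
  ext <;> simp only [mT14, mT15, mC2, mul_inv_rev, inv_inv, mul_assoc, inv_mul_cancel_left, mul_inv_cancel_left, inv_mul_cancel, mul_inv_cancel, mul_one, one_mul]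

theorem s15 (x : Tri G) : mB2 (mT15 x) = mA2 (mB2 x) := by
  ext <;> simp only [mT15, mA2, mB2, mul_inv_rev, inv_inv, mul_assoc, inv_mul_cancel_left, mul_inv_cancel_left, inv_mul_cancel, mul_inv_cancel, mul_one, one_mul]

theorem i_a1 (x : Tri G) : mA1i (mA1 x) = x := by
  ext <;> simp only [mA1, mA1i, mul_inv_rev, inv_inv, mul_assoc, inv_mul_cancel_left, mul_inv_cancel_left, inv_mul_cancel, mul_inv_cancel, mul_one, one_mul]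

theorem i_c1 (x : Tri G) : mB0i (mB0 x) = x := by
  ext <;> simp only [mB0, mB0i, mul_inv_rev, inv_inv, mul_assoc, inv_mul_cancel_left, mul_inv_cancel_left, inv_mul_cancel, mul_inv_cancel, mul_one, one_mul]

theorem i_c2 (x : Tri G) : mC1i (mC1 x) = x := by
  ext <;> simp only [mC1, mC1i, mul_inv_rev, inv_inv, mul_assoc, inv_mul_cancel_left, mul_inv_cancel_left, inv_mul_cancel, mul_inv_cancel, mul_one, one_mul]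

theorem i_c3 (x : Tri G) : mB1i (mB1 x) = x := by
  ext <;> simp only [mB1, mB1i, mul_inv_rev, inv_inv, mul_assoc, inv_mul_cancel_left, mul_inv_cancel_left, inv_mul_cancel, mul_inv_cancel, mul_one, one_mul]

theorem i_c4 (x : Tri G) : mC2i (mC2 x) = x := by
  ext <;> simp only [mC2, mC2i, mul_inv_rev, inv_inv, mul_assoc, inv_mul_cancel_left, mul_inv_cancel_left, inv_mul_cancel, mul_inv_cancel, mul_one, one_mul]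

theorem i_c5 (x : Tri G) : mB2i (mB2 x) = x := by
  ext <;> simp only [mB2, mB2i, mul_inv_rev, inv_inv, mul_assoc, inv_mul_cancel_left, mul_inv_cancel_left, inv_mul_cancel, mul_inv_cancel, mul_one, one_mul]

end

end Pool.Agent.Run7.h132.PJ.LK
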