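import Mathlib
import Pool.Agent.N66.TA.Main
import Pool.Agent.Run7.h132.PJ.LK1

set_option autoImplicit false

/-! The twists `a_m` belong to the Humphries group: the surface group. -/

namespace Pool.Agent.Run7.h132.PJ.LK

open Pool.Agent.N66.TA Pool.Agent.N66.TA.K0 Pool.Agent.H29R2.MG Pool.Agent.H798R3.MG

variable {g : ℕ}

/-- the endomorphism of the free group with the given images of the generators of the handles
`i`, `i + 1`, `i + 2` -/
def tri (g i : ℕ) (t : Tri (FG g)) : FG g →* FG g :=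
  FreeGroup.lift (Sum.elim
    (fun m : Fin g => if (m : ℕ) = i then t.a0 else if (m : ℕ) = i + 1 then t.a1 else
      if (m : ℕ) = i + 2 then t.a2 else fa m)
    (fun m : Fin g => if (m : ℕ) = i then t.b0 else if (m : ℕ) = i + 1 then t.b1 else
      if (m : ℕ) = i + 2 then t.b2 else fb m))

theorem tri_fa (i : ℕ) (t : Tri (FG g)) (m : Fin g) : tri g i t (fa m) =
    if (m : ℕ) = i then t.a0 else if (m : ℕ) = i + 1 then t.a1 else
      if (m : ℕ) = i + 2 then t.a2 else fa m := by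
  conv_lhs => rw [fa]
  simp [tri]

theorem tri_fb (i : ℕ) (t : Tri (FG g)) (m : Fin g) : tri g i t (fb m) =
    if (m : ℕ) = i then t.b0 else if (m : ℕ) = i + 1 then t.b1 else
      if (m : ℕ) = i + 2 then t.b2 else fb m := by
  conv_lhs => rw [fb]
  simp [tri]

/-- the generators of the three handles -/
def gn (g i : ℕ) (h : i + 2 < g) : Tri (FG g) :=
  ⟨fa ⟨i, by omega⟩, fb ⟨i, by omega⟩, fa ⟨i + 1, by omega⟩, fb ⟨i + 1, by omega⟩,
    fa ⟨i + 2, h⟩, fb ⟨i + 2, h⟩⟩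

/-- apply a homomorphism to the six elements -/
def Tri.map {G H : Type*} (f : G → H) (t : Tri G) : Tri H :=
  ⟨f t.a0, f t.b0, f t.a1, f t.b1, f t.a2, f t.b2⟩

theorem tri_gn {i : ℕ} (h : i + 2 < g) (t : Tri (FG g)) : (gn g i h).map (tri g i t) = t := by
  unfold gn Tri.map
  simp only [tri_fa, tri_fb]
  ext <;> simp

/-- word maps are natural -/
def Nat' (M : ∀ {G : Type} [Group G], Tri G → Tri G) : Prop :=
  ∀ {G H : Type} [Group G] [Group H] (f : G →* H) (t : Tri G), (M t).map f = M (t.map f)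

theorem tri_comp {i : ℕ} (h : i + 2 < g) {M : ∀ {G : Type} [Group G], Tri G → Tri G}
    (hM : Nat' M) (t : Tri (FG g)) :
    (tri g i t).comp (tri g i (M (gn g i h))) = tri g i (M t) := by
  have e : (M (gn g i h)).map (tri g i t) = M t := by
    rw [hM, tri_gn h]
  have ea0 : tri g i t (M (gn g i h)).a0 = (M t).a0 := congrArg Tri.a0 e
  have eb0 : tri g i t (M (gn g i h)).b0 = (M t).b0 := congrArg Tri.b0 e
  have ea1 : tri g i t (M (gn g i h)).a1 = (M t).a1 := congrArg Tri.a1 e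
  have eb1 : tri g i t (M (gn g i h)).b1 = (M t).b1 := congrArg Tri.b1 e
  have ea2 : tri g i t (M (gn g i h)).a2 = (M t).a2 := congrArg Tri.a2 e
  have eb2 : tri g i t (M (gn g i h)).b2 = (M t).b2 := congrArg Tri.b2 e
  apply free_ext
  · intro m
    rw [MonoidHom.comp_apply, tri_fa, tri_fa]
    split_ifs with h1 h2 h3
    · exact ea0
    · exact ea1
    · exact ea2
    · rw [tri_fa, if_neg h1, if_neg h2, if_neg h3]
  · intro m
    rw [MonoidHom.comp_apply, tri_fb, tri_fb]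
    split_ifs with h1 h2 h3
    · exact eb0
    · exact eb1
    · exact eb2
    · rw [tri_fb, if_neg h1, if_neg h2, if_neg h3]

theorem ext3 {i : ℕ} (h : i + 2 < g) {f : FG g →* FG g} {t : Tri (FG g)}
    (e : (gn g i h).map f = t)
    (o : ∀ m : Fin g, (m : ℕ) ≠ i → (m : ℕ) ≠ i + 1 → (m : ℕ) ≠ i + 2 →
      f (fa m) = fa m ∧ f (fb m) = fb m) : f = tri g i t := by
  subst e
  have p0 : i < g := by omega
  have p1 : i + 1 < g := by omega
  unfold gn Tri.map
  apply free_ext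
  · intro m
    rw [tri_fa]
    split_ifs with h1 h2 h3
    · have e : m = ⟨i, p0⟩ := Fin.ext h1
      rw [e]
    · have e : m = ⟨i + 1, p1⟩ := Fin.ext h2
      rw [e]
    · have e : m = ⟨i + 2, h⟩ := Fin.ext h3
      rw [e]
    · exact (o m h1 h2 h3).1
  · intro m
    rw [tri_fb]
    split_ifs with h1 h2 h3
    · have e : m = ⟨i, p0⟩ := Fin.ext h1
      rw [e]
    · have e : m = ⟨i + 1, p1⟩ := Fin.ext h2
      rw [e]
    · have e : m = ⟨i + 2, h⟩ := Fin.ext h3
      rw [e]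
    · exact (o m h1 h2 h3).2

theorem tri_id {i : ℕ} (h : i + 2 < g) : tri g i (gn g i h) = MonoidHom.id _ :=
  (ext3 h (f := MonoidHom.id _) rfl fun _ _ _ _ => ⟨rfl, rfl⟩).symm

theorem hA_fa' (k : ℕ) (hk : k < g) (m : Fin g) : hA g k (fa m) = fa m := hA_fa ⟨k, hk⟩ m

theorem hA_fb' (k : ℕ) (hk : k < g) (m : Fin g) :
    hA g k (fb m) = if (m : ℕ) = k then fb ⟨k, hk⟩ * fa ⟨k, hk⟩ else fb m := by
  refine (hA_fb ⟨k, hk⟩ m).trans ?_
  by_cases h : (m : ℕ) = k
  · rw [if_pos h, if_pos (Fin.ext h)]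
  · rw [if_neg h, if_neg (fun e => h (Fin.ext_iff.1 e))]

theorem hB_fa' (k : ℕ) (hk : k < g) (m : Fin g) :
    hB g k (fa m) = if (m : ℕ) = k then fa ⟨k, hk⟩ * (fb ⟨k, hk⟩)⁻¹ else fa m := by
  refine (hB_fa ⟨k, hk⟩ m).trans ?_
  by_cases h : (m : ℕ) = k
  · rw [if_pos h, if_pos (Fin.ext h)]
  · rw [if_neg h, if_neg (fun e => h (Fin.ext_iff.1 e))]

theorem hB_fb' (k : ℕ) (hk : k < g) (m : Fin g) : hB g k (fb m) = fb m := hB_fb ⟨k, hk⟩ m

theorem fv_fa' (k : ℕ) (h : k + 1 < g) (m : Fin g) :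
    fv (g := g) ⟨2 * k + 2, by omega⟩ (fa m) = if (m : ℕ) = k + 1 then
      (fb ⟨k, by omega⟩ * (fa ⟨k, by omega⟩)⁻¹ * (fb ⟨k, by omega⟩)⁻¹ * fa ⟨k + 1, h⟩)⁻¹ * fa m *
      (fb ⟨k, by omega⟩ * (fa ⟨k, by omega⟩)⁻¹ * (fb ⟨k, by omega⟩)⁻¹ * fa ⟨k + 1, h⟩)
      else fa m := by
  rw [fv_even k h, stepE_fa]
  by_cases h1 : (m : ℕ) = k + 1
  · rw [if_pos h1, if_pos (Fin.ext h1)]
  · rw [if_neg h1, if_neg (fun e => h1 (Fin.ext_iff.1 e))]

theorem fv_fb' (k : ℕ) (h : k + 1 < g) (m : Fin g) :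
    fv (g := g) ⟨2 * k + 2, by omega⟩ (fb m) = if (m : ℕ) = k + 1 then fb m *
      (fb ⟨k, by omega⟩ * (fa ⟨k, by omega⟩)⁻¹ * (fb ⟨k, by omega⟩)⁻¹ * fa ⟨k + 1, h⟩)
      else if (m : ℕ) = k then
      (fb ⟨k, by omega⟩ * (fa ⟨k, by omega⟩)⁻¹ * (fb ⟨k, by omega⟩)⁻¹ * fa ⟨k + 1, h⟩)⁻¹ * fb m
      else fb m := by
  rw [fv_even k h, stepE_fb]
  by_cases h1 : (m : ℕ) = k + 1
  · rw [if_pos h1, if_pos (Fin.ext h1)]
  · rw [if_neg h1, if_neg (fun e => h1 (Fin.ext_iff.1 e))]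
    by_cases h2 : (m : ℕ) = k
    · rw [if_pos h2, if_pos (by show (m : ℕ) + 1 = k + 1; omega)]
    · rw [if_neg h2, if_neg (by show ¬ (m : ℕ) + 1 = k + 1; omega)]

section gens
variable {i : ℕ} (h : i + 2 < g)

theorem e_A0 : hA g i = tri g i (mA0 (gn g i h)) := by
  have p0 : i < g := by omega
  have p1 : i + 1 < g := by omega
  refine ext3 h ?_ ?_
  · unfold gn Tri.map mA0
    ext <;> simp only [hA_fa' i p0, hA_fb' i p0] <;> simp
  · intro m h1 h2 h3
    rw [hA_fa' i p0, hA_fb' i p0, if_neg h1]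
    exact ⟨rfl, rfl⟩

theorem e_A1 : hA g (i + 1) = tri g i (mA1 (gn g i h)) := by
  have p0 : i < g := by omega
  have p1 : i + 1 < g := by omega
  refine ext3 h ?_ ?_
  · unfold gn Tri.map mA1
    ext <;> simp only [hA_fa' (i + 1) p1, hA_fb' (i + 1) p1] <;> simp
  · intro m h1 h2 h3
    rw [hA_fa' (i + 1) p1, hA_fb' (i + 1) p1, if_neg h2]
    exact ⟨rfl, rfl⟩

theorem e_A2 : hA g (i + 2) = tri g i (mA2 (gn g i h)) := by
  have p0 : i < g := by omega
  have p1 : i + 1 < g := by omega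
  refine ext3 h ?_ ?_
  · unfold gn Tri.map mA2
    ext <;> simp only [hA_fa' (i + 2) h, hA_fb' (i + 2) h] <;> simp
  · intro m h1 h2 h3
    rw [hA_fa' (i + 2) h, hA_fb' (i + 2) h, if_neg h3]
    exact ⟨rfl, rfl⟩

theorem e_B0 : hB g i = tri g i (mB0 (gn g i h)) := by
  have p0 : i < g := by omega
  have p1 : i + 1 < g := by omega
  refine ext3 h ?_ ?_
  · unfold gn Tri.map mB0
    ext <;> simp only [hB_fa' i p0, hB_fb' i p0] <;> simp
  · intro m h1 h2 h3
    rw [hB_fa' i p0, hB_fb' i p0, if_neg h1]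
    exact ⟨rfl, rfl⟩

theorem e_B1 : hB g (i + 1) = tri g i (mB1 (gn g i h)) := by
  have p0 : i < g := by omega
  have p1 : i + 1 < g := by omega
  refine ext3 h ?_ ?_
  · unfold gn Tri.map mB1
    ext <;> simp only [hB_fa' (i + 1) p1, hB_fb' (i + 1) p1] <;> simp
  · intro m h1 h2 h3
    rw [hB_fa' (i + 1) p1, hB_fb' (i + 1) p1, if_neg h2]
    exact ⟨rfl, rfl⟩

theorem e_B2 : hB g (i + 2) = tri g i (mB2 (gn g i h)) := by
  have p0 : i < g := by omega
  have p1 : i + 1 < g := by omega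
  refine ext3 h ?_ ?_
  · unfold gn Tri.map mB2
    ext <;> simp only [hB_fa' (i + 2) h, hB_fb' (i + 2) h] <;> simp
  · intro m h1 h2 h3
    rw [hB_fa' (i + 2) h, hB_fb' (i + 2) h, if_neg h3]
    exact ⟨rfl, rfl⟩

theorem e_C1 : fv (g := g) ⟨2 * i + 2, by omega⟩ = tri g i (mC1 (gn g i h)) := by
  have p0 : i < g := by omega
  have p1 : i + 1 < g := by omega
  refine ext3 h ?_ ?_
  · unfold gn Tri.map mC1
    ext <;> simp only [fv_fa' i p1, fv_fb' i p1] <;> simp [mul_assoc]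
  · intro m h1 h2 h3
    rw [fv_fa' i p1, fv_fb' i p1, if_neg h2, if_neg h2, if_neg h1]
    exact ⟨rfl, rfl⟩

theorem e_C2 : fv (g := g) ⟨2 * (i + 1) + 2, by omega⟩ = tri g i (mC2 (gn g i h)) := by
  have p0 : i < g := by omega
  have p1 : i + 1 < g := by omega
  refine ext3 h ?_ ?_
  · unfold gn Tri.map mC2
    ext <;> simp only [fv_fa' (i + 1) h, fv_fb' (i + 1) h] <;> simp [mul_assoc] <;>
      (intro hh; exfalso; omega)
  · intro m h1 h2 h3
    rw [fv_fa' (i + 1) h, fv_fb' (i + 1) h, if_neg h3, if_neg h3, if_neg h2]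
    exact ⟨rfl, rfl⟩

end gens

theorem isEnd_pos {S S' T T' : FG g →* FG g} {s t : MulAut (SurfaceGroup g)} (hS : IsEnd S s)
    (hT : IsEnd T t) (hi : S.comp S' = MonoidHom.id _) (h : S.comp T = T'.comp S) :
    IsEnd T' (s * t * s⁻¹) := by
  intro x
  have h1 : s (mk g (S' x)) = mk g x := by
    rw [hS]
    have := DFunLike.congr_fun hi x
    rw [MonoidHom.comp_apply, MonoidHom.id_apply] at this
    rw [this]
  have h2 : s⁻¹ (mk g x) = mk g (S' x) := by
    rw [← h1, MulAut.inv_apply_self]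
  rw [MulAut.mul_apply, MulAut.mul_apply, h2, hT, hS]
  have h3 := DFunLike.congr_fun h (S' x)
  rw [MonoidHom.comp_apply, MonoidHom.comp_apply] at h3
  rw [h3]
  have h4 := DFunLike.congr_fun hi x
  rw [MonoidHom.comp_apply, MonoidHom.id_apply] at h4
  rw [h4]

theorem isEnd_neg {S T T' : FG g →* FG g} {s t : MulAut (SurfaceGroup g)} (hS : IsEnd S s)
    (hT : IsEnd T t) (h : T.comp S = S.comp T') : IsEnd T' (s⁻¹ * t * s) := by
  intro x
  apply s.injective
  rw [MulAut.mul_apply, MulAut.mul_apply, MulAut.apply_inv_self, hS, hT, hS]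
  have h3 := DFunLike.congr_fun h x
  rw [MonoidHom.comp_apply, MonoidHom.comp_apply] at h3
  rw [h3]

/-- the element of the relation -/
def wd {G : Type*} [Group G] (c a : ℕ → G) (i : ℕ) : G :=
  (c (2 * i + 5))⁻¹ * (c (2 * i + 4))⁻¹ * c (2 * i + 3) * (c (2 * i + 2))⁻¹ *
  (c (2 * i + 1))⁻¹ * a (i + 1) * (c (2 * i + 3))⁻¹ * (c (2 * i + 2))⁻¹ * c (2 * i + 4) *
  c (2 * i + 3) * (a (i + 1))⁻¹ * c (2 * i + 5) * c (2 * i + 4) * (c (2 * i + 3))⁻¹ *
  c (2 * i + 2) * c (2 * i + 1)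

theorem n_mA0 : Nat' (fun {_} [Group _] t => mA0 t) := by
  intro G H _ _ f t
  ext <;> simp only [mA0, Tri.map, map_mul, map_inv]

theorem n_mA1 : Nat' (fun {_} [Group _] t => mA1 t) := by
  intro G H _ _ f t
  ext <;> simp only [mA1, Tri.map, map_mul, map_inv]

theorem n_mA2 : Nat' (fun {_} [Group _] t => mA2 t) := by
  intro G H _ _ f t
  ext <;> simp only [mA2, Tri.map, map_mul, map_inv]

theorem n_mB0 : Nat' (fun {_} [Group _] t => mB0 t) := by
  intro G H _ _ f t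
  ext <;> simp only [mB0, Tri.map, map_mul, map_inv]

theorem n_mB1 : Nat' (fun {_} [Group _] t => mB1 t) := by
  intro G H _ _ f t
  ext <;> simp only [mB1, Tri.map, map_mul, map_inv]

theorem n_mB2 : Nat' (fun {_} [Group _] t => mB2 t) := by
  intro G H _ _ f t
  ext <;> simp only [mB2, Tri.map, map_mul, map_inv]

theorem n_mC1 : Nat' (fun {_} [Group _] t => mC1 t) := by
  intro G H _ _ f t
  ext <;> simp only [mC1, Tri.map, map_mul, map_inv]

theorem n_mC2 : Nat' (fun {_} [Group _] t => mC2 t) := by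
  intro G H _ _ f t
  ext <;> simp only [mC2, Tri.map, map_mul, map_inv]

theorem n_mA1i : Nat' (fun {_} [Group _] t => mA1i t) := by
  intro G H _ _ f t
  ext <;> simp only [mA1i, Tri.map, map_mul, map_inv]

theorem n_mB0i : Nat' (fun {_} [Group _] t => mB0i t) := by
  intro G H _ _ f t
  ext <;> simp only [mB0i, Tri.map, map_mul, map_inv]

theorem n_mC1i : Nat' (fun {_} [Group _] t => mC1i t) := by
  intro G H _ _ f t
  ext <;> simp only [mC1i, Tri.map, map_mul, map_inv]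

theorem n_mB1i : Nat' (fun {_} [Group _] t => mB1i t) := by
  intro G H _ _ f t
  ext <;> simp only [mB1i, Tri.map, map_mul, map_inv]

theorem n_mC2i : Nat' (fun {_} [Group _] t => mC2i t) := by
  intro G H _ _ f t
  ext <;> simp only [mC2i, Tri.map, map_mul, map_inv]

theorem n_mB2i : Nat' (fun {_} [Group _] t => mB2i t) := by
  intro G H _ _ f t
  ext <;> simp only [mB2i, Tri.map, map_mul, map_inv]

theorem n_mT1 : Nat' (fun {_} [Group _] t => mT1 t) := by
  intro G H _ _ f t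
  ext <;> simp only [mT1, Tri.map, map_mul, map_inv]

theorem n_mT2 : Nat' (fun {_} [Group _] t => mT2 t) := by
  intro G H _ _ f t
  ext <;> simp only [mT2, Tri.map, map_mul, map_inv]

theorem n_mT3 : Nat' (fun {_} [Group _] t => mT3 t) := by
  intro G H _ _ f t
  ext <;> simp only [mT3, Tri.map, map_mul, map_inv]

theorem n_mT4 : Nat' (fun {_} [Group _] t => mT4 t) := by
  intro G H _ _ f t
  ext <;> simp only [mT4, Tri.map, map_mul, map_inv]

theorem n_mT5 : Nat' (fun {_} [Group _] t => mT5 t) := by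
  intro G H _ _ f t
  ext <;> simp only [mT5, Tri.map, map_mul, map_inv]

theorem n_mT6 : Nat' (fun {_} [Group _] t => mT6 t) := by
  intro G H _ _ f t
  ext <;> simp only [mT6, Tri.map, map_mul, map_inv]

theorem n_mT7 : Nat' (fun {_} [Group _] t => mT7 t) := by
  intro G H _ _ f t
  ext <;> simp only [mT7, Tri.map, map_mul, map_inv]

theorem n_mT8 : Nat' (fun {_} [Group _] t => mT8 t) := by
  intro G H _ _ f t
  ext <;> simp only [mT8, Tri.map, map_mul, map_inv]

theorem n_mT9 : Nat' (fun {_} [Group _] t => mT9 t) := by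
  intro G H _ _ f t
  ext <;> simp only [mT9, Tri.map, map_mul, map_inv]

theorem n_mT10 : Nat' (fun {_} [Group _] t => mT10 t) := by
  intro G H _ _ f t
  ext <;> simp only [mT10, Tri.map, map_mul, map_inv]

theorem n_mT11 : Nat' (fun {_} [Group _] t => mT11 t) := by
  intro G H _ _ f t
  ext <;> simp only [mT11, Tri.map, map_mul, map_inv]

theorem n_mT12 : Nat' (fun {_} [Group _] t => mT12 t) := by
  intro G H _ _ f t
  ext <;> simp only [mT12, Tri.map, map_mul, map_inv]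

theorem n_mT13 : Nat' (fun {_} [Group _] t => mT13 t) := by
  intro G H _ _ f t
  ext <;> simp only [mT13, Tri.map, map_mul, map_inv]

theorem n_mT14 : Nat' (fun {_} [Group _] t => mT14 t) := by
  intro G H _ _ f t
  ext <;> simp only [mT14, Tri.map, map_mul, map_inv]

theorem n_mT15 : Nat' (fun {_} [Group _] t => mT15 t) := by
  intro G H _ _ f t
  ext <;> simp only [mT15, Tri.map, map_mul, map_inv]

theorem a_conj {c a : ℕ → MulAut (SurfaceGroup g)} (hs : Std g c a) {i : ℕ} (h : i + 2 < g) :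
    a (i + 2) = wd c a i * a i * (wd c a i)⁻¹ := by
  have hA0 : IsEnd (tri g i (mA0 (gn g i h))) (a i) := by
    rw [← e_A0 h]; exact hs.ha i (by omega)
  have hA1 : IsEnd (tri g i (mA1 (gn g i h))) (a (i + 1)) := by
    rw [← e_A1 h]; exact hs.ha (i + 1) (by omega)
  have hA2 : IsEnd (tri g i (mA2 (gn g i h))) (a (i + 2)) := by
    rw [← e_A2 h]; exact hs.ha (i + 2) (by omega)
  have hB0 : IsEnd (tri g i (mB0 (gn g i h))) (c (2 * i + 1)) := by
    intro x
    rw [hs.hc (2 * i + 1) (by omega), sv_mk, stepA_eq i (by omega), e_B0 h]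
  have hB1 : IsEnd (tri g i (mB1 (gn g i h))) (c (2 * i + 3)) := by
    intro x
    rw [show 2 * i + 3 = 2 * (i + 1) + 1 by ring, hs.hc (2 * (i + 1) + 1) (by omega), sv_mk,
      stepA_eq (i + 1) (by omega), e_B1 h]
  have hB2 : IsEnd (tri g i (mB2 (gn g i h))) (c (2 * i + 5)) := by
    intro x
    rw [show 2 * i + 5 = 2 * (i + 2) + 1 by ring, hs.hc (2 * (i + 2) + 1) (by omega), sv_mk,
      stepA_eq (i + 2) (by omega), e_B2 h]
  have hC1 : IsEnd (tri g i (mC1 (gn g i h))) (c (2 * i + 2)) := by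
    intro x
    rw [hs.hc (2 * i + 2) (by omega), sv_mk, e_C1 h]
  have hC2 : IsEnd (tri g i (mC2 (gn g i h))) (c (2 * i + 4)) := by
    intro x
    rw [show 2 * i + 4 = 2 * (i + 1) + 2 by ring, hs.hc (2 * (i + 1) + 2) (by omega), sv_mk, e_C2 h]

  have h1 := isEnd_pos (S' := tri g i (mB0i (gn g i h))) (T' := tri g i (mT1 (gn g i h))) hB0 hA0
    (by rw [tri_comp h n_mB0i, i_c1, tri_id h]) (by rw [tri_comp h n_mA0, tri_comp h n_mB0, s0])
  have h2 := isEnd_pos (S' := tri g i (mC1i (gn g i h))) (T' := tri g i (mT2 (gn g i h))) hC1 h1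
    (by rw [tri_comp h n_mC1i, i_c2, tri_id h]) (by rw [tri_comp h n_mT1, tri_comp h n_mC1, s1])
  have h3 := isEnd_neg (T' := tri g i (mT3 (gn g i h))) hB1 h2
    (by rw [tri_comp h n_mB1, tri_comp h n_mT3, s2])
  have h4 := isEnd_pos (S' := tri g i (mC2i (gn g i h))) (T' := tri g i (mT4 (gn g i h))) hC2 h3
    (by rw [tri_comp h n_mC2i, i_c4, tri_id h]) (by rw [tri_comp h n_mT3, tri_comp h n_mC2, s3])
  have h5 := isEnd_pos (S' := tri g i (mB2i (gn g i h))) (T' := tri g i (mT5 (gn g i h))) hB2 h4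
    (by rw [tri_comp h n_mB2i, i_c5, tri_id h]) (by rw [tri_comp h n_mT4, tri_comp h n_mB2, s4])
  have h6 := isEnd_neg (T' := tri g i (mT6 (gn g i h))) hA1 h5
    (by rw [tri_comp h n_mA1, tri_comp h n_mT6, s5])
  have h7 := isEnd_pos (S' := tri g i (mB1i (gn g i h))) (T' := tri g i (mT7 (gn g i h))) hB1 h6
    (by rw [tri_comp h n_mB1i, i_c3, tri_id h]) (by rw [tri_comp h n_mT6, tri_comp h n_mB1, s6])
  have h8 := isEnd_pos (S' := tri g i (mC2i (gn g i h))) (T' := tri g i (mT8 (gn g i h))) hC2 h7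
    (by rw [tri_comp h n_mC2i, i_c4, tri_id h]) (by rw [tri_comp h n_mT7, tri_comp h n_mC2, s7])
  have h9 := isEnd_neg (T' := tri g i (mT9 (gn g i h))) hC1 h8
    (by rw [tri_comp h n_mC1, tri_comp h n_mT9, s8])
  have h10 := isEnd_neg (T' := tri g i (mT10 (gn g i h))) hB1 h9
    (by rw [tri_comp h n_mB1, tri_comp h n_mT10, s9])
  have h11 := isEnd_pos (S' := tri g i (mA1i (gn g i h))) (T' := tri g i (mT11 (gn g i h))) hA1 h10
    (by rw [tri_comp h n_mA1i, i_a1, tri_id h]) (by rw [tri_comp h n_mT10, tri_comp h n_mA1, s10])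
  have h12 := isEnd_neg (T' := tri g i (mT12 (gn g i h))) hB0 h11
    (by rw [tri_comp h n_mB0, tri_comp h n_mT12, s11])
  have h13 := isEnd_neg (T' := tri g i (mT13 (gn g i h))) hC1 h12
    (by rw [tri_comp h n_mC1, tri_comp h n_mT13, s12])
  have h14 := isEnd_pos (S' := tri g i (mB1i (gn g i h))) (T' := tri g i (mT14 (gn g i h))) hB1 h13
    (by rw [tri_comp h n_mB1i, i_c3, tri_id h]) (by rw [tri_comp h n_mT13, tri_comp h n_mB1, s13])
  have h15 := isEnd_neg (T' := tri g i (mT15 (gn g i h))) hC2 h14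
    (by rw [tri_comp h n_mC2, tri_comp h n_mT15, s14])
  have h16 := isEnd_neg (T' := tri g i (mA2 (gn g i h))) hB2 h15
    (by rw [tri_comp h n_mB2, tri_comp h n_mA2, s15])
  have e := mulAut_ext fun x => (hA2 x).trans (h16 x).symm
  rw [e]
  unfold wd
  group

end Pool.Agent.Run7.h132.PJ.LK
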