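import Mathlib
import Pool.Agent.Run7.h132.PJ.LK2
import Pool.Agent.Run7.h132.PJ.K4

set_option autoImplicit false

/-! The relations between the twists in the Humphries group. -/

namespace Pool.Agent.Run7.h132.PJ.LK

open Pool.Agent.N66.TA Pool.Agent.H29R2.MG Pool.Agent.H798R3.MG Pool.Agent.TH35.MG
  Pool.Agent.R352.MG Pool.Agent.R665.MGR

section gen
variable {G H : Type*} [Group G] [Group H]

theorem wd_map (φ : G →* H) (c a : ℕ → G) (i : ℕ) :
    φ (wd c a i) = wd (fun j => φ (c j)) (fun j => φ (a j)) i := by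
  simp only [wd, map_mul, map_inv]

theorem wd_mem {S : Subgroup G} {c a : ℕ → G} {i : ℕ}
    (hc : ∀ j, 2 * i + 1 ≤ j → j ≤ 2 * i + 5 → c j ∈ S) (ha : a (i + 1) ∈ S) : wd c a i ∈ S := by
  have h1 := hc (2 * i + 1) (by omega) (by omega)
  have h2 := hc (2 * i + 2) (by omega) (by omega)
  have h3 := hc (2 * i + 3) (by omega) (by omega)
  have h4 := hc (2 * i + 4) (by omega) (by omega)
  have h5 := hc (2 * i + 5) (by omega) (by omega)
  unfold wd
  repeat' apply mul_mem
  all_goals first | assumption | exact inv_mem (by assumption)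

theorem LickRel.congr2 {g : ℕ} {c a c' a' : ℕ → G} (h : LickRel g c a) (hg : 1 ≤ g)
    (hc : ∀ j < 2 * g, c' j = c j) (ha : ∀ m < g, a' m = a m) : LickRel g c' a' where
  braid := by
    intro j hj
    rw [hc j (by omega), hc (j + 1) hj]
    exact h.braid j hj
  far := by
    intro i j h1 h2
    rw [hc i (by omega), hc j h2]
    exact h.far i j h1 h2
  braidA := by
    intro m hm
    rw [hc (2 * m + 1) (by omega), ha m hm]
    exact h.braidA m hm
  farA := by
    intro m hm j hj h1
    rw [ha m hm, hc j hj]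
    exact h.farA m hm j hj h1
  commA := by
    intro m hm l hl
    rw [ha m hm, ha l hl]
    exact h.commA m hm l hl
  a0 := by
    rw [ha 0 (by omega), hc 0 (by omega)]
    exact h.a0

end gen

/-- the elements and the relations in `Mod_g` -/
theorem mod_rel2 {g : ℕ} (hg : 6 ≤ g) : ∃ a : ℕ → Mod g, IsTwistAt g 1 (a 1) ∧
      LickRel g (tt g) a ∧ (∀ i, i + 2 < g → ∃ D, KRel (tt g) a i D) ∧
      (cp (tt g) 2 (2 * g - 2) * a (g - 1)) ^ (2 * g) = tt g 0 * tt g 0 ∧
      ∀ m < g, a m ∈ Humphries g := by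
  obtain ⟨c, a, hs, hc, ha⟩ := EX.t_EX g
  have hL := ART.t_ART g c a (by omega) hs
  obtain ⟨r, hr, hr1, hr2⟩ := ROT.t_ROT g c a (by omega) hs
  obtain ⟨D, hD, hK⟩ := K0.t_K0 g c a hg hs
  obtain ⟨y, hy⟩ := CL.t_CL g c a (by omega) hs
  let c1 : ℕ → orientedAut g := fun j => ⟨c j, hc j⟩
  let a1 : ℕ → orientedAut g := fun j => ⟨a j, ha j⟩
  let r1 : orientedAut g := ⟨r, hr⟩
  have hL1 : LickRel g c1 a1 := LickRel.of_inj (orientedAut g).subtype_injective hL
  have hct : ∀ j < 2 * g, toMod g (c1 j) = tt g j := by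
    intro j hj
    rw [tt_lt hj]
    have e : c1 j = (⟨sv ⟨j, hj⟩, sv_pres _⟩ : orientedAut g) := Subtype.ext (hs.hc j hj)
    rw [e]
    rfl
  have hr1' : ∀ m, m + 1 < g → r1 * a1 m * r1⁻¹ = a1 (m + 1) ∧
      r1 * c1 (2 * m + 1) * r1⁻¹ = c1 (2 * m + 3) := by
    intro m hm
    obtain ⟨h1, h2⟩ := hr1 m hm
    exact ⟨mul_inv_eq_of_eq_mul (Subtype.ext h1), mul_inv_eq_of_eq_mul (Subtype.ext h2)⟩
  have hr2' : ∀ m, m + 2 < g → r1 * c1 (2 * m + 2) * r1⁻¹ = c1 (2 * m + 4) := by
    intro m hm
    exact mul_inv_eq_of_eq_mul (Subtype.ext (hr2 m hm))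
  have hK1 : ∀ i, i + 2 < g → ∃ D, KRel c1 a1 i D := by
    intro i
    induction i with
    | zero =>
      intro _
      exact ⟨⟨D, hD⟩, KRel.of_inj (φ := (orientedAut g).subtype)
        (orientedAut g).subtype_injective hK⟩
    | succ i ih =>
      intro hi
      obtain ⟨E, hE⟩ := ih (by omega)
      have h1 := hE.map (MulAut.conj r1).toMonoidHom
      refine ⟨_, KRel.shift (h1.congr (c' := fun j => c1 (j + 2)) (a' := fun m => a1 (m + 1))
        ?_ ?_)⟩
      · intro j h2 h3
        show MulAut.conj r1 (c1 j) = c1 (j + 2)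
        rw [MulAut.conj_apply]
        rcases Nat.even_or_odd' j with ⟨m, rfl | rfl⟩
        · obtain ⟨k, rfl⟩ : ∃ k, m = k + 1 := ⟨m - 1, by omega⟩
          have h4 := hr2' k (by omega)
          rw [show 2 * (k + 1) = 2 * k + 2 by ring]
          exact h4
        · exact (hr1' m (by omega)).2
      · intro m h2 h3
        show MulAut.conj r1 (a1 m) = a1 (m + 1)
        rw [MulAut.conj_apply]
        exact (hr1' m (by omega)).1
  have hT1 : IsTwistAt g 1 (toMod g (a1 1)) := by
    refine ⟨a1 1, rfl, ?_⟩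
    intro j
    have h1 := hs.ha 1 (by omega) (FreeGroup.of j)
    rw [mk_hA] at h1
    exact h1
  refine ⟨fun m => toMod g (a1 m), hT1, ?_, ?_, ?_, ?_⟩
  · exact (hL1.map (toMod g)).congr (by omega) hct
  · intro i hi
    obtain ⟨E, hE⟩ := hK1 i hi
    exact ⟨_, (hE.map (toMod g)).congr (fun j h1 h2 => hct j (by omega)) (fun m _ _ => rfl)⟩
  · have h1 : ∃ z : orientedAut g, toMod g z = 1 ∧
        z * (cp c1 2 (2 * g - 2) * a1 (g - 1)) ^ (2 * g) = c1 0 * c1 0 := by
      have h2 : (MulAut.conj y : MulAut (SurfaceGroup g)) ∈ orientedAut g := by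
        have h3 : (MulAut.conj y : MulAut (SurfaceGroup g)) = c 0 * c 0 *
            ((cp c 2 (2 * g - 2) * a (g - 1)) ^ (2 * g))⁻¹ := by
          rw [← hy, mul_inv_cancel_right]
        rw [h3]
        refine mul_mem (mul_mem (hc 0) (hc 0)) (inv_mem (pow_mem (mul_mem ?_ (ha _)) _))
        have h4 := (cp c1 2 (2 * g - 2)).2
        have h5 := cp_map (orientedAut g).subtype c1 2 (2 * g - 2)
        have h6 : ((cp c1 2 (2 * g - 2) : orientedAut g) : MulAut (SurfaceGroup g)) =
          cp c 2 (2 * g - 2) := h5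
        rw [← h6]
        exact h4
      refine ⟨⟨MulAut.conj y, h2⟩, ?_, ?_⟩
      · refine (QuotientGroup.eq_one_iff _).2 ?_
        rw [innerAut, Subgroup.mem_subgroupOf]
        exact ⟨y, rfl⟩
      · apply (orientedAut g).subtype_injective
        rw [map_mul, map_pow, map_mul, cp_map, map_mul]
        exact hy
    obtain ⟨z, hz, h2⟩ := h1
    have h3 := congrArg (toMod g) h2
    rw [map_mul, map_pow, map_mul, cp_map, map_mul, hz, one_mul, hct 0 (by omega)] at h3
    rw [← h3]
    congr 2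
    exact (cp_congr _ _ (fun j h1 h2 => hct j (by omega))).symm
  · intro m
    induction m using Nat.strong_induction_on with
    | _ m ih =>
      intro hm
      match m, ih, hm with
      | 0, _, _ =>
        have e : toMod g (a1 0) = tt g 0 := by rw [hL1.a0, hct 0 (by omega)]
        show toMod g (a1 0) ∈ _
        rw [e]
        exact tt_mem (by omega)
      | 1, _, _ => exact e_mem hT1
      | i + 2, ih, hm =>
        have h1 : a1 (i + 2) = wd c1 a1 i * a1 i * (wd c1 a1 i)⁻¹ := by
          apply (orientedAut g).subtype_injective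
          rw [map_mul, map_mul, map_inv, wd_map]
          exact a_conj hs hm
        show toMod g (a1 (i + 2)) ∈ _
        rw [h1, map_mul, map_mul, map_inv, wd_map]
        have h2 : wd (fun j => toMod g (c1 j)) (fun j => toMod g (a1 j)) i ∈ Humphries g := by
          refine wd_mem ?_ (ih (i + 1) (by omega) (by omega))
          intro j h3 h4
          rw [hct j (by omega)]
          exact tt_mem (by omega)
        exact mul_mem (mul_mem h2 (ih i (by omega) (by omega))) (inv_mem h2)

/-- the relations in the Humphries group -/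
theorem hum_rel {g : ℕ} (hg : 6 ≤ g) : ∃ c a : ℕ → Humphries g,
    (∀ j < 2 * g, (c j : Mod g) = tt g j) ∧ IsTwistAt g 1 (a 1 : Mod g) ∧ GrpRel g c a := by
  obtain ⟨a, hT, hL, hK, hC, hm⟩ := mod_rel2 hg
  let c' : ℕ → Humphries g := fun j => if h : j < 2 * g then ⟨tt g j, tt_mem h⟩ else 1
  let a' : ℕ → Humphries g := fun m => if h : m < g then ⟨a m, hm m h⟩ else 1
  have hc' : ∀ j < 2 * g, (c' j : Mod g) = tt g j := by
    intro j hj
    show ((if h : j < 2 * g then ⟨tt g j, tt_mem h⟩ else 1 : Humphries g) : Mod g) = _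
    rw [dif_pos hj]
  have ha' : ∀ m < g, (a' m : Mod g) = a m := by
    intro m hm'
    show ((if h : m < g then ⟨a m, hm m h⟩ else 1 : Humphries g) : Mod g) = _
    rw [dif_pos hm']
  have hinj := (Humphries g).subtype_injective
  refine ⟨c', a', hc', by rw [ha' 1 (by omega)]; exact hT, ?_, ?_, ?_⟩
  · exact LickRel.of_inj hinj (LickRel.congr2 hL (by omega) hc' ha')
  · intro i hi
    obtain ⟨D, hD⟩ := hK i hi
    have hD2 : KRel (fun j => (Humphries g).subtype (c' j)) (fun j => (Humphries g).subtype (a' j))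
        i D := by
      refine hD.congr ?_ ?_
      · intro j h1 h2
        exact (hc' j (by omega)).symm
      · intro m h1 h2
        exact (ha' m (by omega)).symm
    have e : (Humphries g).subtype ((Qi c' a' i)⁻¹ * (Si c' a' i * TT c' a' (i + 1) *
        (Si c' a' i)⁻¹) * Qi c' a' i) = D := by
      simp only [map_mul, map_inv, Qi_map, Si_map, TT_map]
      have h1 := hD2.d2
      rw [← h1]
      group
    refine ⟨_, KRel.of_inj hinj (D := (Qi c' a' i)⁻¹ * (Si c' a' i * TT c' a' (i + 1) *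
        (Si c' a' i)⁻¹) * Qi c' a' i) ?_⟩
    rw [e]
    exact hD2
  · apply hinj
    rw [map_mul, map_pow, map_mul, cp_map]
    show (_ * (a' (g - 1) : Mod g)) ^ (2 * g) = (c' 0 : Mod g) * (c' 0 : Mod g)
    rw [ha' (g - 1) (by omega), hc' 0 (by omega), ← hC]
    congr 2
    exact cp_congr _ _ (fun j h1 h2 => hc' j (by omega))

end Pool.Agent.Run7.h132.PJ.LK
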