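import Mathlib
import Pool.Agent.Run7.h132.PJ.LK3
import Pool.Agent.Run7.h132.PJ.Defs6

set_option autoImplicit false

/-! The lifts of projective representations are sums of homologies. -/

namespace Pool.Agent.Run7.h132.PJ

open Pool.Agent.H798R3.MG Pool.Agent.TH35.MG Pool.Agent.H29R2.MG Pool.Agent.R352.MG
  Pool.Agent.R665.MGR Matrix Module Pool.Agent.Run7.h132.PC
open Pool.Agent.N66.TA (V0 V1 wl alp GrpRel Leaves leaves decomp)

universe u
variable {K : Type u} [Field K] {d g : ℕ}

section
variable {f : Mod g →* ProjGenLinGroup (Fin d) K} {T : Mod g}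
  {M : ℕ → GeneralLinearGroup (Fin d) K} {Me : GeneralLinearGroup (Fin d) K}
  {F : Humphries g →* GeneralLinearGroup (Fin d) K}

theorem Dat.sum (D : Dat f T M Me) (hg : 10 ≤ g)
    (hF : ∀ x : Humphries g, ((x : Mod g), F x) ∈ Gh g T M Me)
    (h2 : ((2 * g - 2 : ℕ) : K) ≠ 0) : ∃ m, SumOf m F := by
  obtain ⟨c, a, hc, hT', hR⟩ := LK.hum_rel (g := g) (by omega)
  let ρ : Humphries g →* Module.End K (Fin d → K) := op.comp F
  have hcF : ∀ j < 2 * g, F (c j) = M j := by
    intro j hj
    refine D.uniqF hF (c j) (M j) ?_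
    rw [hc j hj, tt_lt hj]
    exact chain_Gh ⟨j, hj⟩
  have haF : F (a 1) = Me := by
    refine D.uniqF hF (a 1) Me ?_
    rw [twist_unique D.hg D.hT hT']
    exact e_Gh
  have eN : ∀ j < 2 * g, N66.TA.op ρ c j = op (M j) - 1 := by
    intro j hj
    show op (F (c j)) - 1 = _
    rw [hcF j hj]
  have eA : N66.TA.op ρ a 1 = op Me - 1 := by
    show op (F (a 1)) - 1 = _
    rw [haF]
  have h0 : (ρ (c 0) - 1) * (ρ (c 0) - 1) = 0 := by
    have e := eN 0 (by omega)
    have e' : ρ (c 0) - 1 = op (M 0) - 1 := e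
    rw [e']
    exact LinearMap.ext fun v => D.rel.sq 0 (by omega) v
  have h1 : (ρ (a 1) - 1) * (ρ (c 0) - 1) = 0 := by
    have e' : ρ (c 0) - 1 = op (M 0) - 1 := eN 0 (by omega)
    have e2 : ρ (a 1) - 1 = op Me - 1 := eA
    rw [e', e2]
    exact LinearMap.ext fun v => D.rel.farE 0 (by omega) (by omega) v
  have hO := leaves.orel g (Humphries g) K (Fin d → K) c a ρ (by omega) hR.lick h0 h1
  have DD := decomp leaves (by omega) hR h2 ρ h0 h1
  obtain ⟨m, y, hy, hli, hsp⟩ := DD.bas
  set v : Fin m × Fin (2 * g) → (Fin d → K) := fun p => wl (N66.TA.op ρ c) p.2 (y p.1)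
    with hv
  let U : Fin m → Submodule K (Fin d → K) := fun k => Submodule.span K (v '' {p | p.1 = k})
  have h3 : (⨆ k, U k) = V1 g (N66.TA.op ρ c) (N66.TA.op ρ a) := by
    rw [hsp, ← Submodule.span_iUnion, ← Set.image_iUnion]
    congr 1
    have : (⋃ k, {p : Fin m × Fin (2 * g) | p.1 = k}) = Set.univ := by
      ext p
      simp
    rw [this, Set.image_univ]
  refine ⟨m, V0 g (N66.TA.op ρ c) (N66.TA.op ρ a), U, ?_, ?_, ?_, ?_, ?_⟩
  · intro x w hw
    have h4 : w ∈ Vinv (2 * g) (fun j => op (M j) - 1) (op Me - 1) := by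
      refine mem_Vinv.2 ⟨fun j hj => ?_, ?_⟩
      · have h5 := hw.1 j hj
        rw [eN j hj] at h5
        exact h5
      · have h5 := hw.2 1 (by omega)
        rw [eA] at h5
        exact h5
    have h5 := D.fixV _ (hF x) w h4
    rw [op_apply] at h5
    exact h5
  · intro k
    have hV := (leaves.bas g K _ _ _ (by omega) hO).1 (y k) (hy k)
    set w : ℕ → (Fin d → K) := fun j => wl (N66.TA.op ρ c) j (y k) with hw
    have hwU : ∀ j < 2 * g, w j ∈ U k := by
      intro j hj
      exact Submodule.subset_span ⟨(k, ⟨j, hj⟩), rfl, rfl⟩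
    have hal : alp (N66.TA.op ρ c) (N66.TA.op ρ a) 1 (y k) = 0 := DD.al (y k) (hy k) 1 (by omega)
    have rr : RRel (2 * g) (fun j => op (M j) - 1) (op Me - 1) ⊥ w := by
      refine ⟨?_, ?_, ?_, ?_, ?_⟩
      · intro j hj
        have h3 := hV.up j hj
        show (op (M (j + 1)) - 1) (w j) + w (j + 1) ∈ _
        rw [← eN (j + 1) hj, h3, neg_add_cancel]
        exact Submodule.zero_mem _
      · intro j hj
        have h3 := hV.dn j hj
        show (op (M j) - 1) (w (j + 1)) - w j ∈ _
        rw [← eN j (by omega), h3, sub_self]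
        exact Submodule.zero_mem _
      · intro i hi j hj h3 h4
        have h5 := hV.fr i hi j hj h3 h4
        show (op (M i) - 1) (w j) ∈ _
        rw [← eN i hi, h5]
        exact Submodule.zero_mem _
      · have h3 := hV.Ab 1 (by omega)
        show (op Me - 1) (w 3) - (w 0 + w 2) ∈ _
        have h4 : N66.TA.op ρ a 1 (w 3) = w 0 + w 2 := by
          refine h3.trans ?_
          rw [Finset.sum_range_succ, Finset.sum_range_one]
          show alp (N66.TA.op ρ c) (N66.TA.op ρ a) 1 (y k) + (w 0 + w 2) = _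
          rw [hal, zero_add]
        rw [← eA, h4, sub_self]
        exact Submodule.zero_mem _
      · intro j hj h3
        have h4 := hV.Aw 1 (by omega) j hj (by omega)
        show (op Me - 1) (w j) ∈ _
        rw [← eA, h4]
        exact Submodule.zero_mem _
    have wr : WRel (2 * g) (fun j => op (M j) - 1) (op Me - 1) ⊥ (U k) w := by
      refine ⟨rr, hwU, ?_, ?_⟩
      · intro j hj h3
        exact hli.ne_zero (k, ⟨j, hj⟩) ((Submodule.mem_bot K).1 h3)
      · refine (Submodule.span_le.2 ?_).trans le_sup_right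
        rintro _ ⟨⟨k', j⟩, hk', rfl⟩
        have hk2 : k' = k := hk'
        subst hk2
        exact Submodule.subset_span ⟨j, j.2, rfl⟩
    have hb : NInv (2 * g) (fun j => op (M j) - 1) (op Me - 1)
        (⊥ : Submodule K (Fin d → K)) := by
      refine ⟨?_, ?_⟩
      · intro j _ x hx
        rw [(Submodule.mem_bot K).1 hx, map_zero]
        exact Submodule.zero_mem _
      · intro x hx
        rw [(Submodule.mem_bot K).1 hx, map_zero]
        exact Submodule.zero_mem _
    have hb2 := D.inv_of hb
    refine ⟨ub g w, ?_, ?_, ?_⟩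
    · rw [Fintype.linearIndependent_iff]
      intro e he
      have h5 := lin_indep wr hb e (by rw [he]; exact Submodule.zero_mem _)
      intro i
      rw [h5]
      rfl
    · apply le_antisymm
      · rw [Submodule.span_le]
        rintro _ ⟨i, rfl⟩
        exact ub_mem wr i
      · have h5 := span_ub wr
        rwa [bot_sup_eq] at h5
    · intro φ hφ x
      obtain ⟨ψ, hψ, h3⟩ := D.equiv hb2 rr _ (hF ⟨classOf g φ, hφ⟩)
      have h4 := (Submodule.mem_bot K).1 (h3 x)
      have h5 : homologyClass (φ.1 x) = homologyClass (ψ.1 x) := by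
        have h6 : classOf g φ = classOf g ψ := hψ.symm
        exact hc_class h6 x
      rw [sub_eq_zero, op_apply] at h4
      show (F ⟨classOf g φ, hφ⟩ : Matrix (Fin d) (Fin d) K).mulVec
        (comb (ub g w) (homologyClass x)) = comb (ub g w) (homologyClass (φ.1 x))
      rw [h5]
      exact h4
  · rw [iSupIndep_def]
    intro k
    have h3 := hli.disjoint_span_image (s := {p | p.1 = k}) (t := {p | p.1 ≠ k})
      (Set.disjoint_left.2 fun p h4 h5 => h5 h4)
    refine h3.mono_right ?_
    refine iSup_le fun j => iSup_le fun hj => Submodule.span_mono (Set.image_mono ?_)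
    rintro p hp
    have hp' : p.1 = j := hp
    show p.1 ≠ k
    rw [hp']
    exact hj
  · rw [h3]
    exact DD.compl
  · have h5 := Submodule.finrank_add_eq_of_isCompl DD.compl
    have h6 : Module.finrank K (V1 g (N66.TA.op ρ c) (N66.TA.op ρ a)) = m * (2 * g) := by
      rw [hsp, finrank_span_eq_card hli]
      simp
    rw [h6, Module.finrank_fin_fun] at h5
    exact h5

end

end Pool.Agent.Run7.h132.PJ
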