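import Mathlib
import Pool.Agent.Run7.h132.PJ.LK4

set_option autoImplicit false

/-! Classification of the projective representations of small dimension: kernels, uniqueness. -/

namespace Pool.Agent.Run7.h132.PC

open Pool.Agent.TH35.MG Pool.Agent.H29R2.MG Pool.Agent.R352.MG Pool.Agent.R665.MGR
  Pool.Agent.Run7.h132.PJ Matrix Module
open Pool.Agent.N66.TA (KRel LickRel GrpRel TT Si Qi Li Rw TT_map Si_map Qi_map Li_map)

universe u
variable {K : Type u} [Field K] {d g : ℕ}

theorem ext_act {A B : GLd d K} (h : ∀ v, A.1.mulVec v = B.1.mulVec v) : A = B := by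
  apply Units.ext
  apply Matrix.toLin'.injective
  apply LinearMap.ext
  intro v
  rw [Matrix.toLin'_apply, Matrix.toLin'_apply]
  exact h v

theorem one_act (v : Fin d → K) : (1 : GLd d K).1.mulVec v = v := by
  rw [Units.val_one, Matrix.one_mulVec]

theorem triv_of_zero {F : Humphries g →* GLd d K} (h : SumOf 0 F) (x : Humphries g) : F x = 1 := by
  obtain ⟨V₀, U, h1, -, -, hc, -⟩ := h
  have h3 : (⨆ k, U k) = ⊥ := by rw [iSup_of_empty]
  rw [h3] at hc
  have h4 := hc.sup_eq_top
  rw [sup_bot_eq] at h4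
  apply ext_act
  intro v
  rw [one_act]
  exact h1 x v (by rw [h4]; exact Submodule.mem_top)

theorem mk_one_iff {A : GLd d K} : Matrix.ProjGenLinGroup.mk A = 1 ↔
    ∃ c : K, ∀ v, A.1.mulVec v = c • v := by
  rw [ProjGenLinGroup.mk_eq_one, GeneralLinearGroup.mem_center_iff_val_mem_range_scalar]
  constructor
  · rintro ⟨c, hc⟩
    refine ⟨c, fun v => ?_⟩
    rw [Matrix.scalar_apply, ← Matrix.smul_one_eq_diagonal] at hc
    rw [← hc, Matrix.smul_mulVec, Matrix.one_mulVec]
  · rintro ⟨c, hc⟩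
    refine ⟨c, ?_⟩
    rw [Matrix.scalar_apply, ← Matrix.smul_one_eq_diagonal]
    apply Matrix.toLin'.injective
    apply LinearMap.ext
    intro v
    rw [Matrix.toLin'_apply, Matrix.toLin'_apply, hc, Matrix.smul_mulVec, Matrix.one_mulVec]

theorem lin_gen (u : Fin g ⊕ Fin g → (Fin d → K)) (k : Fin g ⊕ Fin g) :
    lin u (homologyClass (gen k)) = u k := comb_gen u k

theorem lin_scale {u : Fin g ⊕ Fin g → (Fin d → K)} {c : K} {m n : Fin g ⊕ Fin g → ℤ}
    (h : ∀ j, (m j : K) = c * (n j : K)) : lin u m = c • lin u n := by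
  unfold lin
  rw [Finset.smul_sum]
  refine Finset.sum_congr rfl fun i _ => ?_
  rw [h i, smul_smul]

theorem kernel_to {F : Humphries g →* GLd d K} {m : ℕ} (h : SumOf m F) (hm : 0 < m)
    (y : Humphries g) {c : K} (hc : ∀ v, (F y).1.mulVec v = c • v) :
    ActsAs c (y : Mod g) ∧ (m * (2 * g) < d → c = 1) := by
  obtain ⟨V₀, U, h1, h2, -, -, h5⟩ := h
  constructor
  · rintro φ hφ x j
    obtain ⟨u, hu, -, heq⟩ := h2 ⟨0, hm⟩
    have hy : classOf g φ ∈ Humphries g := by rw [hφ]; exact y.2
    have e : (⟨classOf g φ, hy⟩ : Humphries g) = y := Subtype.ext hφ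
    have h3 := heq φ hy x
    rw [e] at h3
    have h4 : c • lin u (homologyClass x) = lin u (homologyClass (φ.1 x)) := by
      rw [← h3]
      exact (hc _).symm
    have h6 : ∑ i, ((homologyClass (φ.1 x) i : K) - c * (homologyClass x i : K)) • u i = 0 := by
      have h7 : ∑ i, ((homologyClass (φ.1 x) i : K) - c * (homologyClass x i : K)) • u i =
          lin u (homologyClass (φ.1 x)) - c • lin u (homologyClass x) := by
        unfold lin
        rw [Finset.smul_sum, ← Finset.sum_sub_distrib]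
        refine Finset.sum_congr rfl fun i _ => ?_
        rw [sub_smul, smul_smul]
      rw [h7, h4, sub_self]
    exact sub_eq_zero.1 (Fintype.linearIndependent_iff.1 hu _ h6 j)
  · intro hlt
    have h6 : 0 < Module.finrank K V₀ := by omega
    have h7 : V₀ ≠ ⊥ := by
      intro e
      rw [e, finrank_bot] at h6
      omega
    obtain ⟨v, hv, hv0⟩ := Submodule.exists_mem_ne_zero_of_ne_bot h7
    have h8 := h1 y v hv
    have h9 : c • v = v := (hc v).symm.trans h8
    have h10 : (c - 1) • v = 0 := by rw [sub_smul, h9, one_smul, sub_self]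
    exact sub_eq_zero.1 ((smul_eq_zero.1 h10).resolve_right hv0)

theorem kernel_from {F : Humphries g →* GLd d K} {m : ℕ} (h : SumOf m F)
    (y : Humphries g) {c : K} (hy : ActsAs c (y : Mod g)) (h0 : m * (2 * g) < d → c = 1) :
    ∀ v, (F y).1.mulVec v = c • v := by
  obtain ⟨V₀, U, h1, h2, -, h4, h5⟩ := h
  obtain ⟨φ, hφ⟩ : ∃ φ : orientedAut g, classOf g φ = (y : Mod g) :=
    QuotientGroup.mk_surjective (y : Mod g)
  have key : V₀ ⊔ (⨆ k, U k) ≤ LinearMap.ker (op (F y) - c • (1 : Module.End K (Fin d → K))) := by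
    refine sup_le ?_ (iSup_le fun k => ?_)
    · intro v hv
      rw [LinearMap.mem_ker, LinearMap.sub_apply, op_apply, LinearMap.smul_apply,
        Module.End.one_apply]
      have h6 : (F y).1.mulVec v = v := h1 y v hv
      rw [h6]
      by_cases hlt : m * (2 * g) < d
      · rw [h0 hlt, one_smul, sub_self]
      · have h7 : Module.finrank K V₀ = 0 := by omega
        have h8 := Submodule.finrank_eq_zero.1 h7
        rw [h8] at hv
        rw [(Submodule.mem_bot K).1 hv, smul_zero, sub_self]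
    · obtain ⟨u, -, hsp, heq⟩ := h2 k
      rw [← hsp, Submodule.span_le]
      rintro _ ⟨i, rfl⟩
      show u i ∈ LinearMap.ker _
      rw [LinearMap.mem_ker, LinearMap.sub_apply, op_apply, LinearMap.smul_apply,
        Module.End.one_apply]
      have hm : classOf g φ ∈ Humphries g := by rw [hφ]; exact y.2
      have e : (⟨classOf g φ, hm⟩ : Humphries g) = y := Subtype.ext hφ
      have h6 := heq φ hm (gen i)
      rw [e, lin_gen, lin_scale (c := c) (fun j => hy φ hφ (gen i) j), lin_gen] at h6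
      have h7 : (F y).1.mulVec (u i) = c • u i := h6
      rw [h7, sub_self]
  rw [h4.sup_eq_top] at key
  intro v
  have h6 := LinearMap.mem_ker.1 (key (Submodule.mem_top (x := v)))
  rw [LinearMap.sub_apply, op_apply, LinearMap.smul_apply, Module.End.one_apply, sub_eq_zero] at h6
  exact h6

/-- characters of the Humphries group are trivial -/
theorem char_triv {A : Type*} [CommGroup A] (hg : 6 ≤ g) (χ : Humphries g →* A) (x : Humphries g) :
    χ x = 1 := by
  obtain ⟨c, a, hc, hT, hL, hK, -⟩ := LK.hum_rel hg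
  have hcc : ∀ j, j + 1 < 2 * g → χ (c j) = χ (c (j + 1)) := by
    intro j hj
    have h := congrArg χ (hL.braid j hj)
    simp only [map_mul] at h
    have h1 : χ (c j) * χ (c (j + 1)) * χ (c j) = χ (c j) * χ (c (j + 1)) * χ (c (j + 1)) := by
      rw [h, mul_comm (χ (c (j + 1))) (χ (c j))]
    exact mul_left_cancel h1
  have hall : ∀ j < 2 * g, χ (c j) = χ (c 0) := by
    intro j
    induction j with
    | zero => intro _; rfl
    | succ j ih => intro hj; rw [← hcc j hj, ih (by omega)]
  have ha : ∀ m < g, χ (a m) = χ (c 0) := by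
    intro m hm
    have h := congrArg χ (hL.braidA m hm)
    simp only [map_mul] at h
    have h1 : χ (c (2 * m + 1)) * χ (a m) * χ (c (2 * m + 1)) =
        χ (c (2 * m + 1)) * χ (a m) * χ (a m) := by
      rw [h, mul_comm (χ (a m)) (χ (c (2 * m + 1)))]
    rw [← mul_left_cancel h1, hall _ (by omega)]
  have hTT : ∀ i, 2 * i + 2 < 2 * g → χ (TT c a i) = χ (c 0) := by
    intro i hi
    unfold TT
    rw [map_mul, map_mul, map_inv, mul_comm (χ (_ * _)) (χ (c (2 * i + 2))), mul_inv_cancel_right,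
      hall _ hi]
  obtain ⟨D, hD⟩ := hK 0 (by omega)
  have hD1 : χ D = χ (c 0) := by
    have h := congrArg χ hD.d2
    simp only [map_mul, map_inv] at h
    rw [mul_comm (χ (Qi c a 0)) (χ D), mul_inv_cancel_right, mul_comm (χ D)] at h
    rw [mul_left_cancel h]
    exact hTT 1 (by omega)
  have hLi : χ (Li c a 0 D) = 1 := by
    unfold Li
    rw [map_mul, map_mul, map_mul, map_inv, map_mul, map_mul, hTT 0 (by omega),
      hTT (0 + 1) (by omega), hD1, ha 0 (by omega), ha (0 + 1) (by omega), ha (0 + 2) (by omega),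
      mul_inv_cancel]
  have h1 : χ (c 0) = 1 := by
    have h := congrArg χ hD.lan
    simp only [map_mul, hLi, one_mul, mul_one] at h
    have h2 : χ (c (2 * 0 + 1)) * 1 = χ (c (2 * 0 + 1)) * χ (c (2 * 0 + 1)) := by
      rw [mul_one]; exact h
    have h3 := mul_left_cancel h2
    rw [← hall (2 * 0 + 1) (by omega), ← h3]
  have key : ∀ z ∈ Humphries g, ∀ hz : z ∈ Humphries g, χ ⟨z, hz⟩ = 1 := by
    intro z hz
    induction hz using Subgroup.closure_induction with
    | mem z hz =>
      intro hz'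
      rcases hz with ⟨j, rfl⟩ | hz
      · have e : (⟨chainTwist g j, hz'⟩ : Humphries g) = c j :=
          Subtype.ext (by rw [hc j j.2, tt_lt j.2])
        rw [e, hall j j.2, h1]
      · have e : (⟨z, hz'⟩ : Humphries g) = a 1 := by
          apply Subtype.ext
          exact (twist_eq_at (by omega) (by omega) z hz).trans
            (twist_eq_at (by omega) (by omega) _ hT).symm
        rw [e, ha 1 (by omega), h1]
    | one => intro _; exact map_one χ
    | mul y z hy hz h2 h3 =>
      intro hyz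
      have e : (⟨y * z, hyz⟩ : Humphries g) = ⟨y, hy⟩ * ⟨z, hz⟩ := rfl
      rw [e, map_mul, h2, h3, one_mul]
    | inv y hy h2 =>
      intro hyi
      have e : (⟨y⁻¹, hyi⟩ : Humphries g) = (⟨y, hy⟩ : Humphries g)⁻¹ := rfl
      rw [e, map_inv, h2, inv_one]
  exact key x x.2 x.2

theorem uniq (hg : 6 ≤ g) {f : Mod g →* PGL d K} {F F' : Humphries g →* GLd d K}
    (h : Lifts f F) (h' : Lifts f F') : F' = F := by
  rcases Nat.eq_zero_or_pos d with rfl | hd
  · apply MonoidHom.ext
    intro x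
    exact Units.ext (Subsingleton.elim _ _)
  have hz : ∀ x : Humphries g, ∃ c : Kˣ, ∀ v, (F' x).1.mulVec v = (c : K) • (F x).1.mulVec v := by
    intro x
    obtain ⟨c, hc, h1⟩ := class_eq ((h x).trans (h' x).symm)
    refine ⟨Units.mk0 c hc, fun v => ?_⟩
    have h2 : (F' x).1 = c • (F x).1 := h1
    rw [h2, Matrix.smul_mulVec]
    rfl
  choose z hz using hz
  have hinj : ∀ (a b : Kˣ) (A : GLd d K), (∀ v, (a : K) • A.1.mulVec v = (b : K) • A.1.mulVec v) →
      a = b := by
    intro a b A h1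
    apply Units.ext
    have h2 := h1 ((A⁻¹).1.mulVec (fun _ => 1))
    rw [Matrix.mulVec_mulVec, ← Units.val_mul, mul_inv_cancel, Units.val_one,
      Matrix.one_mulVec] at h2
    have h3 := congrFun h2 ⟨0, hd⟩
    simpa using h3
  let χ : Humphries g →* Kˣ := MonoidHom.mk' z fun x y => by
    refine hinj _ _ (F (x * y)) fun v => ?_
    have e1 : (F' (x * y)).1.mulVec v = (F' x).1.mulVec ((F' y).1.mulVec v) := by
      rw [map_mul, Units.val_mul, Matrix.mulVec_mulVec]
    have e2 : (F (x * y)).1.mulVec v = (F x).1.mulVec ((F y).1.mulVec v) := by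
      rw [map_mul, Units.val_mul, Matrix.mulVec_mulVec]
    rw [← hz, e1, e2, hz x, hz y, Matrix.mulVec_smul, smul_smul, Units.val_mul]
  apply MonoidHom.ext
  intro x
  apply ext_act
  intro v
  have h1 : z x = 1 := char_triv hg χ x
  rw [hz x, h1, Units.val_one, one_smul]

theorem sum_zero (F : Humphries g →* GLd 0 K) : SumOf 0 F := by
  refine ⟨⊤, fun k => k.elim0, fun x v _ => Subsingleton.elim _ _, fun k => k.elim0, ?_, ?_, ?_⟩
  · intro k
    exact k.elim0
  · rw [iSup_of_empty]
    exact isCompl_top_bot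
  · rw [zero_mul, add_zero, finrank_top, Module.finrank_fin_fun]

theorem main (hd : d < (g - 8).choose 2) (hK : ((2 * g - 2 : ℕ) : K) ≠ 0) (f : Mod g →* PGL d K) :
    (∃ T : Mod g, IsTwistAt g 1 T) ∧ ∃ (F : Humphries g →* GLd d K) (m : ℕ), Lifts f F ∧
      (∀ F', Lifts f F' → F' = F) ∧ SumOf m F ∧ (m = 0 → ∀ y ∈ Humphries g, f y = 1) ∧
      (0 < m → ∀ y ∈ Humphries g,
        (f y = 1 ↔ ∃ c : K, ActsAs c y ∧ (m * (2 * g) < d → c = 1))) := by
  have hg : 10 ≤ g := by
    by_contra h
    rw [Nat.choose_eq_zero_of_lt (by omega)] at hd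
    omega
  refine ⟨twist_exists_at (by omega) (by omega), ?_⟩
  have key : ∃ (F : Humphries g →* GLd d K) (m : ℕ), Lifts f F ∧ SumOf m F := by
    rcases Nat.eq_zero_or_pos d with rfl | hd0
    · obtain ⟨F, hF⟩ := lifting0 f
      exact ⟨F, 0, hF.cls, sum_zero F⟩
    · obtain ⟨T, hT⟩ := twist_exists_at (g := g) (m := 1) (by omega) (by omega)
      obtain ⟨M, Me, D⟩ := exists_dat hd0 hd f hT
      obtain ⟨F, hF⟩ := D.exists_F
      obtain ⟨m, hm⟩ := D.sum hg hF hK
      exact ⟨F, m, D.clsF hF, hm⟩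
  obtain ⟨F, m, hL, hS⟩ := key
  refine ⟨F, m, hL, fun F' h' => uniq (by omega) hL h', hS, ?_, ?_⟩
  · rintro rfl y hy
    have h1 := hL ⟨y, hy⟩
    rw [triv_of_zero hS, map_one] at h1
    exact h1.symm
  · intro hm y hy
    have h1 : ProjGenLinGroup.mk (F ⟨y, hy⟩) = f y := hL ⟨y, hy⟩
    rw [← h1, mk_one_iff]
    constructor
    · rintro ⟨c, hc⟩
      exact ⟨c, kernel_to hS hm ⟨y, hy⟩ hc⟩
    · rintro ⟨c, hc, h0⟩
      exact ⟨c, kernel_from hS ⟨y, hy⟩ hc h0⟩

end Pool.Agent.Run7.h132.PC
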