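import Mathlib
import Pool.Agent.Run7.h132.PJ.K4
import Pool.Agent.Run7.h132.PJ.K6
import Pool.Agent.Run7.h132.PJ.Defs5

set_option autoImplicit false

/-! Proofs for `MP_59b15d_al.ProjectiveQuotients`. -/

namespace Pool.Agent.Run7.h132.PQ

open Pool.Agent.H29R2.MG Pool.Agent.TH35.MG Pool.Agent.R352.MG Pool.Agent.R665.MGR Pool.Agent.N66.CQ
  Pool.Agent.Run7.h132.PJ

universe u v

variable {g d p : ℕ} {K : Type u} [Field K]

theorem killsCongruence {Q : Type v} [Group Q] (f : Mod g →* Q)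
    (h : ∀ y ∈ HL g p, f y = 1) : KillsCongruence (gam g p) f := by
  intro φ hφ hH
  exact h _ ⟨hH, level_of_inner hφ⟩

theorem inv_iff {f : Mod g →* PGL d K} {F : Humphries g →* GLd d K}
    (hF : ∀ x : Humphries g, Represents (F x) (f x)) (W : Submodule K (Fin d → K)) :
    Invariant f W ↔ ∀ x, ∀ v ∈ W, op (F x) v ∈ W := by
  constructor
  · intro h x v hv
    rw [op_apply]
    exact h x x.2 (F x) (hF x) v hv
  · intro h x hx M hM v hv
    have e : Matrix.ProjGenLinGroup.mk (F ⟨x, hx⟩) = Matrix.ProjGenLinGroup.mk M :=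
      (hF ⟨x, hx⟩).trans hM.symm
    obtain ⟨c, -, hc⟩ := class_eq e
    have hc' : (M.1 : Matrix (Fin d) (Fin d) K) = c • (F ⟨x, hx⟩ : Matrix (Fin d) (Fin d) K) := hc
    rw [hc', Matrix.smul_mulVec, ← op_apply]
    exact W.smul_mem c (h _ v hv)

theorem ctriv_of {y : Mod g} (hp : 0 < p) [CharP K p] (hy : TrivMod p y) : CTriv d K y := by
  have hy' : y ∈ Level g p := hy
  have hp' : Fact p.Prime := ⟨(CharP.char_is_prime_or_zero K p).resolve_right hp.ne'⟩
  exact ctriv_level (p := p) hy'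

theorem lift_ex (hd : d < (g - 8).choose 2) (f : Mod g →* PGL d K) :
    ∃ F : Humphries g →* GLd d K, IsLift f F := by
  obtain ⟨F, hF⟩ := lifting hd f
  refine ⟨F, hF.cls, hF.sq, ?_⟩
  intro p hp hK x y z hy
  exact hF.trip x y z (ctriv_of hp hy)

theorem kills_of (hd : d < (g - 8).choose 2) (hK : ((2 * g - 2 : ℕ) : K) ≠ 0) [CharP K p]
    (f : Mod g →* PGL d K) {y : Mod g} (hy : y ∈ HL g p) : f y = 1 := by
  obtain ⟨-, F, m, -, -, -, h0, h1⟩ := PC.main hd hK f
  rcases Nat.eq_zero_or_pos m with hm | hm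
  · exact h0 hm y hy.1
  · refine (h1 hm y hy.1).2 ⟨1, ?_, fun _ => rfl⟩
    intro φ hφ x j
    have h2 : (p : ℤ) ∣ homologyClass (φ.1 x) j - homologyClass x j := hy.2 φ hφ x j
    have h3 := (CharP.intCast_eq_zero_iff K p _).2 h2
    rw [Int.cast_sub, sub_eq_zero] at h3
    rw [h3, one_mul]

theorem charP_case (hd : d < (g - 8).choose 2) [Fact p.Prime] [CharP K p] :
    CharPCase g d p (gam g p) K := by
  intro f
  obtain ⟨F, hF⟩ := lifting hd f
  refine ⟨finite_image (p := p) hd f, ?_⟩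
  intro h
  have h6 : ∀ y ∈ HL g p, f y = 1 := by
    rcases h with h | h | h
    · exact fun y hy => kill_gen hd f (MonoidHom.id _) Function.injective_id h hy
    · intro y hy
      have h7 : F ⟨y, hy.1⟩ = 1 := by
        refine hF.semi ?_ _ (ctriv_level (p := p) hy.2)
        intro W hW
        obtain ⟨W', h8, h9⟩ := h W ((inv_iff hF.cls W).2 hW)
        exact ⟨W', (inv_iff hF.cls W').1 h8, h9⟩
      have h8 := hF.cls ⟨y, hy.1⟩
      rw [h7, map_one] at h8
      exact h8.symm
    · exact fun y hy => kills_of hd h f hy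
  exact ⟨fun y hy hy2 => h6 y ⟨hy, hy2⟩, killsCongruence f h6⟩

theorem quot_case (hd : d < (g - 8).choose 2) : QuotientCase.{u, v} g d := by
  intro Q _ π K _ ι hι hfin hn
  obtain ⟨p, hp⟩ := CharP.exists K
  rcases CharP.char_is_prime_or_zero K p with hpr | rfl
  · have : Fact p.Prime := ⟨hpr⟩
    refine ⟨gam g p, gam_char g p, gam_fin g p hpr.ne_zero, killsCongruence π ?_⟩
    rcases hn with hn | hn
    · exact fun y hy => kill_gen hd π ι hι (hn p hpr) hy
    · intro y hy
      apply hι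
      rw [map_one]
      exact kills_of hd hn (ι.comp π) hy
  · haveI : CharZero K := CharP.charP_to_charZero K
    have h1 : Finite ((Humphries g).map (ι.comp π)) := by
      rw [← Subgroup.map_map]
      have : Finite ((Humphries g).map π) := hfin
      exact Finite.of_surjective _ (MonoidHom.subgroupMap_surjective ι _)
    have h2 := char_zero hd (ι.comp π) h1
    refine ⟨⊤, inferInstance, inferInstance, ?_⟩
    intro φ _ hH
    apply hι
    rw [map_one]
    exact h2 _ hH

theorem main (hd : d < (g - 8).choose 2) :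
    (∃ T : Mod g, IsTwistAt g 1 T) ∧
    (∀ (K : Type u) [Field K] (f : Mod g →* PGL d K),
      ∃ F : Humphries g →* GLd d K, IsLift f F) ∧
    (∀ p : ℕ, p.Prime → ∃ Γ : Subgroup (SurfaceGroup g), Γ.Characteristic ∧ Γ.FiniteIndex ∧
      (∀ x, x ∈ Γ ↔ ∀ j, (p : ℤ) ∣ homologyClass x j) ∧
      ∀ (K : Type u) [Field K] [CharP K p], CharPCase g d p Γ K) ∧
    (∀ (K : Type u) [Field K] [CharZero K] (f : Mod g →* PGL d K), Finite (Image f) →
      ∀ x ∈ Humphries g, f x = 1) ∧
    QuotientCase.{u, v} g d := by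
  have hg : 10 ≤ g := by
    by_contra h
    rw [Nat.choose_eq_zero_of_lt (by omega)] at hd
    omega
  refine ⟨twist_exists_at (by omega) (by omega), fun K _ f => lift_ex hd f, ?_,
    fun K _ _ f => char_zero hd f, quot_case hd⟩
  intro p hp
  have : Fact p.Prime := ⟨hp⟩
  exact ⟨gam g p, gam_char g p, gam_fin g p hp.ne_zero, fun x => Iff.rfl,
    fun K _ _ => charP_case hd⟩

end Pool.Agent.Run7.h132.PQ
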